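import Pool.Agent.Helper28.LN.L2Main

set_option autoImplicit false

/-!
# Project LINES (MP_120218), Local: the local forms of theorems L1 and L2
-/

namespace Pool.Agent.Helper28.LN

open Finset Pool.Agent.Helper15.GL

/-- growth passes from a large subset to the set -/
theorem grows_of_subset (η c : ℝ) (hη : 0 ≤ η) (hc : 0 ≤ c) (hη1 : η ≤ 1)
    (A S : Finset ℤ) (hSA : S ⊆ A) (hS : S.Nonempty) (hlarge : (A.card : ℝ) ^ (1 - c) ≤ S.card)
    (hG : Grows η S) : Grows (η + c) A := by
  intro X hX
  have hA : A.Nonempty := hS.mono hSA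
  have hA1 : (1 : ℝ) ≤ A.card := by exact_mod_cast hA.card_pos
  have hX1 : (1 : ℝ) ≤ X.card := by exact_mod_cast hX.card_pos
  have ha : 0 ≤ Real.log A.card := Real.log_nonneg hA1
  have hx : 0 ≤ Real.log X.card := Real.log_nonneg hX1
  have h1 := hG X hX
  have hsub : Finset.image₂ (fun a b => a + b) X S ⊆ Finset.image₂ (fun a b => a + b) X A :=
    Finset.image₂_subset_left hSA
  have hpos : (0 : ℝ) < (Finset.image₂ (fun a b => a + b) X S).card := by
    exact_mod_cast Finset.card_pos.2 (hX.image₂ hS)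
  have h2 : Real.log (Finset.image₂ (fun a b => a + b) X S).card ≤
      Real.log (Finset.image₂ (fun a b => a + b) X A).card :=
    Real.log_le_log hpos (by exact_mod_cast Finset.card_le_card hsub)
  have h3 : (1 - c) * Real.log A.card ≤ Real.log S.card := by
    rw [← Real.log_rpow (by linarith)]
    exact Real.log_le_log (Real.rpow_pos_of_pos (by linarith) _) hlarge
  have h4 := mul_le_mul_of_nonneg_left h3 (show 0 ≤ 1 - η by linarith)
  have h5 : 0 ≤ c * Real.log X.card := mul_nonneg hc hx
  have h6 : 0 ≤ η * (c * Real.log A.card) := mul_nonneg hη (mul_nonneg hc ha)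
  nlinarith

/-- **Theorems L1 and L2, local form.** -/
theorem local_forms (k : ℕ) (ε b : ℝ) (hε : 0 < ε) : ∃ C c : ℝ, 0 < C ∧ 0 < c ∧
    ∀ A X : Finset ℤ, A.Nonempty → X.Nonempty → (X.card : ℝ) ≤ (A.card : ℝ) ^ b →
      (X.card : ℝ) * (A.card : ℝ) ^ ((k : ℝ) - ε) ≤ (sk k X A).card ∨
      ∀ S : Finset ℤ, S ⊆ A → (A.card : ℝ) ^ (1 - c) ≤ S.card →
        (∀ (r : ℕ) (g : Fin r → ℚ) (q : Fin r → ℕ), (∀ i, g i ≠ 0) → (∀ i, (q i).Prime) →
          Function.Injective q → (∀ i, padicValRat (q i) (g i) ≠ 0) →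
          (∀ i l, i < l → padicValRat (q i) (g i) * padicValRat (q l) (g i) ≤ 0) →
          ∑ i, (if C * (bad (g i) S).card ≤ S.card then
            (S.card : ℝ) / (bad (g i) S).card else 0) < C * Real.log A.card) ∧
        (∀ (P : Finset ℕ) (N : ℝ), (∀ p ∈ P, p.Prime) → C ≤ N →
          (∀ p ∈ P, N * (bad (p : ℚ) S).card ≤ S.card) →
          N * P.card * Real.log (P.card + 1) < C * Real.log A.card) := by
  classical
  obtain ⟨η0, hη0, hη01, hsk⟩ := sk_large k ε b hε
  obtain ⟨η, hη⟩ : ∃ η : ℝ, η = η0 / 2 := ⟨_, rfl⟩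
  have hηp : 0 < η := by rw [hη]; positivity
  have hη1 : η ≤ 1 := by rw [hη]; linarith
  obtain ⟨C1, hC1, hL1⟩ := lines_grow η hηp hη1
  obtain ⟨C2, hC2, hL2⟩ := primes_grow η hηp hη1
  refine ⟨max C1 C2, η, lt_max_of_lt_left hC1, hηp, ?_⟩
  intro A X hA hX hXb
  by_cases hfirst : (X.card : ℝ) * (A.card : ℝ) ^ ((k : ℝ) - ε) ≤ (sk k X A).card
  · exact Or.inl hfirst
  refine Or.inr ?_
  intro S hSA hlarge
  have hA1 : (1 : ℝ) ≤ A.card := by exact_mod_cast hA.card_pos
  have hSpos : (0 : ℝ) < S.card := lt_of_lt_of_le (Real.rpow_pos_of_pos (by linarith) _) hlarge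
  have hS : S.Nonempty := by
    rw [← Finset.card_pos]
    exact_mod_cast hSpos
  have hSle : (S.card : ℝ) ≤ A.card := by exact_mod_cast Finset.card_le_card hSA
  have hlogS : Real.log S.card ≤ Real.log A.card := Real.log_le_log hSpos hSle
  have hlogS0 : 0 ≤ Real.log S.card := Real.log_natCast_nonneg _
  have hnot : ¬ Grows η S := by
    intro hG
    have h1 := grows_of_subset η η hηp.le hηp.le hη1 A S hSA hS hlarge hG
    have h2 : η + η = η0 := by rw [hη]; ring
    rw [h2] at h1
    exact hfirst (hsk A X hA hX hXb h1)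
  constructor
  · intro r g q hg hq hinj hv hv0
    by_contra hcon
    push Not at hcon
    refine hnot (hL1 S r (fun i => if hi : i < r then g ⟨i, hi⟩ else 0)
      (fun i => if hi : i < r then q ⟨i, hi⟩ else 0) hS ?_ ?_ ?_ ?_ ?_ ?_)
    · intro i hi
      simp only [hi, dif_pos]
      exact hg _
    · intro i hi
      simp only [hi, dif_pos]
      exact hq _
    · intro i hi
      simp only [hi, dif_pos]
      exact hv _
    · intro i hi l hl hil
      simp only [hi, hl, dif_pos]
      exact hv0 _ _ hil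
    · intro i hi l hl hil
      simp only [hi, hl, dif_pos]
      intro h2
      have := hinj h2
      rw [Fin.mk.injEq] at this
      exact hil this
    · rw [← Fin.sum_univ_eq_sum_range (fun i => (if C1 * (bad (if hi : i < r then g ⟨i, hi⟩
        else 0) S).card ≤ S.card then (S.card : ℝ) / (bad (if hi : i < r then g ⟨i, hi⟩ else 0)
        S).card else 0))]
      have h1 : C1 * Real.log S.card ≤ max C1 C2 * Real.log A.card :=
        mul_le_mul (le_max_left _ _) hlogS hlogS0 (le_max_of_le_left hC1.le)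
      refine (h1.trans hcon).trans (Finset.sum_le_sum fun i _ => ?_)
      simp only [Fin.is_lt, dif_pos, Fin.eta]
      have hb0 : (0 : ℝ) ≤ (bad (g i) S).card := Nat.cast_nonneg _
      split_ifs with h2 h3
      · exact le_rfl
      · exact absurd ((mul_le_mul_of_nonneg_right (le_max_left C1 C2) hb0).trans h2) h3
      · positivity
      · exact le_rfl
  · intro P N hP hN hbad
    by_contra hcon
    push Not at hcon
    refine hnot (hL2 S P N hS ((le_max_right _ _).trans hN) hP hbad ?_)
    have h1 : C2 * Real.log S.card ≤ max C1 C2 * Real.log A.card :=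
      mul_le_mul (le_max_right _ _) hlogS hlogS0 (le_max_of_le_right hC2.le)
    exact h1.trans hcon

end Pool.Agent.Helper28.LN
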