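import Pool.Agent.Helper28.LN.Submod

set_option autoImplicit false

/-!
# Project LINES (MP_120218), Shift: almost invariance under multiplication by `G` moves the
spread nodes
-/

namespace Pool.Agent.Helper28.LN

open Finset

/-- the elements of `A` which `G` maps outside `A` -/
def bad (G : ℚ) (A : Finset ℤ) : Finset ℤ := A.filter (fun a => ∀ b ∈ A, (b : ℚ) ≠ G * a)

/-- the elements of `A` which `G` maps into `A` -/
def good (G : ℚ) (A : Finset ℤ) : Finset ℤ := A.filter (fun a => ∃ b ∈ A, (b : ℚ) = G * a)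

/-- multiplication by `G` where the result is an integer -/
def sh (G : ℚ) (a : ℤ) : ℤ := (G * a).num

theorem sh_eq {G : ℚ} {a b : ℤ} (h : (b : ℚ) = G * a) : sh G a = b := by
  unfold sh
  rw [← h]
  exact Rat.num_intCast b

theorem mem_good {G : ℚ} {A : Finset ℤ} {a : ℤ} :
    a ∈ good G A ↔ a ∈ A ∧ sh G a ∈ A ∧ (sh G a : ℚ) = G * a := by
  unfold good
  rw [Finset.mem_filter]
  constructor
  · rintro ⟨ha, b, hb, h⟩
    rw [sh_eq h]
    exact ⟨ha, hb, h⟩
  · rintro ⟨ha, hb, h⟩
    exact ⟨ha, _, hb, h⟩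

theorem mem_bad {G : ℚ} {A : Finset ℤ} {a : ℤ} : a ∈ bad G A ↔ a ∈ A ∧ a ∉ good G A := by
  unfold bad good
  rw [Finset.mem_filter, Finset.mem_filter]
  constructor
  · rintro ⟨ha, h⟩
    refine ⟨ha, fun h1 => ?_⟩
    obtain ⟨_, b, hb, h2⟩ := h1
    exact h b hb h2
  · rintro ⟨ha, h⟩
    exact ⟨ha, fun b hb h2 => h ⟨ha, b, hb, h2⟩⟩

theorem bad_subset (G : ℚ) (A : Finset ℤ) : bad G A ⊆ A := Finset.filter_subset _ _

theorem good_subset (G : ℚ) (A : Finset ℤ) : good G A ⊆ A := Finset.filter_subset _ _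

theorem sh_inv {G : ℚ} (hG : G ≠ 0) {a b : ℤ} (h : (b : ℚ) = G * a) :
    (a : ℚ) = G⁻¹ * b := by
  rw [h, inv_mul_cancel_left₀ hG]

theorem sh_mem_good {G : ℚ} (hG : G ≠ 0) {A : Finset ℤ} {a : ℤ} (ha : a ∈ good G A) :
    sh G a ∈ good G⁻¹ A := by
  rw [mem_good] at ha ⊢
  have h1 := sh_inv hG ha.2.2
  rw [sh_eq h1]
  exact ⟨ha.2.1, ha.1, h1⟩

theorem sh_sh {G : ℚ} (hG : G ≠ 0) {A : Finset ℤ} {a : ℤ} (ha : a ∈ good G A) :
    sh G⁻¹ (sh G a) = a := by
  rw [mem_good] at ha
  exact sh_eq (sh_inv hG ha.2.2)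

theorem card_good_add_bad (G : ℚ) (A : Finset ℤ) :
    (good G A).card + (bad G A).card = A.card := by
  have h : bad G A = A.filter (fun a => a ∉ good G A) := by
    ext a
    rw [mem_bad, Finset.mem_filter]
  have h2 : good G A = A.filter (fun a => a ∈ good G A) := by
    ext a
    rw [Finset.mem_filter]
    exact ⟨fun h => ⟨good_subset _ _ h, h⟩, fun h => h.2⟩
  rw [h]
  conv_lhs => rw [h2]
  have h3 := Finset.card_filter_add_card_filter_not (s := A) (fun a => a ∈ good G A)
  rw [← h2] at h3 ⊢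
  exact h3

theorem card_good_inv {G : ℚ} (hG : G ≠ 0) (A : Finset ℤ) :
    (good G⁻¹ A).card = (good G A).card := by
  refine Finset.card_nbij' (sh G⁻¹) (sh G) ?_ ?_ ?_ ?_
  · intro a ha
    have := sh_mem_good (inv_ne_zero hG) ha
    rwa [inv_inv] at this
  · intro a ha
    exact sh_mem_good hG ha
  · intro a ha
    have := sh_sh (inv_ne_zero hG) ha
    rwa [inv_inv] at this
  · intro a ha
    exact sh_sh hG ha

theorem card_bad_inv {G : ℚ} (hG : G ≠ 0) (A : Finset ℤ) :
    (bad G⁻¹ A).card = (bad G A).card := by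
  have h1 := card_good_add_bad G A
  have h2 := card_good_add_bad G⁻¹ A
  have h3 := card_good_inv hG A
  omega

theorem card_bad_mul (G H : ℚ) (hG : G ≠ 0) (A : Finset ℤ) :
    (bad (H * G) A).card ≤ (bad G A).card + (bad H A).card := by
  classical
  have h1 : bad (H * G) A ⊆ bad G A ∪ (bad (H * G) A \ bad G A) := by
    intro a ha
    rw [Finset.mem_union, Finset.mem_sdiff]
    by_cases h : a ∈ bad G A
    · exact Or.inl h
    · exact Or.inr ⟨ha, h⟩
  refine (Finset.card_le_card h1).trans ((Finset.card_union_le _ _).trans ?_)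
  refine Nat.add_le_add_left ?_ _
  refine Finset.card_le_card_of_injOn (sh G) ?_ ?_
  · intro a ha
    rw [Finset.mem_coe, Finset.mem_sdiff, mem_bad, mem_bad] at ha
    obtain ⟨⟨ha1, ha2⟩, ha3⟩ := ha
    have ha4 : a ∈ good G A := by
      by_contra h
      exact ha3 ⟨ha1, h⟩
    rw [mem_good] at ha4
    rw [Finset.mem_coe, mem_bad]
    refine ⟨ha4.2.1, fun h5 => ha2 ?_⟩
    rw [mem_good] at h5
    rw [ha4.2.2] at h5
    have h6 : (sh H (sh G a) : ℚ) = H * G * a := by rw [h5.2.2]; ring
    rw [mem_good, sh_eq h6]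
    exact ⟨ha1, h5.2.1, h6⟩
  · intro a ha b hb h
    rw [Finset.mem_coe, Finset.mem_sdiff, mem_bad, mem_bad] at ha hb
    have ha4 : a ∈ good G A := by
      by_contra h
      exact ha.2 ⟨ha.1.1, h⟩
    have hb4 : b ∈ good G A := by
      by_contra h
      exact hb.2 ⟨hb.1.1, h⟩
    rw [← sh_sh hG ha4, ← sh_sh hG hb4, h]

theorem card_bad_pow (g : ℚ) (hg : g ≠ 0) (A : Finset ℤ) (u : ℕ) :
    (bad (g ^ u) A).card ≤ u * (bad g A).card := by
  induction u with
  | zero =>
    have : bad (g ^ 0) A = ∅ := by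
      unfold bad
      rw [Finset.filter_eq_empty_iff]
      intro a ha h
      exact h a ha (by simp)
    rw [this]
    simp
  | succ u ih =>
    rw [pow_succ']
    refine (card_bad_mul _ _ (pow_ne_zero _ hg) A).trans ?_
    rw [Nat.succ_mul]
    exact Nat.add_le_add_right ih _

/-- the modulus `m'` at `G d` corresponds to the modulus `m` at `d` -/
def Matched (m' m : ℕ) (G : ℚ) : Prop :=
  ∀ d d' : ℤ, (d' : ℚ) = G * d → ((m' : ℤ) ∣ d' ↔ (m : ℤ) ∣ d)

theorem card_good_cl {G : ℚ} (hG : G ≠ 0) {m' m : ℕ} (h : Matched m' m G) (A : Finset ℤ)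
    (y y' : ℤ) (hy : (y' : ℚ) = G * y) :
    ((cl m' A y').filter (fun a => a ∈ good G⁻¹ A)).card =
      ((cl m A y).filter (fun a => a ∈ good G A)).card := by
  have key : ∀ a : ℤ, a ∈ good G A → ((m' : ℤ) ∣ sh G a - y' ↔ (m : ℤ) ∣ a - y) := by
    intro a ha
    rw [mem_good] at ha
    refine h _ _ ?_
    push_cast
    rw [ha.2.2, hy]
    ring
  refine Finset.card_nbij' (sh G⁻¹) (sh G) ?_ ?_ ?_ ?_
  · intro a ha
    rw [Finset.mem_coe, Finset.mem_filter, mem_cl] at ha ⊢
    have h1 := sh_mem_good (inv_ne_zero hG) ha.2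
    rw [inv_inv] at h1
    have h2 := sh_sh (inv_ne_zero hG) ha.2
    rw [inv_inv] at h2
    refine ⟨⟨good_subset _ _ h1, ?_⟩, h1⟩
    rw [← key _ h1, h2]
    exact ha.1.2
  · intro a ha
    rw [Finset.mem_coe, Finset.mem_filter, mem_cl] at ha ⊢
    have h1 := sh_mem_good hG ha.2
    exact ⟨⟨good_subset _ _ h1, (key a ha.2).2 ha.1.2⟩, h1⟩
  · intro a ha
    rw [Finset.mem_coe, Finset.mem_filter] at ha
    have := sh_sh (inv_ne_zero hG) ha.2
    rwa [inv_inv] at this
  · intro a ha
    rw [Finset.mem_coe, Finset.mem_filter] at ha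
    exact sh_sh hG ha.2

/-- Markov's inequality for the classes -/
theorem markov (m : ℕ) (A B : Finset ℤ) (hBA : B ⊆ A) (κ : ℝ) (hκ : 0 ≤ κ) :
    κ * ((A.filter (fun y => κ * (cl m A y).card <
      ((cl m A y).filter (fun a => a ∈ B)).card)).card : ℝ) ≤ B.card := by
  classical
  have h1 := avg_cl m A (fun a => if a ∈ B then (1 : ℝ) else 0)
  have h2 : ∑ x ∈ A, (if x ∈ B then (1 : ℝ) else 0) = B.card := by
    rw [Finset.sum_boole, Finset.filter_mem_eq_inter, Finset.inter_eq_right.2 hBA]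
  have h3 : ∀ x ∈ A, (∑ y ∈ cl m A x, (if y ∈ B then (1 : ℝ) else 0)) / (cl m A x).card =
      ((cl m A x).filter (fun a => a ∈ B)).card / (cl m A x).card := by
    intro x _
    rw [Finset.sum_boole]
  rw [Finset.sum_congr rfl h3, h2] at h1
  rw [← h1, mul_comm, ← nsmul_eq_mul, ← Finset.sum_const]
  refine le_trans (Finset.sum_le_sum (g := fun x =>
    (((cl m A x).filter (fun a => a ∈ B)).card : ℝ) / (cl m A x).card) fun x hx => ?_)
    (Finset.sum_le_sum_of_subset_of_nonneg (Finset.filter_subset _ _)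
      fun x hx _ => by positivity)
  rw [Finset.mem_filter] at hx
  rw [le_div_iff₀ (cl_card_pos hx.1)]
  exact hx.2.le

theorem card_split (B C A : Finset ℤ) (h : ∀ a ∈ A, a ∈ B ∨ a ∈ C) (D : Finset ℤ)
    (hD : D ⊆ A) : (D.card : ℝ) ≤ (D.filter (fun a => a ∈ B)).card +
      (D.filter (fun a => a ∈ C)).card := by
  classical
  have h1 : D ⊆ D.filter (fun a => a ∈ B) ∪ D.filter (fun a => a ∈ C) := by
    intro a ha
    rw [Finset.mem_union, Finset.mem_filter, Finset.mem_filter]
    rcases h a (hD ha) with h2 | h2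
    · exact Or.inl ⟨ha, h2⟩
    · exact Or.inr ⟨ha, h2⟩
  have h2 := (Finset.card_le_card h1).trans (Finset.card_union_le _ _)
  exact_mod_cast h2

theorem good_or_bad (G : ℚ) (A : Finset ℤ) : ∀ a ∈ A, a ∈ good G A ∨ a ∈ bad G A := by
  intro a ha
  by_cases h : a ∈ good G A
  · exact Or.inl h
  · exact Or.inr (mem_bad.2 ⟨ha, h⟩)

theorem cl_subset (m : ℕ) (A : Finset ℤ) (y : ℤ) : cl m A y ⊆ A := Finset.filter_subset _ _

/-- the digit at a level below the shift is rarely spread -/
theorem nS_low {G : ℚ} (hG : G ≠ 0) {m' m q : ℕ} (h1 : Matched m' m G)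
    (h2 : Matched (m' * q) m G) (A : Finset ℤ) (t : ℝ) (ht0 : 0 < t) (ht1 : t ≤ 1) :
    t * nS m' q t A ≤ 2 * (bad G A).card := by
  classical
  have hsub : A.filter (fun x => Spread m' q t A x) ⊆ bad G⁻¹ A ∪
      A.filter (fun y => t * (cl m' A y).card <
        ((cl m' A y).filter (fun a => a ∈ bad G⁻¹ A)).card) := by
    intro y' hy'
    rw [Finset.mem_filter] at hy'
    rw [Finset.mem_union, Finset.mem_filter]
    rcases good_or_bad G⁻¹ A y' hy'.1 with hg | hb
    · refine Or.inr ⟨hy'.1, ?_⟩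
      have h3 := hy'.2 y' (self_mem_cl hy'.1)
      have h4 := card_split _ _ A (good_or_bad G⁻¹ A) (cl m' A y') (cl_subset _ _ _)
      have h5 : (cl m' A y').filter (fun a => a ∈ good G⁻¹ A) ⊆ cl (m' * q) A y' := by
        intro a ha
        rw [Finset.mem_filter, mem_cl] at ha
        rw [mem_cl]
        refine ⟨ha.1.1, ?_⟩
        have e1 := (mem_good.1 ha.2).2.2
        have e2 := (mem_good.1 hg).2.2
        have e3 : ((a - y' : ℤ) : ℚ) = G * ((sh G⁻¹ a - sh G⁻¹ y' : ℤ) : ℚ) := by
          push_cast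
          rw [e1, e2, ← mul_sub, mul_inv_cancel_left₀ hG]
        rw [h2 _ _ e3, ← h1 _ _ e3]
        exact ha.1.2
      have h6 : (((cl m' A y').filter (fun a => a ∈ good G⁻¹ A)).card : ℝ) ≤
          (cl (m' * q) A y').card := by
        exact_mod_cast Finset.card_le_card h5
      linarith
    · exact Or.inl hb
  have h3 : (nS m' q t A : ℝ) ≤ (bad G⁻¹ A).card +
      (A.filter (fun y => t * (cl m' A y).card <
        ((cl m' A y).filter (fun a => a ∈ bad G⁻¹ A)).card)).card := by
    have h4 := (Finset.card_le_card hsub).trans (Finset.card_union_le _ _)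
    unfold nS
    have h5 : (A.filter (fun x => Spread m' q t A x)).card ≤ (bad G⁻¹ A).card +
      (A.filter (fun y => t * (cl m' A y).card <
        ((cl m' A y).filter (fun a => a ∈ bad G⁻¹ A)).card)).card := h4
    exact_mod_cast h5
  have h4 := markov m' A (bad G⁻¹ A) (bad_subset _ _) t ht0.le
  have h5 := mul_le_mul_of_nonneg_left h3 ht0.le
  rw [mul_add] at h5
  have h6 : t * ((bad G⁻¹ A).card : ℝ) ≤ (bad G⁻¹ A).card :=
    mul_le_of_le_one_left (Nat.cast_nonneg _) ht1
  rw [card_bad_inv hG] at h4 h5 h6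
  linarith

/-- the digit at a level above the shift: spread nodes move -/
theorem nS_high {G : ℚ} (hG : G ≠ 0) {m' m q : ℕ} (h1 : Matched m' m G)
    (h2 : Matched (m' * q) (m * q) G) (A : Finset ℤ) (t : ℝ) (ht0 : 0 < t) (ht1 : t ≤ 1) :
    t * nS m' q t A ≤ t * nS m q (t / 2) A + 13 * (bad G A).card := by
  classical
  obtain ⟨κ, hκ⟩ : ∃ κ : ℝ, κ = t / 6 := ⟨_, rfl⟩
  have hκ0 : 0 < κ := by rw [hκ]; positivity
  obtain ⟨S1, hS1⟩ : ∃ S1 : Finset ℤ, S1 = A.filter (fun y => κ * (cl m' A y).card <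
        ((cl m' A y).filter (fun a => a ∈ bad G⁻¹ A)).card) := ⟨_, rfl⟩
  obtain ⟨S2, hS2⟩ : ∃ S2 : Finset ℤ, S2 = A.filter (fun y => κ * (cl m A y).card <
        ((cl m A y).filter (fun a => a ∈ bad G A)).card) := ⟨_, rfl⟩
  obtain ⟨S3, hS3⟩ : ∃ S3 : Finset ℤ, S3 = A.filter (fun x => Spread m q (t / 2) A x) :=
    ⟨_, rfl⟩
  have hsub : A.filter (fun x => Spread m' q t A x) ⊆ bad G⁻¹ A ∪ S1 ∪
      ((good G⁻¹ A).filter (fun y' => sh G⁻¹ y' ∈ S2) ∪
       (good G⁻¹ A).filter (fun y' => sh G⁻¹ y' ∈ S3)) := by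
    intro y' hy'
    rw [Finset.mem_filter] at hy'
    rw [Finset.mem_union, Finset.mem_union, Finset.mem_union, Finset.mem_filter,
      Finset.mem_filter]
    rcases good_or_bad G⁻¹ A y' hy'.1 with hg | hb
    · by_cases hs1 : y' ∈ S1
      · exact Or.inl (Or.inr hs1)
      by_cases hs2 : sh G⁻¹ y' ∈ S2
      · exact Or.inr (Or.inl ⟨hg, hs2⟩)
      refine Or.inr (Or.inr ⟨hg, ?_⟩)
      obtain ⟨y, hy⟩ : ∃ y : ℤ, y = sh G⁻¹ y' := ⟨_, rfl⟩
      rw [← hy] at hs2 ⊢
      have hyA : y ∈ A := by rw [hy]; exact (mem_good.1 hg).2.1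
      have hyy : (y' : ℚ) = G * y := by
        rw [hy, (mem_good.1 hg).2.2, mul_inv_cancel_left₀ hG]
      have hs1' : (((cl m' A y').filter (fun a => a ∈ bad G⁻¹ A)).card : ℝ) ≤
          κ * (cl m' A y').card := by
        by_contra h
        push Not at h
        exact hs1 (by rw [hS1, Finset.mem_filter]; exact ⟨hy'.1, h⟩)
      have hs2' : (((cl m A y).filter (fun a => a ∈ bad G A)).card : ℝ) ≤
          κ * (cl m A y).card := by
        by_contra h
        push Not at h
        exact hs2 (by rw [hS2, Finset.mem_filter]; exact ⟨hyA, h⟩)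
      rw [hS3, Finset.mem_filter]
      refine ⟨hyA, ?_⟩
      intro z hz
      -- the class of `z` modulo `m * q`
      have c1 := card_good_cl hG h1 A y y' hyy
      have c2 := card_split _ _ A (good_or_bad G⁻¹ A) (cl m' A y') (cl_subset _ _ _)
      have c3 : (((cl m A y).filter (fun a => a ∈ good G A)).card : ℝ) ≤ (cl m A y).card := by
        exact_mod_cast Finset.card_le_card (Finset.filter_subset _ _)
      have c4 : (1 - κ) * ((cl m' A y').card : ℝ) ≤ (cl m A y).card := by
        have : (((cl m' A y').filter (fun a => a ∈ good G⁻¹ A)).card : ℝ) =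
          ((cl m A y).filter (fun a => a ∈ good G A)).card := by exact_mod_cast c1
        linarith
      have c5 := card_split _ _ A (good_or_bad G A) (cl (m * q) A z) (cl_subset _ _ _)
      have hzcl : cl (m * q) A z ⊆ cl m A y := by
        refine (cl_anti (Dvd.intro q rfl) A z).trans ?_
        rw [cl_eq (mem_cl.1 hz).2]
      have c6 : (((cl (m * q) A z).filter (fun a => a ∈ bad G A)).card : ℝ) ≤
          ((cl m A y).filter (fun a => a ∈ bad G A)).card := by
        exact_mod_cast Finset.card_le_card (Finset.filter_subset_filter _ hzcl)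
      have hc'pos := cl_card_pos (m := m') hy'.1
      have hcpos := cl_card_pos (m := m) hyA
      -- the good part
      have c7 : (((cl (m * q) A z).filter (fun a => a ∈ good G A)).card : ℝ) ≤
          (1 - t) * (cl m' A y').card := by
        rcases Finset.eq_empty_or_nonempty
          ((cl (m * q) A z).filter (fun a => a ∈ good G A)) with he | ⟨w, hw⟩
        · rw [he]
          simp only [Finset.card_empty, Nat.cast_zero]
          exact mul_nonneg (by linarith) hc'pos.le
        · rw [Finset.mem_filter, mem_cl] at hw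
          obtain ⟨⟨hwA, hwz⟩, hwg⟩ := hw
          have hwg' := mem_good.1 hwg
          have d1 := card_good_cl hG h2 A w (sh G w) hwg'.2.2
          have d2 : cl (m * q) A z = cl (m * q) A w := (cl_eq hwz).symm
          have d3 : sh G w ∈ cl m' A y' := by
            rw [mem_cl]
            refine ⟨hwg'.2.1, ?_⟩
            have e3 : ((sh G w - y' : ℤ) : ℚ) = G * ((w - y : ℤ) : ℚ) := by
              push_cast
              rw [hwg'.2.2, hyy]
              ring
            rw [h1 _ _ e3]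
            have e4 : w ∈ cl m A y := hzcl (by rw [mem_cl]; exact ⟨hwA, hwz⟩)
            exact (mem_cl.1 e4).2
          have d4 := hy'.2 _ d3
          have d5 : (((cl (m' * q) A (sh G w)).filter (fun a => a ∈ good G⁻¹ A)).card : ℝ) ≤
              (cl (m' * q) A (sh G w)).card := by
            exact_mod_cast Finset.card_le_card (Finset.filter_subset _ _)
          rw [d2]
          have d6 : (((cl (m' * q) A (sh G w)).filter (fun a => a ∈ good G⁻¹ A)).card : ℝ) =
            ((cl (m * q) A w).filter (fun a => a ∈ good G A)).card := by exact_mod_cast d1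
          linarith
      -- conclusion
      have c8 : ((cl (m * q) A z).card : ℝ) ≤
          (1 - t) * (cl m' A y').card + κ * (cl m A y).card := by linarith
      have c9 : (1 - t) * ((cl m' A y').card : ℝ) ≤
          (1 - t) * (1 + 2 * κ) * (cl m A y).card := by
        rw [mul_assoc]
        refine mul_le_mul_of_nonneg_left ?_ (by linarith)
        have hk : κ ≤ 1 / 2 := by rw [hκ]; linarith
        have e1 : ((cl m' A y').card : ℝ) ≤ (1 + 2 * κ) * ((1 - κ) * (cl m' A y').card) := by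
          have : 0 ≤ κ * (1 - 2 * κ) * (cl m' A y').card := by
            apply mul_nonneg (mul_nonneg hκ0.le (by linarith)) hc'pos.le
          nlinarith
        exact e1.trans (mul_le_mul_of_nonneg_left c4 (by linarith))
      have c10 : (1 - t) * (1 + 2 * κ) * (cl m A y).card + κ * (cl m A y).card <
          (1 - t / 2) * ((cl m A y).card : ℝ) := by
        rw [← add_mul]
        refine mul_lt_mul_of_pos_right ?_ hcpos
        rw [hκ]
        nlinarith
      linarith
    · exact Or.inl (Or.inl hb)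
  -- counting
  have hinj : ∀ S : Finset ℤ, ((good G⁻¹ A).filter (fun y' => sh G⁻¹ y' ∈ S)).card ≤
      S.card := by
    intro S
    refine Finset.card_le_card_of_injOn (sh G⁻¹) ?_ ?_
    · intro a ha
      exact (Finset.mem_filter.1 ha).2
    · intro a ha b hb hab
      have ha' := sh_sh (inv_ne_zero hG) (Finset.mem_filter.1 ha).1
      have hb' := sh_sh (inv_ne_zero hG) (Finset.mem_filter.1 hb).1
      rw [← ha', ← hb', hab]
  have hnS : nS m' q t A ≤ (bad G⁻¹ A).card + S1.card + (S2.card + nS m q (t / 2) A) := by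
    have e1 := (Finset.card_le_card hsub).trans (Finset.card_union_le _ _)
    have e2 := Finset.card_union_le (bad G⁻¹ A) S1
    have e3 := Finset.card_union_le ((good G⁻¹ A).filter (fun y' => sh G⁻¹ y' ∈ S2))
      ((good G⁻¹ A).filter (fun y' => sh G⁻¹ y' ∈ S3))
    have e4 := hinj S2
    have e5 := hinj S3
    have e6 : S3.card = nS m q (t / 2) A := by
      rw [hS3]
      unfold nS
      rfl
    have e7 : (A.filter (fun x => Spread m' q t A x)).card = nS m' q t A := by
      unfold nS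
      rfl
    rw [e7] at e1
    omega
  have hnS' : (nS m' q t A : ℝ) ≤ (bad G A).card + S1.card + (S2.card +
      nS m q (t / 2) A) := by
    rw [← card_bad_inv hG]
    exact_mod_cast hnS
  have m1 := markov m' A (bad G⁻¹ A) (bad_subset _ _) κ hκ0.le
  have m2 := markov m A (bad G A) (bad_subset _ _) κ hκ0.le
  rw [← hS1, card_bad_inv hG, hκ] at m1
  rw [← hS2, hκ] at m2
  have h3 := mul_le_mul_of_nonneg_left hnS' ht0.le
  have h6 : t * ((bad G A).card : ℝ) ≤ (bad G A).card :=
    mul_le_of_le_one_left (Nat.cast_nonneg _) ht1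
  linarith

end Pool.Agent.Helper28.LN
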