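import Pool.Agent.Helper15.GL.Node2

set_option autoImplicit false

/-!
# Project LINES (MP_120218), NodeT: a concentrated law loses nothing

If one law on an abelian group has an atom of mass at least `1 - t0` then, whatever the other law
is, the loss of entropy in the convolution is at most `η` times the sum of the entropies.
-/

namespace Pool.Agent.Helper28.LN

open Finset Pool.Agent.Helper15.GL

variable {G : Type} [Fintype G] [AddCommGroup G]

/-- the simple code: first whether `b = b0`, then `a` -/
theorem loss_simple (f g : G → ℝ) (hf : ∀ a, 0 ≤ f a) (hg : ∀ a, 0 ≤ g a) (hf1 : ∑ a, f a = 1)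
    (hg1 : ∑ a, g a = 1) (b0 : G) (σ : ℝ) (hσ : σ = 1 - g b0) (h0 : 0 < σ) (h1 : σ ≤ 1 / 2) :
    ent f + ent g - ent (conv f g) ≤ σ * (-Real.log σ) + σ + σ * ent f := by
  classical
  obtain ⟨W, hWd⟩ : ∃ W : G → G → ℝ,
    W = fun a b => if b = b0 then 1 - σ else σ * f a := ⟨_, rfl⟩
  have hcode := code_bound f g hf hg hf1 hg1 W (by
      intro a b ha _
      rw [hWd]
      simp only
      split_ifs
      · linarith
      · exact mul_pos h0 ha) (by
      intro a b
      rw [hWd]
      simp only
      split_ifs
      · linarith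
      · exact mul_nonneg h0.le (hf a)) (by
      intro z
      have h1 : ∀ a, W a (z - a) ≤ (if a = z - b0 then 1 - σ else 0) + σ * f a := by
        intro a
        rw [hWd]
        simp only
        by_cases h : z - a = b0
        · have h' : a = z - b0 := by rw [← h, sub_sub_cancel]
          rw [if_pos h, if_pos h']
          have := mul_nonneg h0.le (hf a)
          linarith
        · have h' : a ≠ z - b0 := by
            intro h2
            exact h (by rw [h2, sub_sub_cancel])
          rw [if_neg h, if_neg h', zero_add]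
      refine (Finset.sum_le_sum fun a _ => h1 a).trans ?_
      rw [Finset.sum_add_distrib, ← Finset.mul_sum, hf1, Finset.sum_ite_eq' univ (z - b0)]
      simp)
  refine hcode.trans ?_
  have hterm : ∀ a b, f a * g b * (-Real.log (W a b)) ≤
      (if b = b0 then g b0 * (f a * (-Real.log (1 - σ))) else
        g b * (Real.negMulLog (f a) + f a * (-Real.log σ))) := by
    intro a b
    by_cases hb : b = b0
    · rw [if_pos hb, hb, hWd]
      simp only [if_true]
      exact le_of_eq (by ring)
    · rw [if_neg hb, hWd]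
      simp only
      rw [if_neg hb]
      rcases eq_or_lt_of_le (hf a) with ha | ha
      · rw [← ha]
        simp
      · rw [Real.log_mul h0.ne' ha.ne', Real.negMulLog]
        exact le_of_eq (by ring)
  refine (Finset.sum_le_sum fun a _ => Finset.sum_le_sum fun b _ => hterm a b).trans ?_
  rw [Finset.sum_comm]
  have hsplit : ∀ b : G, ∑ a, (if b = b0 then g b0 * (f a * (-Real.log (1 - σ))) else
        g b * (Real.negMulLog (f a) + f a * (-Real.log σ))) =
      (if b = b0 then g b0 * (-Real.log (1 - σ)) else g b * (ent f + (-Real.log σ))) := by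
    intro b
    by_cases hb : b = b0
    · simp only [if_pos hb]
      rw [← Finset.mul_sum, ← Finset.sum_mul, hf1, one_mul]
    · simp only [if_neg hb]
      rw [← Finset.mul_sum, Finset.sum_add_distrib, ← Finset.sum_mul, hf1, one_mul]
      rfl
  rw [Finset.sum_congr rfl fun b _ => hsplit b]
  rw [← Finset.add_sum_erase univ _ (Finset.mem_univ b0), if_pos rfl]
  have h2 : ∑ b ∈ univ.erase b0, (if b = b0 then g b0 * (-Real.log (1 - σ)) else
      g b * (ent f + (-Real.log σ))) = σ * (ent f + (-Real.log σ)) := by
    have h3 : ∑ b ∈ univ.erase b0, (if b = b0 then g b0 * (-Real.log (1 - σ)) else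
        g b * (ent f + (-Real.log σ))) = ∑ b ∈ univ.erase b0, g b * (ent f + (-Real.log σ)) := by
      refine Finset.sum_congr rfl fun b hb => ?_
      rw [if_neg (Finset.ne_of_mem_erase hb)]
    rw [h3, ← Finset.sum_mul]
    congr 1
    have := Finset.add_sum_erase univ g (Finset.mem_univ b0)
    linarith
  rw [h2]
  have h3 : g b0 * (-Real.log (1 - σ)) ≤ σ := by
    have h4 : g b0 = 1 - σ := by linarith
    have h5 := Real.one_sub_inv_le_log_of_pos (show (0 : ℝ) < 1 - σ by linarith)
    rw [h4]
    have h6 : (1 - σ) * (1 - (1 - σ)⁻¹) = -σ := by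
      have : (1 - σ) ≠ 0 := by linarith
      field_simp
      ring
    have h7 := mul_le_mul_of_nonneg_left h5 (show (0 : ℝ) ≤ 1 - σ by linarith)
    rw [h6] at h7
    linarith
  nlinarith

/-- **Concentrated laws.** -/
theorem nodeT (η : ℝ) (hη : 0 < η) : ∃ t0 : ℝ, 0 < t0 ∧ t0 ≤ 1 / 2 ∧
    ∀ (G : Type) [Fintype G] [AddCommGroup G] (f g : G → ℝ),
      (∀ a, 0 ≤ f a) → (∀ a, 0 ≤ g a) → ∑ a, f a = 1 → ∑ a, g a = 1 →
      ∀ b0 : G, 1 - t0 ≤ g b0 → ent f + ent g - ent (conv f g) ≤ η * (ent f + ent g) := by
  obtain ⟨K, hK, hN⟩ := node_exists (η / 2) (by positivity)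
  obtain ⟨c, hc⟩ : ∃ c : ℝ, c = η / (2 * K) * (η / 4) := ⟨_, rfl⟩
  have hc0 : 0 < c := by rw [hc]; positivity
  -- small `x` have small `negMulLog x + x`
  have hcont : Continuous (fun x : ℝ => Real.negMulLog x + x) :=
    Real.continuous_negMulLog.add continuous_id
  have h0 : Filter.Tendsto (fun x : ℝ => Real.negMulLog x + x) (nhds 0) (nhds 0) := by
    have := hcont.tendsto 0
    simpa using this
  obtain ⟨δ, hδ, hδ2⟩ := Metric.tendsto_nhds_nhds.1 h0 c hc0
  refine ⟨min (min (1 / 2) (η / 4)) (δ / 2), by positivity, ?_, ?_⟩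
  · exact (min_le_left _ _).trans (min_le_left _ _)
  intro G _ _ f g hf hg hf1 hg1 b0 hb0
  classical
  have hhf := ent_nonneg f hf hf1
  have hhg := ent_nonneg g hg hg1
  have hg1' : g b0 ≤ 1 := by
    rw [← hg1]
    exact Finset.single_le_sum (f := g) (fun b _ => hg b) (Finset.mem_univ b0)
  obtain ⟨σ, hσ⟩ : ∃ σ : ℝ, σ = 1 - g b0 := ⟨_, rfl⟩
  have hσt : σ ≤ min (min (1 / 2) (η / 4)) (δ / 2) := by rw [hσ]; linarith
  have hσ2 : σ ≤ 1 / 2 := hσt.trans ((min_le_left _ _).trans (min_le_left _ _))
  have hσ4 : σ ≤ η / 4 := hσt.trans ((min_le_left _ _).trans (min_le_right _ _))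
  have hσδ : σ ≤ δ / 2 := hσt.trans (min_le_right _ _)
  rcases eq_or_lt_of_le (show 0 ≤ σ by rw [hσ]; linarith) with h | h
  · -- `g` is a point mass
    have hother : ∀ b, b ≠ b0 → g b = 0 := by
      intro b hb
      have h1 := Finset.add_sum_erase univ g (Finset.mem_univ b0)
      have h2 : g b ≤ ∑ x ∈ univ.erase b0, g x :=
        Finset.single_le_sum (f := g) (fun b _ => hg b)
          (Finset.mem_erase.2 ⟨hb, Finset.mem_univ b⟩)
      have := hg b
      linarith
    have hentg : ent g = 0 := by
      unfold ent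
      refine Finset.sum_eq_zero fun b _ => ?_
      by_cases hb : b = b0
      · have : g b0 = 1 := by linarith
        rw [hb, this]
        simp
      · rw [hother b hb]
        simp
    have h1 := loss_le f g hf hg hf1 hg1
    rw [hentg] at h1 ⊢
    have := mul_nonneg hη.le hhf
    linarith
  have hcode := loss_simple f g hf hg hf1 hg1 b0 σ hσ h hσ2
  have hsmall : σ * (-Real.log σ) + σ < c := by
    have h1 : dist σ 0 < δ := by
      rw [Real.dist_eq, sub_zero, abs_of_pos h]
      linarith
    have h2 := hδ2 h1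
    rw [Real.dist_eq, sub_zero] at h2
    have h3 := (abs_lt.1 h2).2
    unfold Real.negMulLog at h3
    linarith
  rcases le_or_gt (4 / η * (σ * (-Real.log σ) + σ)) (ent f) with hcase | hcase
  · have h1 : σ * (-Real.log σ) + σ ≤ η / 4 * ent f := by
      have := mul_le_mul_of_nonneg_left hcase (show 0 ≤ η / 4 by positivity)
      calc σ * (-Real.log σ) + σ = η / 4 * (4 / η * (σ * (-Real.log σ) + σ)) := by
            field_simp
        _ ≤ _ := this
    have h2 : σ * ent f ≤ η / 4 * ent f := mul_le_mul_of_nonneg_right hσ4 hhf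
    have h3 := mul_nonneg hη.le hhf
    have h4 := mul_nonneg hη.le hhg
    linarith
  · have h1 : ent f ≤ η / (2 * K) := by
      have h2 : 4 / η * (σ * (-Real.log σ) + σ) ≤ 4 / η * c :=
        mul_le_mul_of_nonneg_left hsmall.le (by positivity)
      have h3 : 4 / η * c = η / (2 * K) := by
        rw [hc]
        field_simp
      linarith
    have h2 := hN G f g hf hg hf1 hg1
    have h3 : K * (ent f * ent g) ≤ η / 2 * ent g := by
      have h4 : K * ent f ≤ η / 2 := by
        have := mul_le_mul_of_nonneg_left h1 hK.le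
        calc K * ent f ≤ K * (η / (2 * K)) := this
          _ = η / 2 := by field_simp
      calc K * (ent f * ent g) = (K * ent f) * ent g := by ring
        _ ≤ η / 2 * ent g := mul_le_mul_of_nonneg_right h4 hhg
    have h5 := mul_nonneg hη.le hhf
    linarith

end Pool.Agent.Helper28.LN
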