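import Pool.Agent.Helper28.LN.Cls
import Pool.Agent.Helper28.LN.NodeT

set_option autoImplicit false

/-!
# Project LINES (MP_120218), Chain: a chain of moduli at which `Y` is rarely spread makes
`X + Y` large for every `X`
-/

namespace Pool.Agent.Helper28.LN

open Finset Pool.Agent.Helper15.GL

/-- the node inequality with constants `η`, `t0` -/
def NodeP (η t0 : ℝ) : Prop :=
  ∀ (G : Type) [Fintype G] [AddCommGroup G] (f g : G → ℝ),
    (∀ a, 0 ≤ f a) → (∀ a, 0 ≤ g a) → ∑ a, f a = 1 → ∑ a, g a = 1 →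
    ∀ b0 : G, 1 - t0 ≤ g b0 → ent f + ent g - ent (conv f g) ≤ η * (ent f + ent g)

/-- the logarithm of the sumset of two classes -/
noncomputable def ta (m : ℕ) (X Y : Finset ℤ) (x y : ℤ) : ℝ :=
  Real.log ((Finset.image₂ (fun a b => a + b) (cl m X x) (cl m Y y)).card)

theorem ta_step (m q : ℕ) (hm : 0 < m) [NeZero q] (X Y : Finset ℤ) (x y : ℤ) (hxX : x ∈ X)
    (hyY : y ∈ Y) :
    ent (conv (law (cl m X x) (dg m q)) (law (cl m Y y) (dg m q))) +
      (∑ y' ∈ cl m Y y, (∑ x' ∈ cl m X x, ta (m * q) X Y x' y') /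
        (cl m X x).card) / (cl m Y y).card ≤ ta m X Y x y := by
  classical
  obtain ⟨C, hC⟩ : ∃ C : Finset ℤ, C = cl m X x := ⟨_, rfl⟩
  obtain ⟨D, hD⟩ : ∃ D : Finset ℤ, D = cl m Y y := ⟨_, rfl⟩
  have hCne : C.Nonempty := by rw [hC]; exact cl_nonempty hxX
  have hDne : D.Nonempty := by rw [hD]; exact cl_nonempty hyY
  have hCc : (0 : ℝ) < C.card := by exact_mod_cast Finset.card_pos.2 hCne
  have hDc : (0 : ℝ) < D.card := by exact_mod_cast Finset.card_pos.2 hDne
  obtain ⟨P, hP⟩ : ∃ P : ℤ, P = (m : ℤ) := ⟨_, rfl⟩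
  have hP0 : P ≠ 0 := by rw [hP]; positivity
  have hmod : ∀ {a b : ℤ}, P ∣ a - b → a % P = b % P := fun h =>
    Int.emod_eq_emod_iff_emod_sub_eq_zero.2 (Int.emod_eq_zero_of_dvd h)
  have hsp := split_step C D hCne hDne (dg m q) (dg m q)
    (fun z => dg m q z - (((x % P + y % P) / P : ℤ) : ZMod q)) (by
      intro a ha b hb
      rw [hC, mem_cl, ← hP] at ha
      rw [hD, mem_cl, ← hP] at hb
      have ha' := hmod ha.2
      have hb' := hmod hb.2
      have h1 : (a + b) / P = a / P + b / P + (x % P + y % P) / P := by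
        have e1 := Int.mul_ediv_add_emod a P
        have e2 := Int.mul_ediv_add_emod b P
        have e3 : a + b = (x % P + y % P) + P * (a / P + b / P) := by
          rw [← ha', ← hb', mul_add]
          linarith
        rw [e3, Int.add_mul_ediv_left _ _ hP0, add_comm]
      unfold dg
      rw [← hP, h1]
      push_cast
      ring)
  have hsum : ∑ a ∈ C, ∑ b ∈ D, Real.log ((Finset.image₂ (fun u v => u + v)
        (C.filter (fun z => dg m q z = dg m q a))
        (D.filter (fun z => dg m q z = dg m q b))).card) =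
      ∑ a ∈ C, ∑ b ∈ D, ta (m * q) X Y a b := by
    refine Finset.sum_congr rfl fun a ha => Finset.sum_congr rfl fun b hb => ?_
    rw [hC] at ha
    rw [hD] at hb
    rw [hC, hD, filter_dg m q hm X x a ha, filter_dg m q hm Y y b hb]
    rfl
  rw [hsum] at hsp
  rw [← hC, ← hD]
  have hτ : ta m X Y x y = Real.log ((Finset.image₂ (fun a b => a + b) C D).card) := by
    unfold ta
    rw [hC, hD]
  rw [hτ]
  have e : (∑ y' ∈ D, (∑ x' ∈ C, ta (m * q) X Y x' y') / C.card) / D.card =
      (∑ a ∈ C, ∑ b ∈ D, ta (m * q) X Y a b) / (C.card * D.card) := by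
    rw [← Finset.sum_div, div_div, Finset.sum_comm]
  rw [e]
  have h2 : ent (conv (law C (dg m q)) (law D (dg m q))) =
      ((C.card : ℝ) * D.card * ent (conv (law C (dg m q)) (law D (dg m q)))) /
        (C.card * D.card) := by
    field_simp
  rw [h2, ← add_div, div_le_iff₀ (mul_pos hCc hDc)]
  linarith

/-- a node which is not spread has a large atom -/
theorem exists_atom (m q : ℕ) (hm : 0 < m) (t : ℝ) (Y : Finset ℤ) (y : ℤ)
    (hyY : y ∈ Y) (h : ¬ Spread m q t Y y) : ∃ u, 1 - t ≤ law (cl m Y y) (dg m q) u := by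
  unfold Spread at h
  push Not at h
  obtain ⟨z, hz, h1⟩ := h
  refine ⟨dg m q z, ?_⟩
  unfold law
  rw [filter_dg m q hm Y y z hz, le_div_iff₀ (cl_card_pos hyY)]
  exact h1

/-- one step of the chain: the loss is averaged over arbitrary nodes -/
theorem chain_step_gen (m q : ℕ) (hm : 0 < m) [NeZero q] (X Y : Finset ℤ) (L : ℝ)
    (hL : ∑ x ∈ X, ∑ y ∈ Y, (hh m q X x + hh m q Y y -
      ent (conv (law (cl m X x) (dg m q)) (law (cl m Y y) (dg m q)))) ≤ L) :
    (Y.card * FF m (m * q) X + X.card * FF m (m * q) Y) - L +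
      ∑ x ∈ X, ∑ y ∈ Y, ta (m * q) X Y x y ≤ ∑ x ∈ X, ∑ y ∈ Y, ta m X Y x y := by
  have h1 : ∀ x ∈ X, ∀ y ∈ Y, ent (conv (law (cl m X x) (dg m q)) (law (cl m Y y) (dg m q))) +
      (∑ y' ∈ cl m Y y, (∑ x' ∈ cl m X x, ta (m * q) X Y x' y') /
        (cl m X x).card) / (cl m Y y).card ≤ ta m X Y x y :=
    fun x hxX y hyY => ta_step m q hm X Y x y hxX hyY
  have h2 : ∑ x ∈ X, ∑ y ∈ Y, (ent (conv (law (cl m X x) (dg m q)) (law (cl m Y y) (dg m q))) +
      (∑ y' ∈ cl m Y y, (∑ x' ∈ cl m X x, ta (m * q) X Y x' y') /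
        (cl m X x).card) / (cl m Y y).card) ≤ ∑ x ∈ X, ∑ y ∈ Y, ta m X Y x y :=
    Finset.sum_le_sum fun x hxX => Finset.sum_le_sum fun y hyY => h1 x hxX y hyY
  have h4 : ∑ x ∈ X, ∑ y ∈ Y, (∑ y' ∈ cl m Y y,
      (∑ x' ∈ cl m X x, ta (m * q) X Y x' y') / (cl m X x).card) /
        (cl m Y y).card = ∑ x ∈ X, ∑ y ∈ Y, ta (m * q) X Y x y := by
    have e1 : ∀ x ∈ X, ∑ y ∈ Y, (∑ y' ∈ cl m Y y,
        (∑ x' ∈ cl m X x, ta (m * q) X Y x' y') / (cl m X x).card) /
          (cl m Y y).card =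
        (∑ x' ∈ cl m X x, ∑ y ∈ Y, ta (m * q) X Y x' y) / (cl m X x).card := by
      intro x _
      rw [avg_cl m Y (fun y' => (∑ x' ∈ cl m X x, ta (m * q) X Y x' y') /
        (cl m X x).card), ← Finset.sum_div, Finset.sum_comm]
    rw [Finset.sum_congr rfl e1, avg_cl m X (fun x' => ∑ y ∈ Y, ta (m * q) X Y x' y)]
  have h3 : ∑ x ∈ X, ∑ y ∈ Y, (ent (conv (law (cl m X x) (dg m q)) (law (cl m Y y) (dg m q))) +
      (∑ y' ∈ cl m Y y, (∑ x' ∈ cl m X x, ta (m * q) X Y x' y') /
        (cl m X x).card) / (cl m Y y).card) =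
      ∑ x ∈ X, ∑ y ∈ Y, ent (conv (law (cl m X x) (dg m q)) (law (cl m Y y) (dg m q))) +
      ∑ x ∈ X, ∑ y ∈ Y, ta (m * q) X Y x y := by
    rw [← h4, ← Finset.sum_add_distrib]
    refine Finset.sum_congr rfl fun x _ => ?_
    rw [Finset.sum_add_distrib]
  rw [h3] at h2
  have h5 : ∑ x ∈ X, ∑ y ∈ Y, (hh m q X x + hh m q Y y -
      ent (conv (law (cl m X x) (dg m q)) (law (cl m Y y) (dg m q)))) =
      (Y.card * FF m (m * q) X + X.card * FF m (m * q) Y) -
      ∑ x ∈ X, ∑ y ∈ Y, ent (conv (law (cl m X x) (dg m q)) (law (cl m Y y) (dg m q))) := by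
    have e1 : ∀ x ∈ X, ∑ y ∈ Y, (hh m q X x + hh m q Y y -
      ent (conv (law (cl m X x) (dg m q)) (law (cl m Y y) (dg m q)))) =
        (Y.card * hh m q X x + FF m (m * q) Y) -
        ∑ y ∈ Y, ent (conv (law (cl m X x) (dg m q)) (law (cl m Y y) (dg m q))) := by
      intro x _
      rw [Finset.sum_sub_distrib, Finset.sum_add_distrib, sum_hh m q hm, Finset.sum_const,
        nsmul_eq_mul]
    rw [Finset.sum_congr rfl e1, Finset.sum_sub_distrib, Finset.sum_add_distrib,
      ← Finset.mul_sum, sum_hh m q hm, Finset.sum_const, nsmul_eq_mul]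
  rw [h5] at hL
  linarith

/-- one step of the chain for sets which are rarely spread -/
theorem chain_step {η t0 : ℝ} (hη : 0 ≤ η) (hN : NodeP η t0) (m q : ℕ) (hm : 0 < m) [NeZero q]
    (X Y : Finset ℤ) (ε : ℝ) (hε : (nS m q t0 Y : ℝ) ≤ ε * Y.card) :
    (1 - η - ε) * (Y.card * FF m (m * q) X) + (1 - η) * (X.card * FF m (m * q) Y) +
      ∑ x ∈ X, ∑ y ∈ Y, ta (m * q) X Y x y ≤ ∑ x ∈ X, ∑ y ∈ Y, ta m X Y x y := by
  classical
  have hdvd : m ∣ m * q := Dvd.intro q rfl
  have hloss : ∀ x ∈ X, ∀ y ∈ Y, (hh m q X x + hh m q Y y -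
      ent (conv (law (cl m X x) (dg m q)) (law (cl m Y y) (dg m q)))) ≤
      η * (hh m q X x + hh m q Y y) + (if Spread m q t0 Y y then hh m q X x else 0) := by
    intro x hxX y hyY
    have hx0 := hh_nonneg m q X x hxX
    have hy0 := hh_nonneg m q Y y hyY
    by_cases h : Spread m q t0 Y y
    · rw [if_pos h]
      have h1 := loss_le (law (cl m Y y) (dg m q)) (law (cl m X x) (dg m q))
        (law_nonneg _ _) (law_nonneg _ _) (sum_law _ (cl_nonempty hyY) _)
        (sum_law _ (cl_nonempty hxX) _)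
      rw [conv_comm] at h1
      have h2 : ent (law (cl m X x) (dg m q)) = hh m q X x := rfl
      have h3 : ent (law (cl m Y y) (dg m q)) = hh m q Y y := rfl
      rw [h2, h3] at h1
      have h4 := mul_nonneg hη (add_nonneg hx0 hy0)
      linarith
    · rw [if_neg h]
      obtain ⟨u, hu⟩ := exists_atom m q hm t0 Y y hyY h
      have h1 := hN (ZMod q) (law (cl m X x) (dg m q)) (law (cl m Y y) (dg m q))
        (law_nonneg _ _) (law_nonneg _ _) (sum_law _ (cl_nonempty hxX) _)
        (sum_law _ (cl_nonempty hyY) _) u hu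
      have h2 : ent (law (cl m X x) (dg m q)) = hh m q X x := rfl
      have h3 : ent (law (cl m Y y) (dg m q)) = hh m q Y y := rfl
      rw [h2, h3] at h1
      linarith
  have hL : ∑ x ∈ X, ∑ y ∈ Y, (hh m q X x + hh m q Y y -
      ent (conv (law (cl m X x) (dg m q)) (law (cl m Y y) (dg m q)))) ≤
      η * (Y.card * FF m (m * q) X + X.card * FF m (m * q) Y) +
        ε * (Y.card * FF m (m * q) X) := by
    refine (Finset.sum_le_sum fun x hxX => Finset.sum_le_sum fun y hyY =>
      hloss x hxX y hyY).trans ?_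
    have e1 : ∀ x ∈ X, ∑ y ∈ Y, (η * (hh m q X x + hh m q Y y) +
        (if Spread m q t0 Y y then hh m q X x else 0)) =
        η * (Y.card * hh m q X x + FF m (m * q) Y) + nS m q t0 Y * hh m q X x := by
      intro x _
      rw [Finset.sum_add_distrib, ← Finset.mul_sum, Finset.sum_add_distrib, sum_hh m q hm,
        Finset.sum_const, nsmul_eq_mul, ← Finset.sum_filter, Finset.sum_const, nsmul_eq_mul]
      unfold nS
      rfl
    rw [Finset.sum_congr rfl e1, Finset.sum_add_distrib, ← Finset.mul_sum,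
      Finset.sum_add_distrib, ← Finset.mul_sum, ← Finset.mul_sum, sum_hh m q hm,
      Finset.sum_const, nsmul_eq_mul]
    have h1 := mul_le_mul_of_nonneg_right hε (FF_nonneg hdvd X)
    linarith
  have h := chain_step_gen m q hm X Y _ hL
  linarith

/-- **Chains.** If the moduli `m 0 = 1`, `m (i + 1) = m i * q i`, `i < J`, separate `Y` and at
each step at most `ε |Y|` elements of `Y` are spread then `X + Y` is large for every `X`. -/
theorem chain_grows {η t0 : ℝ} (hη : 0 ≤ η) (hN : NodeP η t0) (ε : ℝ) (hε0 : 0 ≤ ε)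
    (Y : Finset ℤ) (hY : Y.Nonempty) (m q : ℕ → ℕ) (J : ℕ) (h0 : m 0 = 1)
    (hstep : ∀ i < J, m (i + 1) = m i * q i) (hq : ∀ i < J, 0 < q i)
    (hsep : ∀ y ∈ Y, cl (m J) Y y = {y})
    (hsp : ∀ i < J, (nS (m i) (q i) t0 Y : ℝ) ≤ ε * Y.card)
    (X : Finset ℤ) (hX : X.Nonempty) :
    (1 - η - ε) * (Real.log X.card + Real.log Y.card) ≤
      Real.log ((Finset.image₂ (fun a b => a + b) X Y).card) := by
  classical
  have hXc : (0 : ℝ) < X.card := by exact_mod_cast Finset.card_pos.2 hX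
  have hYc : (0 : ℝ) < Y.card := by exact_mod_cast Finset.card_pos.2 hY
  have hpos : ∀ i ≤ J, 0 < m i := by
    intro i
    induction i with
    | zero => intro _; rw [h0]; exact one_pos
    | succ i ih =>
      intro hi
      rw [hstep i (by omega)]
      exact Nat.mul_pos (ih (by omega)) (hq i (by omega))
  have hind : ∀ i ≤ J, (1 - η - ε) * (Y.card * FF 1 (m i) X) +
      (1 - η) * (X.card * FF 1 (m i) Y) + ∑ x ∈ X, ∑ y ∈ Y, ta (m i) X Y x y ≤
      ∑ x ∈ X, ∑ y ∈ Y, ta 1 X Y x y := by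
    intro i
    induction i with
    | zero =>
      intro _
      rw [h0]
      have e : ∀ Z : Finset ℤ, FF 1 1 Z = 0 := by
        intro Z
        unfold FF el
        simp
      rw [e, e]
      simp
    | succ i ih =>
      intro hi
      have hi' : i < J := by omega
      have : NeZero (q i) := ⟨(hq i hi').ne'⟩
      have h1 := chain_step hη hN (m i) (q i) (hpos i (by omega)) X Y ε (hsp i hi')
      have h2 := ih (by omega)
      rw [hstep i hi']
      rw [← FF_add 1 (m i) (m i * q i) X, ← FF_add 1 (m i) (m i * q i) Y]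
      linarith
  have h1 := hind J le_rfl
  have h2 : ∑ x ∈ X, ∑ y ∈ Y, ta 1 X Y x y =
      X.card * Y.card * Real.log ((Finset.image₂ (fun a b => a + b) X Y).card) := by
    have e : ∀ x ∈ X, ∀ y ∈ Y, ta 1 X Y x y =
        Real.log ((Finset.image₂ (fun a b => a + b) X Y).card) := by
      intro x _ y _
      unfold ta
      rw [cl_one, cl_one]
    rw [Finset.sum_congr rfl fun x hx' => Finset.sum_congr rfl fun y hy' => e x hx' y hy']
    simp only [Finset.sum_const, nsmul_eq_mul]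
    ring
  -- the rest of `X`
  obtain ⟨R, hR⟩ : ∃ R : ℝ, R = ∑ x ∈ X, Real.log (cl (m J) X x).card := ⟨_, rfl⟩
  have hR0 : 0 ≤ R := by
    rw [hR]
    exact Finset.sum_nonneg fun x _ => Real.log_natCast_nonneg _
  have h3 : Y.card * R ≤ ∑ x ∈ X, ∑ y ∈ Y, ta (m J) X Y x y := by
    rw [hR, Finset.mul_sum]
    refine Finset.sum_le_sum fun x hx' => ?_
    rw [← nsmul_eq_mul, ← Finset.sum_const]
    refine Finset.sum_le_sum fun y hy' => ?_
    unfold ta
    apply Real.log_le_log (cl_card_pos hx')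
    have : (cl (m J) X x).card ≤
        (Finset.image₂ (fun a b => a + b) (cl (m J) X x) (cl (m J) Y y)).card := by
      refine Finset.card_le_card_of_injOn (fun a => a + y) ?_ ?_
      · intro a ha
        exact Finset.mem_coe.2 (Finset.mem_image₂_of_mem (Finset.mem_coe.1 ha)
          (self_mem_cl hy'))
      · intro a _ b _ h
        exact add_right_cancel h
    exact_mod_cast this
  have hFX : FF 1 (m J) X = X.card * Real.log X.card - R := by
    unfold FF el
    rw [hR, Finset.sum_sub_distrib]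
    simp only [cl_one, Finset.sum_const, nsmul_eq_mul]
  have hFY : FF 1 (m J) Y = Y.card * Real.log Y.card := by
    unfold FF el
    rw [Finset.sum_sub_distrib]
    have e : ∑ y ∈ Y, Real.log (cl (m J) Y y).card = 0 := by
      refine Finset.sum_eq_zero fun y hy' => ?_
      rw [hsep y hy']
      simp
    rw [e]
    simp only [cl_one, Finset.sum_const, nsmul_eq_mul, sub_zero]
  rw [h2, hFX, hFY] at h1
  have hly : 0 ≤ Real.log (Y.card : ℝ) := Real.log_natCast_nonneg _
  have hXY : (0 : ℝ) < X.card * Y.card := mul_pos hXc hYc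
  refine le_of_mul_le_mul_left ?_ hXY
  have h4 : 0 ≤ (η + ε) * (Y.card * R) := by positivity
  have h5 : 0 ≤ ε * ((X.card : ℝ) * Y.card * Real.log Y.card) := by positivity
  linarith

end Pool.Agent.Helper28.LN
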