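import Pool.Agent.Helper15.GL.Split

set_option autoImplicit false

/-!
# Project LINES (MP_120218), Cls: residue classes modulo `m` and one digit
-/

namespace Pool.Agent.Helper28.LN

open Finset Pool.Agent.Helper15.GL

/-- the elements of `X` which are congruent to `x` modulo `m` -/
def cl (m : ℕ) (X : Finset ℤ) (x : ℤ) : Finset ℤ := X.filter (fun y => (m : ℤ) ∣ y - x)

/-- `log` of the size of the class of `x` modulo `m` minus the same modulo `m'` -/
noncomputable def el (m m' : ℕ) (X : Finset ℤ) (x : ℤ) : ℝ :=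
  Real.log (cl m X x).card - Real.log (cl m' X x).card

/-- `|X|` times the conditional entropy of the class modulo `m'` given the class modulo `m` -/
noncomputable def FF (m m' : ℕ) (X : Finset ℤ) : ℝ := ∑ x ∈ X, el m m' X x

theorem mem_cl {m : ℕ} {X : Finset ℤ} {x y : ℤ} :
    y ∈ cl m X x ↔ y ∈ X ∧ (m : ℤ) ∣ y - x := Finset.mem_filter

theorem self_mem_cl {m : ℕ} {X : Finset ℤ} {x : ℤ} (hx : x ∈ X) : x ∈ cl m X x :=
  mem_cl.2 ⟨hx, by simp⟩

theorem cl_nonempty {m : ℕ} {X : Finset ℤ} {x : ℤ} (hx : x ∈ X) : (cl m X x).Nonempty :=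
  ⟨x, self_mem_cl hx⟩

theorem cl_card_pos {m : ℕ} {X : Finset ℤ} {x : ℤ} (hx : x ∈ X) :
    (0 : ℝ) < (cl m X x).card := by
  exact_mod_cast Finset.card_pos.2 (cl_nonempty hx)

theorem cl_one (X : Finset ℤ) (x : ℤ) : cl 1 X x = X := by
  unfold cl
  simp

theorem cl_anti {m m' : ℕ} (h : m ∣ m') (X : Finset ℤ) (x : ℤ) : cl m' X x ⊆ cl m X x := by
  intro y hy
  rw [mem_cl] at hy ⊢
  exact ⟨hy.1, (Int.natCast_dvd_natCast.2 h).trans hy.2⟩

theorem cl_eq {m : ℕ} {X : Finset ℤ} {x y : ℤ} (h : (m : ℤ) ∣ y - x) : cl m X y = cl m X x := by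
  unfold cl
  refine Finset.filter_congr fun z _ => ?_
  constructor
  · intro hz
    have := dvd_add hz h
    simpa using this
  · intro hz
    have := dvd_sub hz h
    simpa using this

theorem cl_comm {m : ℕ} {X : Finset ℤ} {x y : ℤ} (hx : x ∈ X) (h : y ∈ cl m X x) :
    x ∈ cl m X y := by
  rw [mem_cl] at h ⊢
  exact ⟨hx, by rw [dvd_sub_comm]; exact h.2⟩

theorem el_nonneg {m m' : ℕ} (h : m ∣ m') (X : Finset ℤ) (x : ℤ) (hx : x ∈ X) :
    0 ≤ el m m' X x := by
  unfold el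
  have h2 : ((cl m' X x).card : ℝ) ≤ (cl m X x).card := by
    exact_mod_cast Finset.card_le_card (cl_anti h X x)
  have := Real.log_le_log (cl_card_pos hx) h2
  linarith

theorem FF_nonneg {m m' : ℕ} (h : m ∣ m') (X : Finset ℤ) : 0 ≤ FF m m' X :=
  Finset.sum_nonneg fun x hx => el_nonneg h X x hx

theorem FF_add (m m' m'' : ℕ) (X : Finset ℤ) : FF m m' X + FF m' m'' X = FF m m'' X := by
  unfold FF
  rw [← Finset.sum_add_distrib]
  refine Finset.sum_congr rfl fun x _ => ?_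
  unfold el
  ring

theorem FF_one_le (m : ℕ) (X : Finset ℤ) : FF 1 m X ≤ X.card * Real.log X.card := by
  unfold FF
  rw [← nsmul_eq_mul, ← Finset.sum_const]
  refine Finset.sum_le_sum fun x _ => ?_
  unfold el
  rw [cl_one]
  have := Real.log_natCast_nonneg (cl m X x).card
  linarith

/-- averaging over classes -/
theorem avg_cl (m : ℕ) (X : Finset ℤ) (ψ : ℤ → ℝ) :
    ∑ x ∈ X, (∑ y ∈ cl m X x, ψ y) / (cl m X x).card = ∑ x ∈ X, ψ x := by
  have h1 : ∀ x ∈ X, (∑ y ∈ cl m X x, ψ y) / (cl m X x).card =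
      ∑ y ∈ X, if (m : ℤ) ∣ y - x then ψ y / (cl m X y).card else 0 := by
    intro x _
    rw [Finset.sum_div, ← Finset.sum_filter]
    refine Finset.sum_congr rfl fun y hy => ?_
    rw [Finset.mem_filter] at hy
    rw [cl_eq hy.2]
  rw [Finset.sum_congr rfl h1, Finset.sum_comm]
  refine Finset.sum_congr rfl fun y hy => ?_
  have h2 : ∑ x ∈ X, (if (m : ℤ) ∣ y - x then ψ y / (cl m X y).card else 0) =
      ∑ x ∈ cl m X y, ψ y / (cl m X y).card := by
    rw [← Finset.sum_filter]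
    unfold cl
    refine Finset.sum_congr (Finset.filter_congr fun x _ => ?_) fun _ _ => rfl
    rw [dvd_sub_comm]
  rw [h2, Finset.sum_const, nsmul_eq_mul]
  have h3 : ((cl m X y).card : ℝ) ≠ 0 := (cl_card_pos hy).ne'
  field_simp

/-- the digit following the class modulo `m` -/
def dg (m q : ℕ) (x : ℤ) : ZMod q := ((x / (m : ℤ) : ℤ) : ZMod q)

theorem ediv_sub {P x y : ℤ} (h : P ∣ x - y) : x - y = P * (x / P - y / P) := by
  have h1 := Int.mul_ediv_add_emod x P
  have h2 := Int.mul_ediv_add_emod y P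
  have h3 : x % P = y % P := Int.emod_eq_emod_iff_emod_sub_eq_zero.2
    (Int.emod_eq_zero_of_dvd h)
  rw [mul_sub]
  linarith

theorem dg_eq_iff {m q : ℕ} (hm : 0 < m) {x y : ℤ} (h : (m : ℤ) ∣ y - x) :
    dg m q y = dg m q x ↔ ((m * q : ℕ) : ℤ) ∣ y - x := by
  have hP : (m : ℤ) ≠ 0 := by positivity
  unfold dg
  rw [ZMod.intCast_eq_intCast_iff_dvd_sub, dvd_sub_comm, ediv_sub h, Nat.cast_mul,
    mul_dvd_mul_iff_left hP]

theorem filter_dg (m q : ℕ) (hm : 0 < m) (X : Finset ℤ) (x x' : ℤ) (hx' : x' ∈ cl m X x) :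
    (cl m X x).filter (fun z => dg m q z = dg m q x') = cl (m * q) X x' := by
  rw [mem_cl] at hx'
  ext z
  rw [Finset.mem_filter, mem_cl, mem_cl]
  constructor
  · rintro ⟨⟨hz, h1⟩, h2⟩
    refine ⟨hz, ?_⟩
    have h3 : (m : ℤ) ∣ z - x' := by
      have := dvd_sub h1 hx'.2
      simpa using this
    exact (dg_eq_iff hm h3).1 h2
  · rintro ⟨hz, h1⟩
    have h3 : (m : ℤ) ∣ z - x' :=
      (Int.natCast_dvd_natCast.2 (Dvd.intro q rfl)).trans h1
    refine ⟨⟨hz, ?_⟩, (dg_eq_iff hm h3).2 h1⟩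
    have := dvd_add h3 hx'.2
    simpa using this

/-- the entropy of the digit in the class of `x` -/
noncomputable def hh (m q : ℕ) [NeZero q] (X : Finset ℤ) (x : ℤ) : ℝ :=
  ent (law (cl m X x) (dg m q))

theorem hh_eq (m q : ℕ) (hm : 0 < m) [NeZero q] (X : Finset ℤ) (x : ℤ) (hx' : x ∈ X) :
    hh m q X x = (∑ y ∈ cl m X x, el m (m * q) X y) / (cl m X x).card := by
  have hc : ((cl m X x).card : ℝ) ≠ 0 := (cl_card_pos hx').ne'
  have h := ent_law (cl m X x) (cl_nonempty hx') (dg m q)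
  rw [eq_div_iff hc, mul_comm]
  unfold hh
  rw [h]
  refine Finset.sum_congr rfl fun y hy => ?_
  rw [filter_dg m q hm X x y hy]
  unfold el
  rw [cl_eq (mem_cl.1 hy).2]

theorem sum_hh (m q : ℕ) (hm : 0 < m) [NeZero q] (X : Finset ℤ) :
    ∑ x ∈ X, hh m q X x = FF m (m * q) X := by
  rw [Finset.sum_congr rfl fun x hx' => hh_eq m q hm X x hx', avg_cl]
  rfl

theorem hh_nonneg (m q : ℕ) [NeZero q] (X : Finset ℤ) (x : ℤ) (hx' : x ∈ X) :
    0 ≤ hh m q X x := ent_nonneg _ (law_nonneg _ _) (sum_law _ (cl_nonempty hx') _)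

/-- the next digit is spread: no class modulo `m * q` carries the proportion `1 - t` -/
def Spread (m q : ℕ) (t : ℝ) (X : Finset ℤ) (x : ℤ) : Prop :=
  ∀ y ∈ cl m X x, ((cl (m * q) X y).card : ℝ) < (1 - t) * (cl m X x).card

open Classical in
/-- the number of elements at a spread node -/
noncomputable def nS (m q : ℕ) (t : ℝ) (X : Finset ℤ) : ℕ :=
  (X.filter (fun x => Spread m q t X x)).card

theorem spread_congr {m q : ℕ} {t : ℝ} {X : Finset ℤ} {x y : ℤ} (h : (m : ℤ) ∣ y - x) :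
    Spread m q t X y ↔ Spread m q t X x := by
  unfold Spread
  rw [cl_eq h]

/-- spread nodes have entropy -/
theorem FF_ge_nS (m q : ℕ) (hm : 0 < m) (t : ℝ) (ht0 : 0 < t) (ht1 : t < 1) (X : Finset ℤ) :
    t * nS m q t X ≤ FF m (m * q) X := by
  classical
  have hdvd : m ∣ m * q := Dvd.intro q rfl
  unfold nS FF
  have h1 : t * ((X.filter (fun x => Spread m q t X x)).card : ℝ) =
      ∑ x ∈ X.filter (fun x => Spread m q t X x), t := by
    rw [Finset.sum_const, nsmul_eq_mul, mul_comm]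
  rw [h1]
  refine le_trans (Finset.sum_le_sum (g := fun x => el m (m * q) X x) fun x hx => ?_)
    (Finset.sum_le_sum_of_subset_of_nonneg (Finset.filter_subset _ _)
      fun x hx _ => el_nonneg hdvd X x hx)
  rw [Finset.mem_filter] at hx
  have h2 := hx.2 x (self_mem_cl hx.1)
  unfold el
  have h3 := cl_card_pos (m := m * q) hx.1
  have h4 := cl_card_pos (m := m) hx.1
  have h5 : Real.log (cl (m * q) X x).card ≤ Real.log (1 - t) + Real.log (cl m X x).card := by
    rw [← Real.log_mul (by linarith) h4.ne']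
    exact Real.log_le_log h3 h2.le
  have h6 := Real.log_le_sub_one_of_pos (show 0 < 1 - t by linarith)
  linarith

end Pool.Agent.Helper28.LN
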