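import Pool.Agent.Helper28.LN.Val
import Pool.Agent.Helper28.LN.Chain
import Pool.Agent.Helper15.GL.Grow

set_option autoImplicit false

/-!
# Project LINES (MP_120218), Greedy: the greedy chain, and theorem L1
-/

namespace Pool.Agent.Helper28.LN

open Finset Pool.Agent.Helper15.GL

/-- a good chain of moduli starting at `m0` -/
def ChainFrom (Y : Finset ℤ) (ε t0 : ℝ) (m0 : ℕ) : Prop :=
  ∃ (J : ℕ) (m q : ℕ → ℕ), m 0 = m0 ∧ (∀ i < J, m (i + 1) = m i * q i) ∧ (∀ i < J, 0 < q i) ∧
    (∀ y ∈ Y, cl (m J) Y y = {y}) ∧ (∀ i < J, (nS (m i) (q i) t0 Y : ℝ) ≤ ε * Y.card)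

theorem chain_nil (Y : Finset ℤ) (ε t0 : ℝ) (m0 : ℕ) (h : ∀ y ∈ Y, cl m0 Y y = {y}) :
    ChainFrom Y ε t0 m0 :=
  ⟨0, fun _ => m0, fun _ => 1, rfl, fun i hi => absurd hi (Nat.not_lt_zero i),
    fun i hi => absurd hi (Nat.not_lt_zero i), h, fun i hi => absurd hi (Nat.not_lt_zero i)⟩

theorem chain_cons (Y : Finset ℤ) (ε t0 : ℝ) (m0 q0 : ℕ) (hq0 : 0 < q0)
    (h : (nS m0 q0 t0 Y : ℝ) ≤ ε * Y.card) (hc : ChainFrom Y ε t0 (m0 * q0)) :
    ChainFrom Y ε t0 m0 := by
  obtain ⟨J, m, q, h0, h1, h2, h3, h4⟩ := hc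
  refine ⟨J + 1, fun i => Nat.casesOn i m0 m, fun i => Nat.casesOn i q0 q, rfl, ?_, ?_, h3, ?_⟩
  · intro i hi
    cases i with
    | zero => exact h0
    | succ i => exact h1 i (by omega)
  · intro i hi
    cases i with
    | zero => exact hq0
    | succ i => exact h2 i (by omega)
  · intro i hi
    cases i with
    | zero => exact h
    | succ i => exact h4 i (by omega)

/-- a large level separates -/
theorem sep_of_large (Y : Finset ℤ) (m : ℕ) (h : ∀ y ∈ Y, ∀ z ∈ Y, |z - y| < m) :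
    ∀ y ∈ Y, cl m Y y = {y} := by
  intro y hy
  ext z
  rw [mem_cl, Finset.mem_singleton]
  constructor
  · rintro ⟨hz, hd⟩
    have h1 := Int.eq_zero_of_abs_lt_dvd hd (h y hy z hz)
    omega
  · rintro rfl
    exact ⟨hy, by simp⟩

theorem greedy (r : ℕ) (q : ℕ → ℕ) (hq : ∀ i < r, (q i).Prime) (Y : Finset ℤ) (ε t0 : ℝ)
    (hfree : ∀ j : ℕ → ℕ, (∀ y ∈ Y, cl (MM r q j) Y y = {y}) ∨
      ∃ i < r, (nS (MM r q j) (q i) t0 Y : ℝ) ≤ ε * Y.card) :
    ChainFrom Y ε t0 1 := by
  obtain ⟨K, hK⟩ : ∃ K : ℕ, ∀ y ∈ Y, ∀ z ∈ Y, |z - y| < ((2 ^ K : ℕ) : ℤ) := by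
    refine ⟨2 * ∑ y ∈ Y, y.natAbs, fun y hy z hz => ?_⟩
    have h1 := Finset.single_le_sum (f := fun y : ℤ => y.natAbs) (fun _ _ => Nat.zero_le _) hy
    have h2 := Finset.single_le_sum (f := fun y : ℤ => y.natAbs) (fun _ _ => Nat.zero_le _) hz
    have h3 : 2 * ∑ y ∈ Y, y.natAbs < 2 ^ (2 * ∑ y ∈ Y, y.natAbs) := Nat.lt_two_pow_self
    have h4 : |z - y| ≤ ((2 * ∑ y ∈ Y, y.natAbs : ℕ) : ℤ) := by
      rw [abs_le]
      omega
    exact lt_of_le_of_lt h4 (by exact_mod_cast h3)
  have key : ∀ n : ℕ, ∀ j : ℕ → ℕ, r * K ≤ ∑ i ∈ Finset.range r, j i + n →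
      ChainFrom Y ε t0 (MM r q j) := by
    intro n
    induction n with
    | zero =>
      intro j hj
      refine chain_nil Y ε t0 _ ?_
      rcases hfree j with h | ⟨i, hi, _⟩
      · exact h
      · have hex : ∃ l < r, K ≤ j l := by
          by_contra hcon
          push Not at hcon
          have h1 : ∑ i ∈ Finset.range r, j i < ∑ _i ∈ Finset.range r, K :=
            Finset.sum_lt_sum_of_nonempty ⟨i, Finset.mem_range.2 hi⟩
              fun l hl => hcon l (Finset.mem_range.1 hl)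
          rw [Finset.sum_const, Finset.card_range, smul_eq_mul] at h1
          omega
        obtain ⟨l, hl, hKl⟩ := hex
        refine sep_of_large Y _ fun y hy z hz => lt_of_lt_of_le (hK y hy z hz) ?_
        have h1 : 2 ^ K ≤ MM r q j := by
          calc 2 ^ K ≤ (q l) ^ K := Nat.pow_le_pow_left (hq l hl).two_le K
            _ ≤ (q l) ^ (j l) := Nat.pow_le_pow_right (hq l hl).pos hKl
            _ ≤ MM r q j := Nat.le_of_dvd (MM_pos r q j hq)
                (Finset.dvd_prod_of_mem (fun i => q i ^ j i) (Finset.mem_range.2 hl))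
        exact_mod_cast h1
    | succ n ih =>
      intro j hj
      rcases hfree j with h | ⟨i, hi, h⟩
      · exact chain_nil Y ε t0 _ h
      · refine chain_cons Y ε t0 _ (q i) (hq i hi).pos h ?_
        rw [← MM_up r q j i hi]
        refine ih _ ?_
        have h1 : ∑ l ∈ Finset.range r, up j i l = ∑ l ∈ Finset.range r, j l + 1 := by
          unfold up
          rw [← Finset.add_sum_erase _ _ (Finset.mem_range.2 hi), Function.update_self,
            ← Finset.add_sum_erase (Finset.range r) j (Finset.mem_range.2 hi)]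
          have h2 : ∑ x ∈ (Finset.range r).erase i, Function.update j i (j i + 1) x =
              ∑ x ∈ (Finset.range r).erase i, j x := by
            refine Finset.sum_congr rfl fun x hx => ?_
            rw [Finset.mem_erase] at hx
            rw [Function.update_of_ne hx.1]
          rw [h2]
          ring
        rw [h1]
        omega
  have h := key (r * K) (fun _ => 0) (by simp)
  have e : MM r q (fun _ => 0) = 1 := by
    unfold MM
    simp
  rw [e] at h
  exact h

/-- **Theorem L1, growth form.** -/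
theorem lines_grow (η : ℝ) (hη : 0 < η) (hη1 : η ≤ 1) : ∃ C : ℝ, 0 < C ∧
    ∀ (A : Finset ℤ) (r : ℕ) (g : ℕ → ℚ) (q : ℕ → ℕ), A.Nonempty →
      (∀ i < r, g i ≠ 0) → (∀ i < r, (q i).Prime) → (∀ i < r, padicValRat (q i) (g i) ≠ 0) →
      (∀ i < r, ∀ l < r, i < l → padicValRat (q i) (g i) * padicValRat (q l) (g i) ≤ 0) →
      (∀ i < r, ∀ l < r, i ≠ l → q i ≠ q l) →
      C * Real.log A.card ≤ ∑ i ∈ Finset.range r,
        (if C * (bad (g i) A).card ≤ A.card then (A.card : ℝ) / (bad (g i) A).card else 0) →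
      Grows η A := by
  classical
  obtain ⟨t0, ht0, ht1, hN⟩ := nodeT (η / 2) (by positivity)
  obtain ⟨ε1, hε1⟩ : ∃ ε1 : ℝ, ε1 = η / 2 := ⟨_, rfl⟩
  have hε10 : 0 < ε1 := by rw [hε1]; positivity
  obtain ⟨δ, hδ⟩ : ∃ δ : ℝ, δ = ε1 * t0 := ⟨_, rfl⟩
  have hδ0 : 0 < δ := by rw [hδ]; positivity
  have hδ1 : δ ≤ 1 := by
    rw [hδ]
    have : ε1 ≤ 1 := by rw [hε1]; linarith
    nlinarith
  refine ⟨209 / δ ^ 2, by positivity, ?_⟩
  intro A r g q hA hg hq hv hv0 hinj hsum
  obtain ⟨C, hC⟩ : ∃ C : ℝ, C = 209 / δ ^ 2 := ⟨_, rfl⟩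
  rw [← hC] at hsum
  have hAc : (0 : ℝ) < A.card := by exact_mod_cast hA.card_pos
  have hC1 : 52 / δ ≤ C := by
    rw [hC, div_le_div_iff₀ hδ0 (by positivity)]
    nlinarith
  -- the exponents
  obtain ⟨u, hu⟩ : ∃ u : ℕ → ℕ, u = fun i => ⌊δ * (A.card / (bad (g i) A).card) / 26⌋₊ :=
    ⟨_, rfl⟩
  have hu1 : ∀ i < r, 26 * (u i * ((bad (g i) A).card : ℝ)) ≤ ε1 * t0 * A.card := by
    intro i _
    rw [← hδ]
    have h1 : (u i : ℝ) ≤ δ * (A.card / (bad (g i) A).card) / 26 := by
      rw [hu]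
      exact Nat.floor_le (by positivity)
    rcases Nat.eq_zero_or_pos (bad (g i) A).card with h0 | h0
    · rw [h0]
      simp only [Nat.cast_zero, mul_zero]
      positivity
    · have h2 : (0 : ℝ) < (bad (g i) A).card := by exact_mod_cast h0
      have h3 := mul_le_mul_of_nonneg_right h1 h2.le
      have h4 : δ * ((A.card : ℝ) / (bad (g i) A).card) / 26 * (bad (g i) A).card =
          δ * A.card / 26 := by
        field_simp
      rw [h4] at h3
      linarith
  have hchain : ChainFrom A ε1 t0 1 := by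
    refine greedy r q hq A ε1 t0 fun j => ?_
    by_contra hcon
    push Not at hcon
    obtain ⟨⟨y, hy, hsep⟩, hst⟩ := hcon
    have h1 := stuck_bound r q hq hinj A hA j g hg hv hv0 t0 ε1 ht0 (by linarith) hε10 hst u hu1
    have hcard : 1 < A.card := by
      by_contra h
      have h2 : A.card = 1 := by
        have := hA.card_pos
        omega
      obtain ⟨z, hz⟩ := Finset.card_eq_one.1 h2
      refine hsep ?_
      rw [hz] at hy ⊢
      rw [Finset.mem_singleton] at hy
      subst hy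
      ext w
      rw [mem_cl, Finset.mem_singleton]
      constructor
      · exact fun h => h.1
      · rintro rfl
        exact ⟨rfl, by simp⟩
    have hlog : 0 < Real.log A.card := Real.log_pos (by exact_mod_cast hcard)
    have h2 : ∀ i ∈ Finset.range r, (δ / 52) *
        (if C * (bad (g i) A).card ≤ A.card then (A.card : ℝ) / (bad (g i) A).card else 0) ≤
        u i := by
      intro i _
      split_ifs with h
      · rcases Nat.eq_zero_or_pos (bad (g i) A).card with h0 | h0
        · rw [h0]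
          simp
        · have h2 : (0 : ℝ) < (bad (g i) A).card := by exact_mod_cast h0
          have h3 : C ≤ (A.card : ℝ) / (bad (g i) A).card := by
            rw [le_div_iff₀ h2]
            exact h
          have h4 : δ * (A.card / (bad (g i) A).card) / 26 - 1 < (u i : ℝ) := by
            rw [hu]
            exact Nat.sub_one_lt_floor _
          have h5 : 1 ≤ δ / 52 * ((A.card : ℝ) / (bad (g i) A).card) := by
            have h6 := mul_le_mul_of_nonneg_left (hC1.trans h3)
              (show (0 : ℝ) ≤ δ / 52 by positivity)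
            have h7 : δ / 52 * (52 / δ) = 1 := by field_simp
            linarith
          linarith
      · rw [mul_zero]
        exact Nat.cast_nonneg _
    have h3 := Finset.sum_le_sum h2
    rw [← Finset.mul_sum] at h3
    have h4 := mul_le_mul_of_nonneg_left (mul_le_mul_of_nonneg_left hsum
      (show (0 : ℝ) ≤ δ / 52 by positivity)) (show (0 : ℝ) ≤ δ / 4 by positivity)
    have h5 := mul_le_mul_of_nonneg_left h3 (show (0 : ℝ) ≤ δ / 4 by positivity)
    have h6 : t0 * ε1 / 4 = δ / 4 := by rw [hδ]; ring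
    rw [h6] at h1
    have h7 : δ / 4 * (δ / 52 * (C * Real.log A.card)) = 209 / 208 * Real.log A.card := by
      rw [hC]
      field_simp
      ring
    rw [h7] at h4
    linarith
  obtain ⟨J, m, p, h0, h1, h2, h3, h4⟩ := hchain
  intro X hX
  have h := chain_grows (η := η / 2) (t0 := t0) (by positivity)
    (fun G _ _ f g hf hg hf1 hg1 b0 hb => hN G f g hf hg hf1 hg1 b0 hb)
    ε1 hε10.le A hA m p J h0 h1 h2 h3 h4 X hX
  have e : 1 - η / 2 - ε1 = 1 - η := by rw [hε1]; ring
  rw [e] at h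
  exact h

/-- **Theorem L1.** -/
theorem lines (k : ℕ) (ε b : ℝ) (hε : 0 < ε) : ∃ C : ℝ, 0 < C ∧
    ∀ (A X : Finset ℤ) (r : ℕ) (g : Fin r → ℚ) (q : Fin r → ℕ), A.Nonempty → X.Nonempty →
      (X.card : ℝ) ≤ (A.card : ℝ) ^ b → (∀ i, g i ≠ 0) → (∀ i, (q i).Prime) →
      (∀ i, padicValRat (q i) (g i) ≠ 0) →
      (∀ i l, i < l → padicValRat (q i) (g i) * padicValRat (q l) (g i) ≤ 0) →
      Function.Injective q →
      C * Real.log A.card ≤ ∑ i,
        (if C * (bad (g i) A).card ≤ A.card then (A.card : ℝ) / (bad (g i) A).card else 0) →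
      (X.card : ℝ) * (A.card : ℝ) ^ ((k : ℝ) - ε) ≤ (sk k X A).card := by
  classical
  obtain ⟨η, hη, hη1, h⟩ := sk_large k ε b hε
  obtain ⟨C, hC, hL⟩ := lines_grow η hη hη1
  refine ⟨C, hC, ?_⟩
  intro A X r g q hA hX hXb hg hq hv hv0 hinj hsum
  refine h A X hA hX hXb (hL A r (fun i => if hi : i < r then g ⟨i, hi⟩ else 0)
    (fun i => if hi : i < r then q ⟨i, hi⟩ else 0) hA ?_ ?_ ?_ ?_ ?_ ?_)
  · intro i hi
    simp only [hi, dif_pos]
    exact hg _
  · intro i hi
    simp only [hi, dif_pos]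
    exact hq _
  · intro i hi
    simp only [hi, dif_pos]
    exact hv _
  · intro i hi l hl hil
    simp only [hi, hl, dif_pos]
    exact hv0 _ _ hil
  · intro i hi l hl hil
    simp only [hi, hl, dif_pos]
    intro h2
    have := hinj h2
    rw [Fin.mk.injEq] at this
    exact hil this
  · refine hsum.trans (le_of_eq ?_)
    rw [← Fin.sum_univ_eq_sum_range (fun i => (if C * (bad (if hi : i < r then g ⟨i, hi⟩ else 0)
      A).card ≤ A.card then (A.card : ℝ) / (bad (if hi : i < r then g ⟨i, hi⟩ else 0) A).card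
      else 0))]
    refine Finset.sum_congr rfl fun i _ => ?_
    simp only [Fin.is_lt, dif_pos, Fin.eta]

end Pool.Agent.Helper28.LN
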