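import Pool.Agent.Helper28.LN.Heavy

set_option autoImplicit false

/-!
# Project LINES (MP_120218), StuckH: states at which all primes are heavy need many digits
-/

namespace Pool.Agent.Helper28.LN

open Finset

/-- A stuck digit gives entropy at a much lower level (positive valuation). -/
theorem stuckH_pos (r : ℕ) (q : ℕ → ℕ) (hq : ∀ i < r, (q i).Prime)
    (hinj : ∀ i < r, ∀ l < r, i ≠ l → q i ≠ q l) (A : Finset ℤ) (hA : A.Nonempty)
    (j : ℕ → ℕ) (i : ℕ) (hi : i < r) (g : ℚ) (hg : g ≠ 0) (hv : 0 < padicValRat (q i) g)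
    (hv0 : ∀ l < r, i < l → padicValRat (q l) g ≤ 0) (K : ℕ) (hK : 1 ≤ K)
    (t0 ε1 : ℝ) (ht0 : 0 < t0) (ht1 : t0 ≤ 1) (hε1 : 0 < ε1)
    (hst : ε1 * A.card < nH (MM r q j) (q i) K t0 A) (u : ℕ)
    (hu : 26 * (u * ((bad g A).card : ℝ)) ≤ ε1 * t0 * A.card) :
    u * (padicValRat (q i) g).toNat ≤ j i ∧
      t0 * ε1 / 4 * Real.log K * A.card ≤
        FF (MM r q (stt j i (j i - u * (padicValRat (q i) g).toNat)))
        (MM r q (stt j i (j i - u * (padicValRat (q i) g).toNat)) * q i) A := by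
  have := Fact.mk (hq i hi)
  have : NeZero (q i) := ⟨(hq i hi).ne_zero⟩
  have hG : g ^ u ≠ 0 := pow_ne_zero _ hg
  have hAc : (0 : ℝ) < A.card := by exact_mod_cast hA.card_pos
  have hKr : (1 : ℝ) ≤ K := by exact_mod_cast hK
  have hlogK : 0 ≤ Real.log K := Real.log_nonneg hKr
  have hbad : ((bad (g ^ u) A).card : ℝ) ≤ u * (bad g A).card := by
    exact_mod_cast card_bad_pow g hg A u
  have hvG : ∀ l < r, padicValRat (q l) (g ^ u) = u * padicValRat (q l) g := by
    intro l hl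
    have := Fact.mk (hq l hl)
    rw [padicValRat.pow]
  obtain ⟨a, ha⟩ : ∃ a : ℕ, a = (padicValRat (q i) g).toNat := ⟨_, rfl⟩
  have hav : padicValRat (q i) g = a := by rw [ha]; omega
  have hGi : padicValRat (q i) (g ^ u) = ((u * a : ℕ) : ℤ) := by
    rw [hvG i hi, hav]
    push_cast
    ring
  rw [← ha]
  have hm := matched_shj r q hq hinj (g ^ u) hG j
  by_cases hlow : j i < u * a
  · exfalso
    have h1 := nS_low hG hm (matched_low r q hq hinj (g ^ u) hG j i hi (by
      rw [hGi]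
      exact_mod_cast hlow)) A t0 ht0 ht1
    have h0 : (nH (MM r q j) (q i) K t0 A : ℝ) ≤ nS (MM r q j) (q i) t0 A := by
      exact_mod_cast nH_le_nS _ _ K (MM_pos r q j hq) hK t0 A
    have h2 := mul_lt_mul_of_pos_left (hst.trans_le h0) ht0
    have h3 : 0 < t0 * (ε1 * A.card) := mul_pos ht0 (mul_pos hε1 hAc)
    linarith
  · push Not at hlow
    refine ⟨hlow, ?_⟩
    have h1 := nH_high hG (MM_pos r q j hq) (MM_pos r q _ hq) hm
      (matched_high r q hq hinj (g ^ u) hG j i hi (by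
      rw [hGi]
      exact_mod_cast hlow)) A K t0 ht0 ht1
    have h2 := mul_lt_mul_of_pos_left hst ht0
    have h3 : t0 * (ε1 * A.card) / 2 ≤
        t0 * nH (MM r q (shj q (g ^ u) j)) (q i) K (t0 / 2) A := by
      linarith
    have h4 := FF_ge_nH (MM r q (shj q (g ^ u) j)) (q i) K (MM_pos r q _ hq) hK (t0 / 2) A
    have h5 := submod_MM r q hq hinj (stt j i (j i - u * a)) (shj q (g ^ u) j) (by
      intro l hl
      unfold stt shj
      by_cases h1 : l < i
      · rw [if_pos h1]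
        exact Nat.zero_le _
      · rw [if_neg h1]
        by_cases h2 : l = i
        · rw [if_pos h2]
          subst h2
          rw [hGi]
          omega
        · rw [if_neg h2, hvG l hl]
          have h3 := hv0 l hl (by omega)
          have h4 : (u : ℤ) * padicValRat (q l) g ≤ 0 :=
            mul_nonpos_of_nonneg_of_nonpos (Int.natCast_nonneg u) h3
          omega) i hi (by
        unfold stt shj
        rw [if_neg (lt_irrefl i), if_pos rfl, hGi]
        omega) A
    have h6 := mul_le_mul_of_nonneg_right h3 hlogK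
    have e1 : t0 * (ε1 * A.card) / 2 * Real.log K = 2 * (t0 * ε1 / 4 * Real.log K * A.card) := by
      ring
    have e2 : t0 * (nH (MM r q (shj q (g ^ u) j)) (q i) K (t0 / 2) A : ℝ) * Real.log K =
        2 * (t0 / 2 * Real.log K * nH (MM r q (shj q (g ^ u) j)) (q i) K (t0 / 2) A) := by
      ring
    rw [e1, e2] at h6
    linarith

/-- raising one coordinate of a stuck state from `0` -/
theorem stuckH_line (r : ℕ) (q : ℕ → ℕ) (hq : ∀ i < r, (q i).Prime)
    (hinj : ∀ i < r, ∀ l < r, i ≠ l → q i ≠ q l) (A : Finset ℤ) (hA : A.Nonempty)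
    (j : ℕ → ℕ) (i : ℕ) (hi : i < r) (g : ℚ) (hg : g ≠ 0) (hv : 0 < padicValRat (q i) g)
    (hv0 : ∀ l < r, i < l → padicValRat (q l) g ≤ 0) (K : ℕ) (hK : 1 ≤ K)
    (t0 ε1 : ℝ) (ht0 : 0 < t0) (ht1 : t0 ≤ 1) (hε1 : 0 < ε1)
    (hst : ε1 * A.card < nH (MM r q j) (q i) K t0 A) (u : ℕ)
    (hu : 26 * (u * ((bad g A).card : ℝ)) ≤ ε1 * t0 * A.card) :
    u * (t0 * ε1 / 4 * Real.log K * A.card) ≤
      FF (MM r q (stt j i 0)) (MM r q (stt j i (j i))) A := by
  classical
  obtain ⟨a, ha⟩ : ∃ a : ℕ, a = (padicValRat (q i) g).toNat := ⟨_, rfl⟩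
  have ha0 : 0 < a := by
    rw [ha]
    omega
  have hone : ∀ v ∈ Finset.Icc 1 u, v * a ≤ j i ∧
      t0 * ε1 / 4 * Real.log K * A.card ≤ FF (MM r q (stt j i (j i - v * a)))
        (MM r q (stt j i (j i - v * a)) * q i) A := by
    intro v hv1
    rw [Finset.mem_Icc] at hv1
    rw [ha]
    refine stuckH_pos r q hq hinj A hA j i hi g hg hv hv0 K hK t0 ε1 ht0 ht1 hε1 hst v ?_
    have h1 : (v : ℝ) ≤ u := by exact_mod_cast hv1.2
    have h2 : (v : ℝ) * (bad g A).card ≤ u * (bad g A).card :=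
      mul_le_mul_of_nonneg_right h1 (Nat.cast_nonneg _)
    linarith
  rw [FF_stt r q A j i hi]
  have hinj2 : Set.InjOn (fun v : ℕ => j i - v * a) (Finset.Icc 1 u : Finset ℕ) := by
    intro v hv1 w hw1 h
    have h1 := (hone v hv1).1
    have h2 := (hone w hw1).1
    simp only at h
    have h3 : v * a = w * a := by omega
    exact Nat.eq_of_mul_eq_mul_right ha0 h3
  have hsub : (Finset.Icc 1 u).image (fun v : ℕ => j i - v * a) ⊆ Finset.range (j i) := by
    intro h hh
    rw [Finset.mem_image] at hh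
    obtain ⟨v, hv1, rfl⟩ := hh
    have h1 := (hone v hv1).1
    rw [Finset.mem_Icc] at hv1
    rw [Finset.mem_range]
    have h2 : 1 * 1 ≤ v * a := Nat.mul_le_mul hv1.1 ha0
    omega
  refine le_trans ?_ (Finset.sum_le_sum_of_subset_of_nonneg hsub fun h _ _ =>
    FF_nonneg (Dvd.intro _ rfl) A)
  rw [Finset.sum_image hinj2]
  have h1 : (u : ℝ) * (t0 * ε1 / 4 * Real.log K * A.card) =
      ∑ _v ∈ Finset.Icc 1 u, (t0 * ε1 / 4 * Real.log K * A.card) := by
    rw [Finset.sum_const, nsmul_eq_mul, Nat.card_Icc]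
    congr 1
  rw [h1]
  exact Finset.sum_le_sum fun v hv1 => (hone v hv1).2

/-- **Stuck states need many digits.** -/
theorem stuckH_bound (r : ℕ) (q : ℕ → ℕ) (hq : ∀ i < r, (q i).Prime)
    (hinj : ∀ i < r, ∀ l < r, i ≠ l → q i ≠ q l) (A : Finset ℤ) (hA : A.Nonempty)
    (j : ℕ → ℕ) (g : ℕ → ℚ) (hg : ∀ i < r, g i ≠ 0)
    (hv : ∀ i < r, 0 < padicValRat (q i) (g i))
    (hv0 : ∀ i < r, ∀ l < r, i < l → padicValRat (q l) (g i) ≤ 0) (K : ℕ) (hK : 1 ≤ K)
    (t0 ε1 : ℝ) (ht0 : 0 < t0) (ht1 : t0 ≤ 1) (hε1 : 0 < ε1)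
    (hst : ∀ i < r, ε1 * A.card < nH (MM r q j) (q i) K t0 A) (u : ℕ → ℕ)
    (hu : ∀ i < r, 26 * (u i * ((bad (g i) A).card : ℝ)) ≤ ε1 * t0 * A.card) :
    (t0 * ε1 / 4 * Real.log K) * ∑ i ∈ Finset.range r, (u i : ℝ) ≤ Real.log A.card := by
  have hAc : (0 : ℝ) < A.card := by exact_mod_cast hA.card_pos
  obtain ⟨T, hT⟩ : ∃ T : ℕ → ℕ → ℕ, T = fun i l => if l < i then 0 else j l := ⟨_, rfl⟩
  have hstep : ∀ i < r, u i * (t0 * ε1 / 4 * Real.log K * A.card) ≤
      FF (MM r q (T (i + 1))) (MM r q (T i)) A := by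
    intro i hi
    have h := stuckH_line r q hq hinj A hA j i hi (g i) (hg i hi) (hv i hi) (hv0 i hi) K hK
      t0 ε1 ht0 ht1 hε1 (hst i hi) (u i) (hu i hi)
    have e1 : MM r q (stt j i 0) = MM r q (T (i + 1)) := by
      refine MM_congr r q _ _ fun l _ => ?_
      rw [hT]
      unfold stt
      simp only
      by_cases h1 : l < i
      · rw [if_pos h1, if_pos (by omega)]
      · by_cases h2 : l = i
        · rw [if_neg h1, if_pos h2, if_pos (by omega)]
        · rw [if_neg h1, if_neg h2, if_neg (by omega)]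
    have e2 : MM r q (stt j i (j i)) = MM r q (T i) := by
      refine MM_congr r q _ _ fun l _ => ?_
      rw [hT]
      unfold stt
      simp only
      by_cases h1 : l < i
      · rw [if_pos h1, if_pos h1]
      · by_cases h2 : l = i
        · rw [if_neg h1, if_pos h2, if_neg h1, h2]
        · rw [if_neg h1, if_neg h2, if_neg h1]
    rw [e1, e2] at h
    exact h
  have hind : ∀ n ≤ r, (∑ i ∈ Finset.range n, (u i : ℝ)) *
      (t0 * ε1 / 4 * Real.log K * A.card) ≤ FF (MM r q (T n)) (MM r q (T 0)) A := by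
    intro n
    induction n with
    | zero =>
      intro _
      unfold FF el
      simp
    | succ n ih =>
      intro hn
      have h1 := ih (by omega)
      have h2 := hstep n (by omega)
      rw [Finset.sum_range_succ, add_mul, ← FF_add (MM r q (T (n + 1))) (MM r q (T n))
        (MM r q (T 0)) A]
      linarith
  have h1 := hind r le_rfl
  have e1 : MM r q (T r) = 1 := by
    unfold MM
    refine Finset.prod_eq_one fun l hl => ?_
    rw [hT]
    simp only
    rw [if_pos (Finset.mem_range.1 hl), pow_zero]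
  rw [e1] at h1
  have h2 := h1.trans (FF_one_le (MM r q (T 0)) A)
  refine le_of_mul_le_mul_left ?_ hAc
  linarith

end Pool.Agent.Helper28.LN
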