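import Pool.Agent.Helper28.LN.Joint
import Pool.Agent.Helper28.LN.StuckH
import Pool.Agent.Helper28.LN.Greedy

set_option autoImplicit false

/-!
# Project LINES (MP_120218), Dil: the chain for the sums `x + u y`, `u` in a set of dilations
-/

namespace Pool.Agent.Helper28.LN

open Finset Pool.Agent.Helper15.GL

/-- a law all of whose atoms are smaller than `1 - t` has entropy at least `t` -/
theorem ent_ge {α : Type} [Fintype α] (g : α → ℝ) (hg : ∀ a, 0 ≤ g a) (hg1 : ∑ a, g a = 1)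
    (t : ℝ) (h : ∀ a, g a < 1 - t) : t ≤ ent g := by
  have e : t = ∑ a, g a * t := by rw [← Finset.sum_mul, hg1, one_mul]
  rw [e]
  unfold ent Real.negMulLog
  refine Finset.sum_le_sum fun a _ => ?_
  rcases eq_or_lt_of_le (hg a) with ha | ha
  · rw [← ha]
    simp
  · have h1 := Real.log_le_sub_one_of_pos ha
    have h2 := h a
    have h3 : g a * t ≤ g a * (-Real.log (g a)) := mul_le_mul_of_nonneg_left (by linarith) ha.le
    linarith

/-- **Nodes carried by few digits, on average over the dilations.** -/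
theorem node_avg (κ : ℝ) (hκ : 0 < κ) (hκ1 : κ ≤ 1) : ∃ θ L0 : ℝ, 0 < θ ∧ θ ≤ 1 ∧ 0 < L0 ∧
    ∀ (q : ℕ) [Fact q.Prime] (f g : ZMod q → ℝ), (∀ a, 0 ≤ f a) → (∀ a, 0 ≤ g a) →
      ∑ a, f a = 1 → ∑ a, g a = 1 → ∀ U : Finset (ZMod q), (0 : ZMod q) ∉ U → 2 ≤ U.card →
      ∀ K : ℕ, 1 ≤ K → Real.log K + L0 ≤ κ / 4 * Real.log U.card →
      ∀ T : Finset (ZMod q), T.card ≤ K → 1 - θ ≤ ∑ b ∈ T, g b →
      ∑ u ∈ U, (ent f + ent g - ent (conv f (du u g))) ≤ U.card * (κ * (ent f + ent g)) := by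
  obtain ⟨t0, ht0, ht1, hN⟩ := nodeT κ hκ
  obtain ⟨l, hl⟩ : ∃ l : ℝ, l = κ * t0 / 16 := ⟨_, rfl⟩
  have hl0 : 0 < l := by rw [hl]; positivity
  have hl32 : l ≤ 1 / 32 := by
    rw [hl]
    have : κ * t0 ≤ 1 * (1 / 2) := mul_le_mul hκ1 ht1 ht0.le (by norm_num)
    linarith
  obtain ⟨L0, hL0⟩ : ∃ L0 : ℝ, L0 = -Real.log l := ⟨_, rfl⟩
  have hL0p : 0 < L0 := by
    rw [hL0]
    have := Real.log_neg hl0 (by linarith)
    linarith
  refine ⟨min (κ / 4) (κ * t0 / (4 * L0)), L0, ?_, ?_, hL0p, ?_⟩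
  · exact lt_min (by positivity) (by positivity)
  · exact (min_le_left _ _).trans (by linarith)
  intro q _ f g hf hg hf1 hg1 U hU hU2 K hK hKU T hT hθ
  obtain ⟨θ, hθd⟩ : ∃ θ : ℝ, θ = min (κ / 4) (κ * t0 / (4 * L0)) := ⟨_, rfl⟩
  rw [← hθd] at hθ
  have hθ0 : 0 ≤ θ := by
    rw [hθd]
    exact (lt_min (by positivity) (by positivity)).le
  have hθ4 : θ ≤ κ / 4 := by rw [hθd]; exact min_le_left _ _
  have hθL : θ * L0 ≤ κ * t0 / 4 := by
    have : θ ≤ κ * t0 / (4 * L0) := by rw [hθd]; exact min_le_right _ _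
    have h1 := mul_le_mul_of_nonneg_right this hL0p.le
    have h2 : κ * t0 / (4 * L0) * L0 = κ * t0 / 4 := by field_simp
    linarith
  have hhf := ent_nonneg f hf hf1
  have hhg := ent_nonneg g hg hg1
  have hUc : (0 : ℝ) < U.card := by
    have : 0 < U.card := by omega
    exact_mod_cast this
  have hu0 : ∀ u ∈ U, u ≠ 0 := fun u hu h => hU (h ▸ hu)
  by_cases hat : ∃ b0, 1 - t0 ≤ g b0
  · obtain ⟨b0, hb0⟩ := hat
    have h1 : ∀ u ∈ U, ent f + ent g - ent (conv f (du u g)) ≤ κ * (ent f + ent g) := by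
      intro u hu
      have h2 := hN (ZMod q) f (du u g) hf (du_nonneg u g hg) hf1
        (by rw [sum_du_one u (hu0 u hu), hg1]) (u * b0) (by
          unfold du
          rw [inv_mul_cancel_left₀ (hu0 u hu)]
          exact hb0)
      rw [ent_du u (hu0 u hu)] at h2
      exact h2
    refine (Finset.sum_le_sum h1).trans ?_
    rw [Finset.sum_const, nsmul_eq_mul]
  · push Not at hat
    have hge := ent_ge g hg hg1 t0 hat
    have h1 := mid f g hf hg hf1 hg1 U hU hU2 T K hK hT θ l hl0 (by linarith) hθ0 hθ (κ / 4) (by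
      rw [hL0] at hKU
      linarith)
    refine h1.trans (mul_le_mul_of_nonneg_left ?_ hUc.le)
    have h2 : -Real.log (1 - 2 * l) ≤ κ * t0 / 4 := by
      have h3 := Real.one_sub_inv_le_log_of_pos (show (0 : ℝ) < 1 - 2 * l by linarith)
      have h4 : (1 - 2 * l)⁻¹ ≤ 1 + 4 * l := by
        rw [inv_le_comm₀ (by linarith) (by linarith)]
        rw [inv_le_comm₀ (by linarith) (by linarith)]
        rw [inv_eq_one_div, div_le_iff₀ (by linarith)]
        nlinarith
      have h5 : κ * t0 / 4 = 4 * l := by rw [hl]; ring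
      linarith
    rw [← hL0]
    have h3 : θ * ent f ≤ κ / 4 * ent f := mul_le_mul_of_nonneg_right hθ4 hhf
    have h4 : κ * t0 ≤ κ * ent g := mul_le_mul_of_nonneg_left hge hκ.le
    have h5 := mul_nonneg hκ.le hhf
    have h6 := mul_nonneg hκ.le hhg
    linarith

/-- the mass of a set of digits -/
theorem sum_law_subset {q : ℕ} (C : Finset ℤ) (δ : ℤ → ZMod q) (T : Finset (ZMod q)) :
    ∑ b ∈ T, law C δ b = ((C.filter (fun z => δ z ∈ T)).card : ℝ) / C.card := by
  classical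
  unfold law
  rw [← Finset.sum_div]
  congr 1
  have h := Finset.card_eq_sum_card_fiberwise (f := δ) (s := C.filter (fun z => δ z ∈ T)) (t := T)
    (by
      intro z hz
      exact (Finset.mem_filter.1 hz).2)
  rw [h]
  push_cast
  refine Finset.sum_congr rfl fun b hb => ?_
  congr 2
  ext z
  rw [Finset.mem_filter, Finset.mem_filter, Finset.mem_filter]
  constructor
  · rintro ⟨h1, h2⟩
    exact ⟨⟨h1, by rw [h2]; exact hb⟩, h2⟩
  · rintro ⟨⟨h1, _⟩, h2⟩
    exact ⟨h1, h2⟩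

/-- one step of the chain for the dilations -/
theorem dil_step {κ θ L0 : ℝ} (hκ : 0 < κ)
    (hN : ∀ (q : ℕ) [Fact q.Prime] (f g : ZMod q → ℝ), (∀ a, 0 ≤ f a) → (∀ a, 0 ≤ g a) →
      ∑ a, f a = 1 → ∑ a, g a = 1 → ∀ U : Finset (ZMod q), (0 : ZMod q) ∉ U → 2 ≤ U.card →
      ∀ K : ℕ, 1 ≤ K → Real.log K + L0 ≤ κ / 4 * Real.log U.card →
      ∀ T : Finset (ZMod q), T.card ≤ K → 1 - θ ≤ ∑ b ∈ T, g b →
      ∑ u ∈ U, (ent f + ent g - ent (conv f (du u g))) ≤ U.card * (κ * (ent f + ent g)))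
    (m q : ℕ) (hm : 0 < m) [hq : Fact q.Prime] (X Y : Finset ℤ) (U : Finset ℕ)
    (hU2 : 2 ≤ U.card) (hU0 : ∀ u ∈ U, (u : ZMod q) ≠ 0)
    (hUi : Set.InjOn (fun u : ℕ => (u : ZMod q)) (U : Set ℕ)) (K : ℕ) (hK : 1 ≤ K)
    (hKU : Real.log K + L0 ≤ κ / 4 * Real.log U.card) (ε : ℝ)
    (hε : (nH m q K θ Y : ℝ) ≤ ε * Y.card) :
    ∑ u ∈ U, ∑ s ∈ X ×ˢ Y, (Real.log (nc (X ×ˢ Y) (rs m u) s) -
      Real.log (nc (X ×ˢ Y) (rs (m * q) u) s)) ≤
    U.card * (κ * (Y.card * FF m (m * q) X + X.card * FF m (m * q) Y) +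
      ε * (Y.card * FF m (m * q) X)) := by
  classical
  have hdvd : m ∣ m * q := Dvd.intro q rfl
  have h1 : ∀ u ∈ U, ∑ s ∈ X ×ˢ Y, (Real.log (nc (X ×ˢ Y) (rs m u) s) -
      Real.log (nc (X ×ˢ Y) (rs (m * q) u) s)) ≤
      ∑ x ∈ X, ∑ y ∈ Y, ls (q := q) m ((u : ℤ) : ZMod q) X Y x y := by
    intro u hu
    have e := joint_step m q (u : ℤ) X Y
    rw [sum_ls m hm (u : ℤ) (by rw [Int.cast_natCast]; exact hU0 u hu) X Y] at e
    exact e
  refine (Finset.sum_le_sum h1).trans ?_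
  rw [Finset.sum_comm]
  have hUc : (0 : ℝ) < U.card := by
    have : 0 < U.card := by omega
    exact_mod_cast this
  have hV : ∀ F : ZMod q → ℝ, ∑ u ∈ U, F ((u : ℤ) : ZMod q) =
      ∑ v ∈ U.image (fun u : ℕ => (u : ZMod q)), F v := by
    intro F
    rw [Finset.sum_image hUi]
    refine Finset.sum_congr rfl fun u _ => ?_
    rw [Int.cast_natCast]
  have hVc : (U.image (fun u : ℕ => (u : ZMod q))).card = U.card :=
    Finset.card_image_of_injOn hUi
  have hV0 : (0 : ZMod q) ∉ U.image (fun u : ℕ => (u : ZMod q)) := by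
    intro h
    rw [Finset.mem_image] at h
    obtain ⟨u, hu, h2⟩ := h
    exact hU0 u hu h2
  have hpt : ∀ x ∈ X, ∀ y ∈ Y, ∑ u ∈ U, ls (q := q) m ((u : ℤ) : ZMod q) X Y x y ≤
      U.card * (κ * (hh m q X x + hh m q Y y) + (if Hv m q K θ Y y then hh m q X x else 0)) := by
    intro x hx y hy
    have hx0 := hh_nonneg m q X x hx
    have hy0 := hh_nonneg m q Y y hy
    have hf := law_nonneg (cl m X x) (dg m q)
    have hg := law_nonneg (cl m Y y) (dg m q)
    have hf1 := sum_law (cl m X x) (cl_nonempty hx) (dg m q)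
    have hg1 := sum_law (cl m Y y) (cl_nonempty hy) (dg m q)
    by_cases h : Hv m q K θ Y y
    · rw [if_pos h]
      have h2 : ∀ u ∈ U, ls (q := q) m ((u : ℤ) : ZMod q) X Y x y ≤ hh m q X x := by
        intro u hu
        have hu' : ((u : ℤ) : ZMod q) ≠ 0 := by rw [Int.cast_natCast]; exact hU0 u hu
        have h3 := loss_le (du ((u : ℤ) : ZMod q) (law (cl m Y y) (dg m q)))
          (law (cl m X x) (dg m q)) (du_nonneg _ _ hg) hf
          (by rw [sum_du_one _ hu', hg1]) hf1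
        rw [conv_comm, ent_du _ hu'] at h3
        unfold ls
        have h4 : ent (law (cl m X x) (dg m q)) = hh m q X x := rfl
        rw [h4] at h3 ⊢
        linarith
      refine (Finset.sum_le_sum h2).trans ?_
      rw [Finset.sum_const, nsmul_eq_mul]
      refine mul_le_mul_of_nonneg_left ?_ hUc.le
      have := mul_nonneg hκ.le (add_nonneg hx0 hy0)
      linarith
    · rw [if_neg h, add_zero]
      unfold Hv at h
      push Not at h
      obtain ⟨T, hT, hTc⟩ := h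
      have h2 := hN q (law (cl m X x) (dg m q)) (law (cl m Y y) (dg m q)) hf hg hf1 hg1
        (U.image (fun u : ℕ => (u : ZMod q))) hV0 (by rw [hVc]; exact hU2) K hK
        (by rw [hVc]; exact hKU) T hT (by
          rw [sum_law_subset, le_div_iff₀ (cl_card_pos hy)]
          exact hTc)
      rw [hVc, ← hV (fun v => ent (law (cl m X x) (dg m q)) + ent (law (cl m Y y) (dg m q)) -
        ent (conv (law (cl m X x) (dg m q)) (du v (law (cl m Y y) (dg m q)))))] at h2
      exact h2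
  have h2 : ∀ x ∈ X, ∑ u ∈ U, ∑ y ∈ Y, ls (q := q) m ((u : ℤ) : ZMod q) X Y x y ≤
      ∑ y ∈ Y, U.card * (κ * (hh m q X x + hh m q Y y) +
        (if Hv m q K θ Y y then hh m q X x else 0)) := by
    intro x hx
    rw [Finset.sum_comm]
    exact Finset.sum_le_sum fun y hy => hpt x hx y hy
  refine (Finset.sum_le_sum h2).trans ?_
  have e1 : ∀ x ∈ X, ∑ y ∈ Y, U.card * (κ * (hh m q X x + hh m q Y y) +
        (if Hv m q K θ Y y then hh m q X x else 0)) =
      U.card * (κ * (Y.card * hh m q X x + FF m (m * q) Y) + nH m q K θ Y * hh m q X x) := by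
    intro x _
    rw [← Finset.mul_sum, Finset.sum_add_distrib, ← Finset.mul_sum, Finset.sum_add_distrib,
      sum_hh m q hm, Finset.sum_const, nsmul_eq_mul, ← Finset.sum_filter, Finset.sum_const,
      nsmul_eq_mul]
    unfold nH
    rfl
  rw [Finset.sum_congr rfl e1, ← Finset.mul_sum, Finset.sum_add_distrib, ← Finset.mul_sum,
    Finset.sum_add_distrib, ← Finset.mul_sum, ← Finset.mul_sum, sum_hh m q hm,
    Finset.sum_const, nsmul_eq_mul]
  refine mul_le_mul_of_nonneg_left ?_ hUc.le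
  have h3 := mul_le_mul_of_nonneg_right hε (FF_nonneg hdvd X)
  linarith

/-- **The chain for the dilations.** -/
theorem dil_chain {κ θ L0 : ℝ} (hκ : 0 < κ)
    (hN : ∀ (q : ℕ) [Fact q.Prime] (f g : ZMod q → ℝ), (∀ a, 0 ≤ f a) → (∀ a, 0 ≤ g a) →
      ∑ a, f a = 1 → ∑ a, g a = 1 → ∀ U : Finset (ZMod q), (0 : ZMod q) ∉ U → 2 ≤ U.card →
      ∀ K : ℕ, 1 ≤ K → Real.log K + L0 ≤ κ / 4 * Real.log U.card →
      ∀ T : Finset (ZMod q), T.card ≤ K → 1 - θ ≤ ∑ b ∈ T, g b →
      ∑ u ∈ U, (ent f + ent g - ent (conv f (du u g))) ≤ U.card * (κ * (ent f + ent g)))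
    (ε : ℝ) (hε0 : 0 ≤ ε) (X Y : Finset ℤ) (U : Finset ℕ)
    (hU2 : 2 ≤ U.card) (K : ℕ) (hK : 1 ≤ K)
    (hKU : Real.log K + L0 ≤ κ / 4 * Real.log U.card)
    (m q : ℕ → ℕ) (J : ℕ) (h0 : m 0 = 1) (hstep : ∀ i < J, m (i + 1) = m i * q i)
    (hq : ∀ i < J, (q i).Prime) (hU0 : ∀ i < J, ∀ u ∈ U, (u : ZMod (q i)) ≠ 0)
    (hUi : ∀ i < J, Set.InjOn (fun u : ℕ => (u : ZMod (q i))) (U : Set ℕ))
    (hsep : ∀ y ∈ Y, cl (m J) Y y = {y})
    (hsp : ∀ i < J, (nH (m i) (q i) K θ Y : ℝ) ≤ ε * Y.card) :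
    ∑ u ∈ U, ∑ s ∈ X ×ˢ Y, Real.log (nc (X ×ˢ Y) (rs 1 u) s) ≤
      U.card * ((κ + ε) * (X.card * Y.card * (Real.log X.card + Real.log Y.card))) := by
  have hUc : (0 : ℝ) ≤ U.card := Nat.cast_nonneg _
  have hpos : ∀ i ≤ J, 0 < m i := by
    intro i
    induction i with
    | zero => intro _; rw [h0]; exact one_pos
    | succ i ih =>
      intro hi
      rw [hstep i (by omega)]
      exact Nat.mul_pos (ih (by omega)) (hq i (by omega)).pos
  have hind : ∀ i ≤ J, ∑ u ∈ U, ∑ s ∈ X ×ˢ Y, Real.log (nc (X ×ˢ Y) (rs 1 u) s) ≤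
      ∑ u ∈ U, ∑ s ∈ X ×ˢ Y, Real.log (nc (X ×ˢ Y) (rs (m i) u) s) +
      U.card * (κ * (Y.card * FF 1 (m i) X + X.card * FF 1 (m i) Y) +
        ε * (Y.card * FF 1 (m i) X)) := by
    intro i
    induction i with
    | zero =>
      intro _
      rw [h0]
      have e : ∀ Z : Finset ℤ, FF 1 1 Z = 0 := by
        intro Z
        unfold FF el
        simp
      rw [e, e]
      simp
    | succ i ih =>
      intro hi
      have hi' : i < J := by omega
      have := Fact.mk (hq i hi')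
      have h1 := dil_step hκ hN (m i) (q i) (hpos i (by omega)) X Y U hU2 (hU0 i hi')
        (hUi i hi') K hK hKU ε (hsp i hi')
      have h2 := ih (by omega)
      rw [hstep i hi']
      rw [← FF_add 1 (m i) (m i * q i) X, ← FF_add 1 (m i) (m i * q i) Y]
      have h3 : ∑ u ∈ U, ∑ s ∈ X ×ˢ Y, (Real.log (nc (X ×ˢ Y) (rs (m i) u) s) -
          Real.log (nc (X ×ˢ Y) (rs (m i * q i) u) s)) =
          ∑ u ∈ U, ∑ s ∈ X ×ˢ Y, Real.log (nc (X ×ˢ Y) (rs (m i) u) s) -
          ∑ u ∈ U, ∑ s ∈ X ×ˢ Y, Real.log (nc (X ×ˢ Y) (rs (m i * q i) u) s) := by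
        rw [← Finset.sum_sub_distrib]
        refine Finset.sum_congr rfl fun u _ => ?_
        rw [Finset.sum_sub_distrib]
      rw [h3] at h1
      linarith
  have h1 := hind J le_rfl
  have h2 : ∑ u ∈ U, ∑ s ∈ X ×ˢ Y, Real.log (nc (X ×ˢ Y) (rs (m J) u) s) = 0 := by
    refine Finset.sum_eq_zero fun u _ => Finset.sum_eq_zero fun s hs => ?_
    have h3 : nc (X ×ˢ Y) (rs (m J) u) s = 1 := by
      unfold nc
      rw [Finset.card_eq_one]
      refine ⟨s, ?_⟩
      ext t
      rw [mem_ncs, Finset.mem_singleton]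
      rw [Finset.mem_product] at hs
      constructor
      · rintro ⟨h4, h5, h6⟩
        rw [Finset.mem_product] at h4
        have h7 : t.2 ∈ cl (m J) Y s.2 := mem_cl.2 ⟨h4.2, h5.2⟩
        rw [hsep s.2 hs.2, Finset.mem_singleton] at h7
        rw [h7] at h6
        exact Prod.ext (add_right_cancel h6) h7
      · rintro rfl
        exact ⟨Finset.mem_product.2 hs, (rs_eqv _ _).refl _⟩
    rw [h3]
    simp
  rw [h2, zero_add] at h1
  refine h1.trans (mul_le_mul_of_nonneg_left ?_ hUc)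
  have e1 := mul_le_mul_of_nonneg_left (FF_one_le (m J) X) (Nat.cast_nonneg (α := ℝ) Y.card)
  have e2 := mul_le_mul_of_nonneg_left (FF_one_le (m J) Y) (Nat.cast_nonneg (α := ℝ) X.card)
  have e3 := mul_le_mul_of_nonneg_left (add_le_add e1 e2) hκ.le
  have e4 := mul_le_mul_of_nonneg_left e1 hε0
  have hly : 0 ≤ Real.log (Y.card : ℝ) := Real.log_natCast_nonneg _
  have e5 : 0 ≤ ε * ((X.card : ℝ) * Y.card * Real.log Y.card) := by positivity
  linarith

/-- the greedy chain for a general predicate -/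
theorem greedyP (r : ℕ) (q : ℕ → ℕ) (hq : ∀ i < r, (q i).Prime) (Y : Finset ℤ)
    (P : ℕ → ℕ → Prop)
    (hfree : ∀ j : ℕ → ℕ, (∀ y ∈ Y, cl (MM r q j) Y y = {y}) ∨
      ∃ i < r, P (MM r q j) (q i)) :
    ∃ (J : ℕ) (m p : ℕ → ℕ), m 0 = 1 ∧ (∀ i < J, m (i + 1) = m i * p i) ∧
      (∀ i < J, ∃ l < r, p i = q l) ∧ (∀ y ∈ Y, cl (m J) Y y = {y}) ∧
      (∀ i < J, P (m i) (p i)) := by
  obtain ⟨K, hK⟩ : ∃ K : ℕ, ∀ y ∈ Y, ∀ z ∈ Y, |z - y| < ((2 ^ K : ℕ) : ℤ) := by
    refine ⟨2 * ∑ y ∈ Y, y.natAbs, fun y hy z hz => ?_⟩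
    have h1 := Finset.single_le_sum (f := fun y : ℤ => y.natAbs) (fun _ _ => Nat.zero_le _) hy
    have h2 := Finset.single_le_sum (f := fun y : ℤ => y.natAbs) (fun _ _ => Nat.zero_le _) hz
    have h3 : 2 * ∑ y ∈ Y, y.natAbs < 2 ^ (2 * ∑ y ∈ Y, y.natAbs) := Nat.lt_two_pow_self
    have h4 : |z - y| ≤ ((2 * ∑ y ∈ Y, y.natAbs : ℕ) : ℤ) := by
      rw [abs_le]
      omega
    exact lt_of_le_of_lt h4 (by exact_mod_cast h3)
  have key : ∀ n : ℕ, ∀ j : ℕ → ℕ, r * K ≤ ∑ i ∈ Finset.range r, j i + n →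
      ∃ (J : ℕ) (m p : ℕ → ℕ), m 0 = MM r q j ∧ (∀ i < J, m (i + 1) = m i * p i) ∧
      (∀ i < J, ∃ l < r, p i = q l) ∧ (∀ y ∈ Y, cl (m J) Y y = {y}) ∧
      (∀ i < J, P (m i) (p i)) := by
    intro n
    induction n with
    | zero =>
      intro j hj
      refine ⟨0, fun _ => MM r q j, fun _ => 1, rfl, fun i hi => absurd hi (Nat.not_lt_zero i),
        fun i hi => absurd hi (Nat.not_lt_zero i), ?_,
        fun i hi => absurd hi (Nat.not_lt_zero i)⟩
      rcases hfree j with h | ⟨i, hi, _⟩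
      · exact h
      · have hex : ∃ l < r, K ≤ j l := by
          by_contra hcon
          push Not at hcon
          have h1 : ∑ i ∈ Finset.range r, j i < ∑ _i ∈ Finset.range r, K :=
            Finset.sum_lt_sum_of_nonempty ⟨i, Finset.mem_range.2 hi⟩
              fun l hl => hcon l (Finset.mem_range.1 hl)
          rw [Finset.sum_const, Finset.card_range, smul_eq_mul] at h1
          omega
        obtain ⟨l, hl, hKl⟩ := hex
        refine sep_of_large Y _ fun y hy z hz => lt_of_lt_of_le (hK y hy z hz) ?_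
        have h1 : 2 ^ K ≤ MM r q j := by
          calc 2 ^ K ≤ (q l) ^ K := Nat.pow_le_pow_left (hq l hl).two_le K
            _ ≤ (q l) ^ (j l) := Nat.pow_le_pow_right (hq l hl).pos hKl
            _ ≤ MM r q j := Nat.le_of_dvd (MM_pos r q j hq)
                (Finset.dvd_prod_of_mem (fun i => q i ^ j i) (Finset.mem_range.2 hl))
        exact_mod_cast h1
    | succ n ih =>
      intro j hj
      rcases hfree j with h | ⟨i, hi, h⟩
      · exact ⟨0, fun _ => MM r q j, fun _ => 1, rfl, fun i hi => absurd hi (Nat.not_lt_zero i),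
          fun i hi => absurd hi (Nat.not_lt_zero i), h,
          fun i hi => absurd hi (Nat.not_lt_zero i)⟩
      · have h1 : ∑ l ∈ Finset.range r, up j i l = ∑ l ∈ Finset.range r, j l + 1 := by
          unfold up
          rw [← Finset.add_sum_erase _ _ (Finset.mem_range.2 hi), Function.update_self,
            ← Finset.add_sum_erase (Finset.range r) j (Finset.mem_range.2 hi)]
          have h2 : ∑ x ∈ (Finset.range r).erase i, Function.update j i (j i + 1) x =
              ∑ x ∈ (Finset.range r).erase i, j x := by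
            refine Finset.sum_congr rfl fun x hx => ?_
            rw [Finset.mem_erase] at hx
            rw [Function.update_of_ne hx.1]
          rw [h2]
          ring
        obtain ⟨J, m, p, g0, g1, g2, g3, g4⟩ := ih (up j i) (by rw [h1]; omega)
        rw [MM_up r q j i hi] at g0
        refine ⟨J + 1, fun a => Nat.casesOn a (MM r q j) m, fun a => Nat.casesOn a (q i) p, rfl,
          ?_, ?_, g3, ?_⟩
        · intro a ha
          cases a with
          | zero => exact g0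
          | succ a => exact g1 a (by omega)
        · intro a ha
          cases a with
          | zero => exact ⟨i, hi, rfl⟩
          | succ a => exact g2 a (by omega)
        · intro a ha
          cases a with
          | zero => exact h
          | succ a => exact g4 a (by omega)
  have h := key (r * K) (fun _ => 0) (by simp)
  have e : MM r q (fun _ => 0) = 1 := by
    unfold MM
    simp
  rw [e] at h
  exact h

end Pool.Agent.Helper28.LN
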