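import Pool.Agent.Helper28.LN.Val

set_option autoImplicit false

/-!
# Project LINES (MP_120218), Heavy: nodes which are not carried by `K` digits
-/

namespace Pool.Agent.Helper28.LN

open Finset Pool.Agent.Helper15.GL

/-- the next digit is heavy: no `K` values carry the proportion `1 - t` -/
def Hv (m q K : ℕ) (t : ℝ) (X : Finset ℤ) (x : ℤ) : Prop :=
  ∀ T : Finset (ZMod q), T.card ≤ K →
    (((cl m X x).filter (fun z => dg m q z ∈ T)).card : ℝ) < (1 - t) * (cl m X x).card

open Classical in
/-- the number of elements at a heavy node -/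
noncomputable def nH (m q K : ℕ) (t : ℝ) (X : Finset ℤ) : ℕ :=
  (X.filter (fun x => Hv m q K t X x)).card

theorem hv_spread {m q K : ℕ} (hm : 0 < m) (hK : 1 ≤ K) {t : ℝ} {X : Finset ℤ} {x : ℤ}
    (h : Hv m q K t X x) : Spread m q t X x := by
  intro y hy
  have h1 := h {dg m q y} (by rw [Finset.card_singleton]; exact hK)
  have h2 : (cl m X x).filter (fun z => dg m q z ∈ ({dg m q y} : Finset (ZMod q))) =
      cl (m * q) X y := by
    rw [← filter_dg m q hm X x y hy]
    refine Finset.filter_congr fun z _ => ?_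
    rw [Finset.mem_singleton]
  rw [h2] at h1
  exact h1

theorem nH_le_nS (m q K : ℕ) (hm : 0 < m) (hK : 1 ≤ K) (t : ℝ) (X : Finset ℤ) :
    nH m q K t X ≤ nS m q t X := by
  classical
  unfold nH nS
  refine Finset.card_le_card fun x hx => ?_
  rw [Finset.mem_filter] at hx ⊢
  exact ⟨hx.1, hv_spread hm hK hx.2⟩

theorem hv_congr {m q K : ℕ} {t : ℝ} {X : Finset ℤ} {x y : ℤ} (h : (m : ℤ) ∣ y - x) :
    Hv m q K t X y ↔ Hv m q K t X x := by
  unfold Hv
  rw [cl_eq h]

/-- heavy nodes have entropy `log K` -/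
theorem FF_ge_nH (m q K : ℕ) (hm : 0 < m) [NeZero q] (hK : 1 ≤ K) (t : ℝ)
    (X : Finset ℤ) : t * Real.log K * nH m q K t X ≤ FF m (m * q) X := by
  classical
  have hKr : (1 : ℝ) ≤ K := by exact_mod_cast hK
  have hlogK : 0 ≤ Real.log K := Real.log_nonneg hKr
  have hdvd : m ∣ m * q := Dvd.intro q rfl
  rw [← sum_hh m q hm X]
  unfold nH
  have h1 : t * Real.log K * ((X.filter (fun x => Hv m q K t X x)).card : ℝ) =
      ∑ x ∈ X.filter (fun x => Hv m q K t X x), t * Real.log K := by
    rw [Finset.sum_const, nsmul_eq_mul, mul_comm]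
  rw [h1]
  refine le_trans (Finset.sum_le_sum (g := fun x => hh m q X x) fun x hx => ?_)
    (Finset.sum_le_sum_of_subset_of_nonneg (Finset.filter_subset _ _)
      fun x hx _ => hh_nonneg m q X x hx)
  rw [Finset.mem_filter] at hx
  obtain ⟨hxX, hHv⟩ := hx
  rw [hh_eq m q hm X x hxX]
  obtain ⟨C, hC⟩ : ∃ C : Finset ℤ, C = cl m X x := ⟨_, rfl⟩
  have hCpos : (0 : ℝ) < C.card := by rw [hC]; exact cl_card_pos hxX
  obtain ⟨T, hT⟩ : ∃ T : Finset (ZMod q), T = univ.filter (fun d =>
    C.card < K * (C.filter (fun z => dg m q z = d)).card) := ⟨_, rfl⟩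
  have hTK : T.card ≤ K := by
    by_contra hcon
    push Not at hcon
    have e1 : ∑ d, (C.filter (fun z => dg m q z = d)).card = C.card := by
      have := Finset.card_eq_sum_card_fiberwise (f := dg m q) (s := C) (t := univ)
        (fun _ _ => Finset.mem_coe.2 (Finset.mem_univ _))
      exact this.symm
    have e2 : T.card * C.card ≤ K * C.card := by
      calc T.card * C.card = ∑ _d ∈ T, C.card := by rw [Finset.sum_const, smul_eq_mul]
        _ ≤ ∑ d ∈ T, K * (C.filter (fun z => dg m q z = d)).card := by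
            refine Finset.sum_le_sum fun d hd => ?_
            rw [hT, Finset.mem_filter] at hd
            exact hd.2.le
        _ ≤ ∑ d, K * (C.filter (fun z => dg m q z = d)).card :=
            Finset.sum_le_sum_of_subset (Finset.subset_univ _)
        _ = K * C.card := by rw [← Finset.mul_sum, e1]
    have e3 : 0 < C.card := by exact_mod_cast hCpos
    have e4 := Nat.le_of_mul_le_mul_right e2 e3
    omega
  have h2 := hHv T hTK
  rw [← hC] at h2 ⊢
  rw [le_div_iff₀ hCpos]
  have hsplit := Finset.card_filter_add_card_filter_not (s := C) (fun z => dg m q z ∈ T)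
  have hsplit' : ((C.filter (fun z => dg m q z ∈ T)).card : ℝ) +
      (C.filter (fun z => ¬ dg m q z ∈ T)).card = C.card := by exact_mod_cast hsplit
  have hCX : ∀ z ∈ C, z ∈ X := by
    intro z hz
    rw [hC, mem_cl] at hz
    exact hz.1
  have h3 : ∑ z ∈ C.filter (fun z => ¬ dg m q z ∈ T), Real.log K ≤
      ∑ z ∈ C, el m (m * q) X z := by
    refine le_trans (Finset.sum_le_sum (g := fun z => el m (m * q) X z) fun z hz => ?_)
      (Finset.sum_le_sum_of_subset_of_nonneg (Finset.filter_subset _ _)
        fun z hz _ => el_nonneg hdvd X z (hCX z hz))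
    rw [Finset.mem_filter] at hz
    obtain ⟨hzC, hzT⟩ := hz
    rw [hT, Finset.mem_filter, not_and] at hzT
    have h4 := hzT (Finset.mem_univ _)
    push Not at h4
    have hz' : z ∈ cl m X x := by rw [← hC]; exact hzC
    have h5 : C.filter (fun w => dg m q w = dg m q z) = cl (m * q) X z := by
      rw [hC]
      exact filter_dg m q hm X x z hz'
    rw [h5] at h4
    have h6 : cl m X z = C := by
      rw [hC]
      exact cl_eq (mem_cl.1 hz').2
    unfold el
    rw [h6]
    have h7 := cl_card_pos (m := m * q) (hCX z hzC)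
    have h8 : ((K : ℝ) * (cl (m * q) X z).card) ≤ C.card := by exact_mod_cast h4
    have h9 := Real.log_le_log (by positivity) h8
    rw [Real.log_mul (by positivity) h7.ne'] at h9
    linarith
  rw [Finset.sum_const, nsmul_eq_mul] at h3
  have h4 : t * C.card ≤ ((C.filter (fun z => ¬ dg m q z ∈ T)).card : ℝ) := by linarith
  have h5 := mul_le_mul_of_nonneg_right h4 hlogK
  linarith

/-- the digit at a level above the shift: heavy nodes move -/
theorem nH_high {G : ℚ} (hG : G ≠ 0) {m' m q : ℕ} (hm' : 0 < m') (hm : 0 < m)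
    (h1 : Matched m' m G) (h2 : Matched (m' * q) (m * q) G) (A : Finset ℤ) (K : ℕ) (t : ℝ)
    (ht0 : 0 < t) (ht1 : t ≤ 1) :
    t * nH m' q K t A ≤ t * nH m q K (t / 2) A + 13 * (bad G A).card := by
  classical
  obtain ⟨κ, hκ⟩ : ∃ κ : ℝ, κ = t / 6 := ⟨_, rfl⟩
  have hκ0 : 0 < κ := by rw [hκ]; positivity
  obtain ⟨S1, hS1⟩ : ∃ S1 : Finset ℤ, S1 = A.filter (fun y => κ * (cl m' A y).card <
        ((cl m' A y).filter (fun a => a ∈ bad G⁻¹ A)).card) := ⟨_, rfl⟩
  obtain ⟨S2, hS2⟩ : ∃ S2 : Finset ℤ, S2 = A.filter (fun y => κ * (cl m A y).card <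
        ((cl m A y).filter (fun a => a ∈ bad G A)).card) := ⟨_, rfl⟩
  obtain ⟨S3, hS3⟩ : ∃ S3 : Finset ℤ, S3 = A.filter (fun x => Hv m q K (t / 2) A x) :=
    ⟨_, rfl⟩
  have hsub : A.filter (fun x => Hv m' q K t A x) ⊆ bad G⁻¹ A ∪ S1 ∪
      ((good G⁻¹ A).filter (fun y' => sh G⁻¹ y' ∈ S2) ∪
       (good G⁻¹ A).filter (fun y' => sh G⁻¹ y' ∈ S3)) := by
    intro y' hy'
    rw [Finset.mem_filter] at hy'
    rw [Finset.mem_union, Finset.mem_union, Finset.mem_union, Finset.mem_filter,
      Finset.mem_filter]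
    rcases good_or_bad G⁻¹ A y' hy'.1 with hg | hb
    · by_cases hs1 : y' ∈ S1
      · exact Or.inl (Or.inr hs1)
      by_cases hs2 : sh G⁻¹ y' ∈ S2
      · exact Or.inr (Or.inl ⟨hg, hs2⟩)
      refine Or.inr (Or.inr ⟨hg, ?_⟩)
      obtain ⟨y, hy⟩ : ∃ y : ℤ, y = sh G⁻¹ y' := ⟨_, rfl⟩
      rw [← hy] at hs2 ⊢
      have hyA : y ∈ A := by rw [hy]; exact (mem_good.1 hg).2.1
      have hyy : (y' : ℚ) = G * y := by
        rw [hy, (mem_good.1 hg).2.2, mul_inv_cancel_left₀ hG]
      have hs1' : (((cl m' A y').filter (fun a => a ∈ bad G⁻¹ A)).card : ℝ) ≤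
          κ * (cl m' A y').card := by
        by_contra h
        push Not at h
        exact hs1 (by rw [hS1, Finset.mem_filter]; exact ⟨hy'.1, h⟩)
      have hs2' : (((cl m A y).filter (fun a => a ∈ bad G A)).card : ℝ) ≤
          κ * (cl m A y).card := by
        by_contra h
        push Not at h
        exact hs2 (by rw [hS2, Finset.mem_filter]; exact ⟨hyA, h⟩)
      rw [hS3, Finset.mem_filter]
      refine ⟨hyA, ?_⟩
      intro T hTK
      have c1 := card_good_cl hG h1 A y y' hyy
      have c2 := card_split _ _ A (good_or_bad G⁻¹ A) (cl m' A y') (cl_subset _ _ _)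
      have c3 : (((cl m A y).filter (fun a => a ∈ good G A)).card : ℝ) ≤ (cl m A y).card := by
        exact_mod_cast Finset.card_le_card (Finset.filter_subset _ _)
      have c4 : (1 - κ) * ((cl m' A y').card : ℝ) ≤ (cl m A y).card := by
        have : (((cl m' A y').filter (fun a => a ∈ good G⁻¹ A)).card : ℝ) =
          ((cl m A y).filter (fun a => a ∈ good G A)).card := by exact_mod_cast c1
        linarith
      obtain ⟨D, hD⟩ : ∃ D : Finset ℤ, D = (cl m A y).filter (fun z => dg m q z ∈ T) :=
        ⟨_, rfl⟩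
      have hDcl : D ⊆ cl m A y := by rw [hD]; exact Finset.filter_subset _ _
      rw [← hD]
      have c5 := card_split _ _ A (good_or_bad G A) D (hDcl.trans (cl_subset _ _ _))
      have c6 : ((D.filter (fun a => a ∈ bad G A)).card : ℝ) ≤
          ((cl m A y).filter (fun a => a ∈ bad G A)).card := by
        exact_mod_cast Finset.card_le_card (Finset.filter_subset_filter _ hDcl)
      have hc'pos := cl_card_pos (m := m') hy'.1
      have hcpos := cl_card_pos (m := m) hyA
      -- the good part
      have c7 : ((D.filter (fun a => a ∈ good G A)).card : ℝ) ≤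
          (1 - t) * (cl m' A y').card := by
        obtain ⟨Wd, hWd⟩ : ∃ Wd : Finset ℤ, Wd = D.filter (fun a => a ∈ good G A) := ⟨_, rfl⟩
        rw [← hWd]
        have hW1 : ∀ w ∈ Wd, w ∈ cl m A y ∧ dg m q w ∈ T ∧ w ∈ good G A := by
          intro w hw
          rw [hWd, hD, Finset.mem_filter, Finset.mem_filter] at hw
          exact ⟨hw.1.1, hw.1.2, hw.2⟩
        have hWm : ∀ w ∈ Wd, sh G w ∈ cl m' A y' := by
          intro w hw
          obtain ⟨e1, _, e3⟩ := hW1 w hw
          rw [mem_good] at e3
          rw [mem_cl]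
          refine ⟨e3.2.1, ?_⟩
          have e4 : ((sh G w - y' : ℤ) : ℚ) = G * ((w - y : ℤ) : ℚ) := by
            push_cast
            rw [e3.2.2, hyy]
            ring
          rw [h1 _ _ e4]
          exact (mem_cl.1 e1).2
        -- equal digits below are equal digits above
        have hdig : ∀ w ∈ Wd, ∀ v ∈ Wd,
            (dg m' q (sh G w) = dg m' q (sh G v) ↔ dg m q w = dg m q v) := by
          intro w hw v hv
          obtain ⟨e1, _, e3⟩ := hW1 w hw
          obtain ⟨f1, _, f3⟩ := hW1 v hv
          rw [mem_good] at e3 f3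
          have e4 : ((sh G w - sh G v : ℤ) : ℚ) = G * ((w - v : ℤ) : ℚ) := by
            push_cast
            rw [e3.2.2, f3.2.2]
            ring
          have e5 : (m : ℤ) ∣ w - v := by
            have := dvd_sub (mem_cl.1 e1).2 (mem_cl.1 f1).2
            simpa using this
          have e6 : (m' : ℤ) ∣ sh G w - sh G v := (h1 _ _ e4).2 e5
          rw [dg_eq_iff hm' e6, dg_eq_iff hm e5]
          exact h2 _ _ e4
        obtain ⟨T', hT'⟩ : ∃ T' : Finset (ZMod q), T' = Wd.image (fun w => dg m' q (sh G w)) :=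
          ⟨_, rfl⟩
        have hT'K : T'.card ≤ K := by
          refine le_trans ?_ hTK
          have hex : ∀ d ∈ T', ∃ w ∈ Wd, dg m' q (sh G w) = d := by
            intro d hd
            rw [hT', Finset.mem_image] at hd
            exact hd
          choose! F hF using hex
          refine Finset.card_le_card_of_injOn (fun d => dg m q (F d)) ?_ ?_
          · intro d hd
            exact (hW1 _ (hF d (Finset.mem_coe.1 hd)).1).2.1
          · intro d hd e he hde
            have hd' := hF d (Finset.mem_coe.1 hd)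
            have he' := hF e (Finset.mem_coe.1 he)
            rw [← hd'.2, ← he'.2]
            exact (hdig _ hd'.1 _ he'.1).2 hde
        have d1 := hy'.2 T' hT'K
        have d2 : Wd.card ≤ ((cl m' A y').filter (fun z => dg m' q z ∈ T')).card := by
          refine Finset.card_le_card_of_injOn (sh G) ?_ ?_
          · intro w hw
            rw [Finset.mem_coe, Finset.mem_filter]
            refine ⟨hWm w hw, ?_⟩
            rw [hT', Finset.mem_image]
            exact ⟨w, hw, rfl⟩
          · intro w hw v hv hwv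
            rw [← sh_sh hG (hW1 w hw).2.2, ← sh_sh hG (hW1 v hv).2.2, hwv]
        have d3 : (Wd.card : ℝ) ≤ ((cl m' A y').filter (fun z => dg m' q z ∈ T')).card := by
          exact_mod_cast d2
        linarith
      have c8 : (D.card : ℝ) ≤
          (1 - t) * (cl m' A y').card + κ * (cl m A y).card := by linarith
      have c9 : (1 - t) * ((cl m' A y').card : ℝ) ≤
          (1 - t) * (1 + 2 * κ) * (cl m A y).card := by
        rw [mul_assoc]
        refine mul_le_mul_of_nonneg_left ?_ (by linarith)
        have hk : κ ≤ 1 / 2 := by rw [hκ]; linarith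
        have e1 : ((cl m' A y').card : ℝ) ≤ (1 + 2 * κ) * ((1 - κ) * (cl m' A y').card) := by
          have : 0 ≤ κ * (1 - 2 * κ) * (cl m' A y').card := by
            apply mul_nonneg (mul_nonneg hκ0.le (by linarith)) hc'pos.le
          nlinarith
        exact e1.trans (mul_le_mul_of_nonneg_left c4 (by linarith))
      have c10 : (1 - t) * (1 + 2 * κ) * (cl m A y).card + κ * (cl m A y).card <
          (1 - t / 2) * ((cl m A y).card : ℝ) := by
        rw [← add_mul]
        refine mul_lt_mul_of_pos_right ?_ hcpos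
        rw [hκ]
        nlinarith
      linarith
    · exact Or.inl (Or.inl hb)
  -- counting
  have hinj : ∀ S : Finset ℤ, ((good G⁻¹ A).filter (fun y' => sh G⁻¹ y' ∈ S)).card ≤
      S.card := by
    intro S
    refine Finset.card_le_card_of_injOn (sh G⁻¹) ?_ ?_
    · intro a ha
      exact (Finset.mem_filter.1 ha).2
    · intro a ha b hb hab
      have ha' := sh_sh (inv_ne_zero hG) (Finset.mem_filter.1 ha).1
      have hb' := sh_sh (inv_ne_zero hG) (Finset.mem_filter.1 hb).1
      rw [← ha', ← hb', hab]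
  have hnS : nH m' q K t A ≤ (bad G⁻¹ A).card + S1.card + (S2.card + nH m q K (t / 2) A) := by
    have e1 := (Finset.card_le_card hsub).trans (Finset.card_union_le _ _)
    have e2 := Finset.card_union_le (bad G⁻¹ A) S1
    have e3 := Finset.card_union_le ((good G⁻¹ A).filter (fun y' => sh G⁻¹ y' ∈ S2))
      ((good G⁻¹ A).filter (fun y' => sh G⁻¹ y' ∈ S3))
    have e4 := hinj S2
    have e5 := hinj S3
    have e6 : S3.card = nH m q K (t / 2) A := by
      rw [hS3]
      unfold nH
      rfl
    have e7 : (A.filter (fun x => Hv m' q K t A x)).card = nH m' q K t A := by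
      unfold nH
      rfl
    rw [e7] at e1
    omega
  have hnS' : (nH m' q K t A : ℝ) ≤ (bad G A).card + S1.card + (S2.card +
      nH m q K (t / 2) A) := by
    rw [← card_bad_inv hG]
    exact_mod_cast hnS
  have m1 := markov m' A (bad G⁻¹ A) (bad_subset _ _) κ hκ0.le
  have m2 := markov m A (bad G A) (bad_subset _ _) κ hκ0.le
  rw [← hS1, card_bad_inv hG, hκ] at m1
  rw [← hS2, hκ] at m2
  have h3 := mul_le_mul_of_nonneg_left hnS' ht0.le
  have h6 : t * ((bad G A).card : ℝ) ≤ (bad G A).card :=
    mul_le_of_le_one_left (Nat.cast_nonneg _) ht1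
  linarith

end Pool.Agent.Helper28.LN
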