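import Pool.Agent.Helper28.LN.Mid
import Pool.Agent.Helper28.LN.Cls

set_option autoImplicit false

/-!
# Project LINES (MP_120218), Joint: one digit of a sum `x + u y`, entropy form
-/

namespace Pool.Agent.Helper28.LN

open Finset Pool.Agent.Helper15.GL

section Gen

open Classical in
/-- the class of `s` in `S` -/
noncomputable def ncs {α : Type} (S : Finset α) (r : α → α → Prop) (s : α) : Finset α :=
  S.filter (fun t => r t s)

/-- the size of the class of `s` in `S` -/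
noncomputable def nc {α : Type} (S : Finset α) (r : α → α → Prop) (s : α) : ℕ :=
  (ncs S r s).card

theorem mem_ncs {α : Type} {S : Finset α} {r : α → α → Prop} {s t : α} :
    t ∈ ncs S r s ↔ t ∈ S ∧ r t s := by
  classical
  unfold ncs
  rw [Finset.mem_filter]

theorem nc_pos {α : Type} {S : Finset α} {r : α → α → Prop} (hr : Equivalence r) {s : α}
    (hs : s ∈ S) : (0 : ℝ) < nc S r s := by
  unfold nc
  have : 0 < (ncs S r s).card :=
    Finset.card_pos.2 ⟨s, mem_ncs.2 ⟨hs, hr.refl s⟩⟩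
  exact_mod_cast this

theorem nc_congr {α : Type} {S : Finset α} {r : α → α → Prop} (hr : Equivalence r) {s t : α}
    (h : r s t) : nc S r s = nc S r t := by
  unfold nc
  congr 1
  ext x
  rw [mem_ncs, mem_ncs]
  exact ⟨fun h1 => ⟨h1.1, hr.trans h1.2 h⟩, fun h1 => ⟨h1.1, hr.trans h1.2 (hr.symm h)⟩⟩

theorem gsub_aux {α : Type} (S : Finset α) (ρ σ δ : α → α → Prop) (hρ : Equivalence ρ)
    (hσ : Equivalence σ) (hδ : Equivalence δ) (h1 : ∀ s t, ρ s t → δ s t)
    (h2 : ∀ s t, σ s t → δ s t) :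
    ∑ y ∈ S, ((nc S σ y : ℝ) * nc S ρ y) /
      (nc S δ y * nc S (fun s t => ρ s t ∧ σ s t) y) ≤ S.card := by
  classical
  have hρσ : Equivalence (fun s t => ρ s t ∧ σ s t) :=
    ⟨fun s => ⟨hρ.refl s, hσ.refl s⟩, fun h => ⟨hρ.symm h.1, hσ.symm h.2⟩,
      fun h h' => ⟨hρ.trans h.1 h'.1, hσ.trans h.2 h'.2⟩⟩
  have e1 : ∀ y ∈ S, ((nc S σ y : ℝ) * nc S ρ y) /
      (nc S δ y * nc S (fun s t => ρ s t ∧ σ s t) y) =
      ∑ z ∈ S, ∑ z' ∈ S, if (σ z y ∧ ρ z' y) then
        1 / ((nc S δ y : ℝ) * nc S (fun s t => ρ s t ∧ σ s t) y) else 0 := by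
    intro y _
    have e2 : ∀ z ∈ S, ∑ z' ∈ S, (if (σ z y ∧ ρ z' y) then
        1 / ((nc S δ y : ℝ) * nc S (fun s t => ρ s t ∧ σ s t) y) else 0) =
        if σ z y then (nc S ρ y : ℝ) *
          (1 / ((nc S δ y : ℝ) * nc S (fun s t => ρ s t ∧ σ s t) y)) else 0 := by
      intro z _
      by_cases hz : σ z y
      · simp only [hz, true_and, if_true]
        rw [← Finset.sum_filter, Finset.sum_const, nsmul_eq_mul]
        rfl
      · simp only [hz, false_and, if_false, Finset.sum_const_zero]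
    rw [Finset.sum_congr rfl e2, ← Finset.sum_filter, Finset.sum_const, nsmul_eq_mul]
    have e3 : ((S.filter (fun z => σ z y)).card : ℝ) = nc S σ y := rfl
    rw [e3]
    ring
  rw [Finset.sum_congr rfl e1, Finset.sum_comm]
  have h3 : ∀ z ∈ S, ∑ y ∈ S, ∑ z' ∈ S, (if (σ z y ∧ ρ z' y) then
        1 / ((nc S δ y : ℝ) * nc S (fun s t => ρ s t ∧ σ s t) y) else 0) ≤ 1 := by
    intro z hz
    rw [Finset.sum_comm]
    have h4 : ∀ z' ∈ S, ∑ y ∈ S, (if (σ z y ∧ ρ z' y) then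
        1 / ((nc S δ y : ℝ) * nc S (fun s t => ρ s t ∧ σ s t) y) else 0) ≤
        if δ z' z then 1 / (nc S δ z : ℝ) else 0 := by
      intro z' _
      by_cases hex : ∃ y0 ∈ S, σ z y0 ∧ ρ z' y0
      · obtain ⟨y0, hy0, hw, hm'⟩ := hex
        have hmz : δ z' z := hδ.trans (h1 _ _ hm') (hδ.symm (h2 _ _ hw))
        rw [if_pos hmz]
        have h5 : ∀ y ∈ S, (if (σ z y ∧ ρ z' y) then
            1 / ((nc S δ y : ℝ) * nc S (fun s t => ρ s t ∧ σ s t) y) else 0) ≤
            if (ρ y y0 ∧ σ y y0) then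
              1 / ((nc S δ z : ℝ) * nc S (fun s t => ρ s t ∧ σ s t) y0) else 0 := by
          intro y hy
          by_cases hc : σ z y ∧ ρ z' y
          · have b1 : ρ y y0 ∧ σ y y0 :=
              ⟨hρ.trans (hρ.symm hc.2) hm', hσ.trans (hσ.symm hc.1) hw⟩
            rw [if_pos hc, if_pos b1, nc_congr hρσ b1, nc_congr hδ (hδ.symm (h2 _ _ hc.1))]
          · rw [if_neg hc]
            split_ifs
            · positivity
            · exact le_rfl
        refine (Finset.sum_le_sum h5).trans ?_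
        rw [← Finset.sum_filter, Finset.sum_const, nsmul_eq_mul]
        have e3 : ((S.filter (fun y => ρ y y0 ∧ σ y y0)).card : ℝ) =
          nc S (fun s t => ρ s t ∧ σ s t) y0 := by
          unfold nc
          rw [Nat.cast_inj]
          congr 1
          ext t
          rw [Finset.mem_filter, mem_ncs]
        rw [e3]
        have h6 := nc_pos (S := S) hρσ hy0
        have h7 := nc_pos (S := S) hδ hz
        rw [mul_one_div, div_mul_eq_div_div_swap, div_self h6.ne']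
      · have h5 : ∑ y ∈ S, (if (σ z y ∧ ρ z' y) then
            1 / ((nc S δ y : ℝ) * nc S (fun s t => ρ s t ∧ σ s t) y) else 0) = 0 := by
          refine Finset.sum_eq_zero fun y hy => ?_
          rw [if_neg]
          intro hc
          exact hex ⟨y, hy, hc⟩
        rw [h5]
        split_ifs
        · positivity
        · exact le_rfl
    refine (Finset.sum_le_sum h4).trans ?_
    rw [← Finset.sum_filter, Finset.sum_const, nsmul_eq_mul]
    have e3 : ((S.filter (fun y => δ y z)).card : ℝ) = nc S δ z := rfl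
    rw [e3, mul_one_div, div_self (nc_pos (S := S) hδ hz).ne']
  have h8 : ∑ y ∈ S, ∑ z ∈ S, ∑ z' ∈ S, (if (σ z y ∧ ρ z' y) then
        1 / ((nc S δ y : ℝ) * nc S (fun s t => ρ s t ∧ σ s t) y) else 0) ≤ S.card := by
    rw [Finset.sum_comm]
    refine (Finset.sum_le_sum h3).trans ?_
    simp
  rw [Finset.sum_comm] at h8
  exact h8

/-- submodularity of the entropy of functions on a finite set -/
theorem gsub {α : Type} (S : Finset α) (ρ σ δ : α → α → Prop) (hρ : Equivalence ρ)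
    (hσ : Equivalence σ) (hδ : Equivalence δ) (h1 : ∀ s t, ρ s t → δ s t)
    (h2 : ∀ s t, σ s t → δ s t) :
    ∑ y ∈ S, (Real.log (nc S σ y) - Real.log (nc S (fun s t => ρ s t ∧ σ s t) y)) ≤
      ∑ y ∈ S, (Real.log (nc S δ y) - Real.log (nc S ρ y)) := by
  classical
  have hρσ : Equivalence (fun s t => ρ s t ∧ σ s t) :=
    ⟨fun s => ⟨hρ.refl s, hσ.refl s⟩, fun h => ⟨hρ.symm h.1, hσ.symm h.2⟩,
      fun h h' => ⟨hρ.trans h.1 h'.1, hσ.trans h.2 h'.2⟩⟩
  have h := gsub_aux S ρ σ δ hρ hσ hδ h1 h2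
  have h3 : ∀ y ∈ S, (Real.log (nc S σ y) - Real.log (nc S (fun s t => ρ s t ∧ σ s t) y)) -
      (Real.log (nc S δ y) - Real.log (nc S ρ y)) ≤
      ((nc S σ y : ℝ) * nc S ρ y) / (nc S δ y * nc S (fun s t => ρ s t ∧ σ s t) y) - 1 := by
    intro y hy
    have a1 := nc_pos (S := S) hδ hy
    have a2 := nc_pos (S := S) hρ hy
    have a3 := nc_pos (S := S) hσ hy
    have a4 := nc_pos (S := S) hρσ hy
    have a5 := Real.log_le_sub_one_of_pos (show 0 <
      ((nc S σ y : ℝ) * nc S ρ y) / (nc S δ y * nc S (fun s t => ρ s t ∧ σ s t) y) by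
      positivity)
    rw [Real.log_div (by positivity) (by positivity), Real.log_mul a3.ne' a2.ne',
      Real.log_mul a1.ne' a4.ne'] at a5
    linarith
  have h4 := Finset.sum_le_sum h3
  rw [Finset.sum_sub_distrib (f := fun y => (Real.log (nc S σ y) -
    Real.log (nc S (fun s t => ρ s t ∧ σ s t) y))), Finset.sum_sub_distrib (g := fun _ => (1 : ℝ)),
    Finset.sum_const, nsmul_eq_mul, mul_one] at h4
  linarith

end Gen

/-- the classes of pairs modulo `m` -/
def rm (m : ℕ) (s t : ℤ × ℤ) : Prop := (m : ℤ) ∣ s.1 - t.1 ∧ (m : ℤ) ∣ s.2 - t.2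

/-- the same class modulo `m` and the same value of `x + u y` -/
def rs (m : ℕ) (u : ℤ) (s t : ℤ × ℤ) : Prop := rm m s t ∧ s.1 + u * s.2 = t.1 + u * t.2

/-- the same class modulo `m` and the same value of `x + u y` modulo `m'` -/
def rd (m m' : ℕ) (u : ℤ) (s t : ℤ × ℤ) : Prop :=
  rm m s t ∧ (m' : ℤ) ∣ (s.1 + u * s.2) - (t.1 + u * t.2)

theorem dvd_eqv (m : ℤ) : Equivalence (fun a b : ℤ => m ∣ a - b) :=
  ⟨fun a => by simp, fun {a b} h => by rw [dvd_sub_comm]; exact h,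
    fun {a b c} h h' => by have := dvd_add h h'; simpa using this⟩

theorem rm_eqv (m : ℕ) : Equivalence (rm m) :=
  ⟨fun _ => ⟨(dvd_eqv m).refl _, (dvd_eqv m).refl _⟩,
    fun h => ⟨(dvd_eqv m).symm h.1, (dvd_eqv m).symm h.2⟩,
    fun h h' => ⟨(dvd_eqv m).trans h.1 h'.1, (dvd_eqv m).trans h.2 h'.2⟩⟩

theorem rs_eqv (m : ℕ) (u : ℤ) : Equivalence (rs m u) :=
  ⟨fun _ => ⟨(rm_eqv m).refl _, rfl⟩, fun h => ⟨(rm_eqv m).symm h.1, h.2.symm⟩,
    fun h h' => ⟨(rm_eqv m).trans h.1 h'.1, h.2.trans h'.2⟩⟩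

theorem rd_eqv (m m' : ℕ) (u : ℤ) : Equivalence (rd m m' u) :=
  ⟨fun _ => ⟨(rm_eqv m).refl _, (dvd_eqv m').refl _⟩,
    fun h => ⟨(rm_eqv m).symm h.1, (dvd_eqv m').symm h.2⟩,
    fun h h' => ⟨(rm_eqv m).trans h.1 h'.1, (dvd_eqv m').trans h.2 h'.2⟩⟩

theorem nc_rm (m : ℕ) (X Y : Finset ℤ) (x y : ℤ) :
    nc (X ×ˢ Y) (rm m) (x, y) = (cl m X x).card * (cl m Y y).card := by
  unfold nc
  rw [← Finset.card_product]
  congr 1
  ext s
  rw [mem_ncs, Finset.mem_product, Finset.mem_product, mem_cl, mem_cl]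
  unfold rm
  exact ⟨fun h => ⟨⟨h.1.1, h.2.1⟩, h.1.2, h.2.2⟩, fun h => ⟨⟨h.1.1, h.2.1⟩, h.1.2, h.2.2⟩⟩

/-- the loss of the step in terms of counts -/
theorem joint_step (m q : ℕ) (u : ℤ) (X Y : Finset ℤ) :
    ∑ s ∈ X ×ˢ Y, (Real.log (nc (X ×ˢ Y) (rs m u) s) -
      Real.log (nc (X ×ˢ Y) (rs (m * q) u) s)) ≤
    ∑ s ∈ X ×ˢ Y, (Real.log (nc (X ×ˢ Y) (rd m (m * q) u) s) -
      Real.log (nc (X ×ˢ Y) (rm (m * q)) s)) := by
  have h := gsub (X ×ˢ Y) (rm (m * q)) (rs m u) (rd m (m * q) u) (rm_eqv _) (rs_eqv _ _)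
    (rd_eqv _ _ _) (by
      intro s t h1
      have hd : (m : ℤ) ∣ ((m * q : ℕ) : ℤ) := Int.natCast_dvd_natCast.2 (Dvd.intro q rfl)
      refine ⟨⟨hd.trans h1.1, hd.trans h1.2⟩, ?_⟩
      have e : (s.1 + u * s.2) - (t.1 + u * t.2) = (s.1 - t.1) + u * (s.2 - t.2) := by ring
      rw [e]
      exact dvd_add h1.1 (Dvd.dvd.mul_left h1.2 u)) (by
      intro s t h1
      refine ⟨h1.1, ?_⟩
      rw [h1.2, sub_self]
      exact dvd_zero _)
  have e : nc (X ×ˢ Y) (rs (m * q) u) =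
      nc (X ×ˢ Y) (fun s t => rm (m * q) s t ∧ rs m u s t) := by
    classical
    funext s
    unfold nc
    congr 1
    ext t
    rw [mem_ncs, mem_ncs]
    have hd : (m : ℤ) ∣ ((m * q : ℕ) : ℤ) := Int.natCast_dvd_natCast.2 (Dvd.intro q rfl)
    constructor
    · intro h1
      exact ⟨h1.1, h1.2.1, ⟨hd.trans h1.2.1.1, hd.trans h1.2.1.2⟩, h1.2.2⟩
    · intro h1
      exact ⟨h1.1, h1.2.1, h1.2.2.2⟩
  rw [e]
  exact h

/-- equality of the digits of the sum -/
theorem digit_sum {m q : ℕ} (hm : 0 < m) (u : ℤ) {a b x y : ℤ} (ha : (m : ℤ) ∣ a - x)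
    (hb : (m : ℤ) ∣ b - y) :
    ((m * q : ℕ) : ℤ) ∣ (a + u * b) - (x + u * y) ↔
      dg m q a + (u : ZMod q) * dg m q b = dg m q x + (u : ZMod q) * dg m q y := by
  have hP : (m : ℤ) ≠ 0 := by positivity
  have e : (a + u * b) - (x + u * y) = m * ((a / m + u * (b / m)) - (x / m + u * (y / m))) := by
    have e1 := ediv_sub ha
    have e2 := ediv_sub hb
    calc (a + u * b) - (x + u * y) = (a - x) + u * (b - y) := by ring
      _ = m * (a / m - x / m) + u * (m * (b / m - y / m)) := by rw [← e1, ← e2]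
      _ = _ := by ring
  rw [e, Nat.cast_mul, mul_dvd_mul_iff_left hP]
  unfold dg
  rw [← Int.cast_mul, ← Int.cast_mul, ← Int.cast_add, ← Int.cast_add,
    ZMod.intCast_eq_intCast_iff_dvd_sub, dvd_sub_comm]

variable {q : ℕ} [hq : Fact q.Prime]

/-- the value of the convolution of the laws of the digits -/
theorem conv_law (C D : Finset ℤ) (hC : C.Nonempty) (hD : D.Nonempty) (δ : ℤ → ZMod q)
    (u : ZMod q) (hu : u ≠ 0) (z : ZMod q) :
    conv (law C δ) (du u (law D δ)) z =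
      (((C ×ˢ D).filter (fun s => δ s.1 + u * δ s.2 = z)).card : ℝ) / (C.card * D.card) := by
  classical
  have hCc : (C.card : ℝ) ≠ 0 := by exact_mod_cast hC.card_pos.ne'
  have hDc : (D.card : ℝ) ≠ 0 := by exact_mod_cast hD.card_pos.ne'
  rw [conv_du u hu, eq_div_iff (mul_ne_zero hCc hDc)]
  have h1 := sum_law_mul D hD δ (fun b => law C δ (z - u * b))
  have h2 : (((C ×ˢ D).filter (fun s => δ s.1 + u * δ s.2 = z)).card : ℝ) =
      ∑ b ∈ D, (C.card : ℝ) * law C δ (z - u * δ b) := by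
    rw [Finset.card_filter, Finset.sum_product_right]
    push_cast
    refine Finset.sum_congr rfl fun b _ => ?_
    unfold law
    rw [mul_div_cancel₀ _ hCc, Finset.card_filter]
    push_cast
    refine Finset.sum_congr rfl fun a _ => ?_
    have : δ a + u * δ b = z ↔ δ a = z - u * δ b := by rw [eq_sub_iff_add_eq]
    simp only [this]
  rw [h2, ← Finset.mul_sum, ← h1]
  ring

/-- the entropy of the convolution of the laws of the digits -/
theorem ent_conv_law (C D : Finset ℤ) (hC : C.Nonempty) (hD : D.Nonempty) (δ : ℤ → ZMod q)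
    (u : ZMod q) (hu : u ≠ 0) :
    (C.card : ℝ) * D.card * ent (conv (law C δ) (du u (law D δ))) =
      ∑ a ∈ C, ∑ b ∈ D, (Real.log C.card + Real.log D.card -
        Real.log ((C ×ˢ D).filter (fun s => δ s.1 + u * δ s.2 = δ a + u * δ b)).card) := by
  classical
  have hCc : (0 : ℝ) < C.card := by exact_mod_cast hC.card_pos
  have hDc : (0 : ℝ) < D.card := by exact_mod_cast hD.card_pos
  obtain ⟨L, hL⟩ : ∃ L : ZMod q → ℝ, L = fun z => -Real.log (conv (law C δ) (du u (law D δ)) z)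
    := ⟨_, rfl⟩
  have h1 : ent (conv (law C δ) (du u (law D δ))) =
      ∑ a, ∑ b, law C δ a * law D δ b * L (a + u * b) := by
    have e1 := sum_conv_mul (law C δ) (du u (law D δ)) L
    have e2 : ent (conv (law C δ) (du u (law D δ))) =
        ∑ z, conv (law C δ) (du u (law D δ)) z * L z := by
      unfold ent Real.negMulLog
      refine Finset.sum_congr rfl fun z _ => ?_
      rw [hL]
      ring
    rw [e2, e1]
    refine Finset.sum_congr rfl fun a _ => ?_
    have e3 := sum_du u hu (law D δ) (fun b => law C δ a * L (a + b))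
    calc ∑ b, law C δ a * du u (law D δ) b * L (a + b) =
          ∑ b, du u (law D δ) b * (law C δ a * L (a + b)) :=
            Finset.sum_congr rfl fun b _ => by ring
      _ = ∑ b, law D δ b * (law C δ a * L (a + u * b)) := e3
      _ = _ := Finset.sum_congr rfl fun b _ => by ring
  have h2 : (C.card : ℝ) * D.card * ent (conv (law C δ) (du u (law D δ))) =
      ∑ a ∈ C, ∑ b ∈ D, L (δ a + u * δ b) := by
    rw [h1]
    have e1 : ∀ a, ∑ b, law C δ a * law D δ b * L (a + u * b) =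
        law C δ a * ∑ b, law D δ b * L (a + u * b) := by
      intro a
      rw [Finset.mul_sum]
      exact Finset.sum_congr rfl fun b _ => by ring
    rw [Finset.sum_congr rfl fun a _ => e1 a]
    have e2 := sum_law_mul C hC δ (fun a => ∑ b, law D δ b * L (a + u * b))
    have e3 : (C.card : ℝ) * D.card * ∑ a, law C δ a * ∑ b, law D δ b * L (a + u * b) =
        D.card * (C.card * ∑ a, law C δ a * ∑ b, law D δ b * L (a + u * b)) := by ring
    rw [e3, e2, Finset.mul_sum]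
    refine Finset.sum_congr rfl fun a _ => ?_
    exact sum_law_mul D hD δ (fun b => L (δ a + u * b))
  rw [h2]
  refine Finset.sum_congr rfl fun a ha => Finset.sum_congr rfl fun b hb => ?_
  have hpos : (0 : ℝ) < ((C ×ˢ D).filter
      (fun s => δ s.1 + u * δ s.2 = δ a + u * δ b)).card := by
    have : 0 < ((C ×ˢ D).filter (fun s => δ s.1 + u * δ s.2 = δ a + u * δ b)).card :=
      Finset.card_pos.2 ⟨(a, b), Finset.mem_filter.2 ⟨Finset.mk_mem_product ha hb, rfl⟩⟩
    exact_mod_cast this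
  rw [hL]
  simp only
  rw [conv_law C D hC hD δ u hu, Real.log_div hpos.ne' (mul_pos hCc hDc).ne',
    Real.log_mul hCc.ne' hDc.ne']
  ring

/-- the loss at the node of `x` and `y` -/
noncomputable def ls (m : ℕ) (u : ZMod q) (X Y : Finset ℤ) (x y : ℤ) : ℝ :=
  ent (law (cl m X x) (dg m q)) + ent (law (cl m Y y) (dg m q)) -
    ent (conv (law (cl m X x) (dg m q)) (du u (law (cl m Y y) (dg m q))))

theorem ls_eq (m : ℕ) (hm : 0 < m) (u : ℤ) (hu : (u : ZMod q) ≠ 0) (X Y : Finset ℤ) (x y : ℤ)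
    (hx : x ∈ X) (hy : y ∈ Y) :
    ls (q := q) m u X Y x y = (∑ b ∈ cl m Y y, (∑ a ∈ cl m X x,
      (Real.log (nc (X ×ˢ Y) (rd m (m * q) u) (a, b)) -
        Real.log (nc (X ×ˢ Y) (rm (m * q)) (a, b)))) / (cl m X x).card) /
          (cl m Y y).card := by
  classical
  obtain ⟨C, hC⟩ : ∃ C : Finset ℤ, C = cl m X x := ⟨_, rfl⟩
  obtain ⟨D, hD⟩ : ∃ D : Finset ℤ, D = cl m Y y := ⟨_, rfl⟩
  have hCne : C.Nonempty := by rw [hC]; exact cl_nonempty hx
  have hDne : D.Nonempty := by rw [hD]; exact cl_nonempty hy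
  have hCc : (0 : ℝ) < C.card := by exact_mod_cast hCne.card_pos
  have hDc : (0 : ℝ) < D.card := by exact_mod_cast hDne.card_pos
  have h1 := ent_conv_law C D hCne hDne (dg m q) (u : ZMod q) hu
  have h2 := ent_law C hCne (dg m q)
  have h3 := ent_law D hDne (dg m q)
  unfold ls
  rw [← hC, ← hD, ← Finset.sum_div, div_div, eq_div_iff (mul_pos hCc hDc).ne']
  have e1 : (ent (law C (dg m q)) + ent (law D (dg m q)) -
      ent (conv (law C (dg m q)) (du (u : ZMod q) (law D (dg m q))))) * (C.card * D.card) =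
      D.card * (C.card * ent (law C (dg m q))) + C.card * (D.card * ent (law D (dg m q))) -
      C.card * D.card * ent (conv (law C (dg m q)) (du (u : ZMod q) (law D (dg m q)))) := by
    ring
  rw [e1, h1, h2, h3]
  have e2 : (D.card : ℝ) * ∑ a ∈ C, (Real.log C.card -
      Real.log ((C.filter (fun z => dg m q z = dg m q a)).card)) =
      ∑ b ∈ D, ∑ a ∈ C, (Real.log C.card -
        Real.log ((C.filter (fun z => dg m q z = dg m q a)).card)) := by
    rw [Finset.sum_const, nsmul_eq_mul]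
  have e3 : (C.card : ℝ) * ∑ b ∈ D, (Real.log D.card -
      Real.log ((D.filter (fun z => dg m q z = dg m q b)).card)) =
      ∑ b ∈ D, ∑ _a ∈ C, (Real.log D.card -
        Real.log ((D.filter (fun z => dg m q z = dg m q b)).card)) := by
    rw [Finset.mul_sum]
    refine Finset.sum_congr rfl fun b _ => ?_
    rw [Finset.sum_const, nsmul_eq_mul]
  rw [e2, e3, Finset.sum_comm (s := C) (t := D), ← Finset.sum_add_distrib,
    ← Finset.sum_sub_distrib]
  refine Finset.sum_congr rfl fun b hb => ?_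
  rw [← Finset.sum_add_distrib, ← Finset.sum_sub_distrib]
  refine Finset.sum_congr rfl fun a ha => ?_
  have haC : a ∈ cl m X x := by rw [← hC]; exact ha
  have hbD : b ∈ cl m Y y := by rw [← hD]; exact hb
  have haX := (mem_cl.1 haC).1
  have hbY := (mem_cl.1 hbD).1
  have f1 : C.filter (fun z => dg m q z = dg m q a) = cl (m * q) X a := by
    rw [hC]; exact filter_dg m q hm X x a haC
  have f2 : D.filter (fun z => dg m q z = dg m q b) = cl (m * q) Y b := by
    rw [hD]; exact filter_dg m q hm Y y b hbD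
  have f3 : nc (X ×ˢ Y) (rd m (m * q) u) (a, b) =
      ((C ×ˢ D).filter (fun s => dg m q s.1 + (u : ZMod q) * dg m q s.2 =
        dg m q a + (u : ZMod q) * dg m q b)).card := by
    unfold nc
    congr 1
    ext s
    rw [mem_ncs, Finset.mem_filter, Finset.mem_product, Finset.mem_product]
    unfold rd rm
    simp only
    constructor
    · rintro ⟨⟨g1, g2⟩, ⟨g3, g4⟩, g5⟩
      refine ⟨⟨?_, ?_⟩, (digit_sum hm u g3 g4).1 g5⟩
      · rw [hC, mem_cl]
        exact ⟨g1, (dvd_eqv m).trans g3 (mem_cl.1 haC).2⟩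
      · rw [hD, mem_cl]
        exact ⟨g2, (dvd_eqv m).trans g4 (mem_cl.1 hbD).2⟩
    · rintro ⟨⟨g1, g2⟩, g5⟩
      rw [hC, mem_cl] at g1
      rw [hD, mem_cl] at g2
      have g3 : (m : ℤ) ∣ s.1 - a := (dvd_eqv m).trans g1.2 ((dvd_eqv m).symm (mem_cl.1 haC).2)
      have g4 : (m : ℤ) ∣ s.2 - b := (dvd_eqv m).trans g2.2 ((dvd_eqv m).symm (mem_cl.1 hbD).2)
      exact ⟨⟨g1.1, g2.1⟩, ⟨g3, g4⟩, (digit_sum hm u g3 g4).2 g5⟩
  rw [f1, f2, f3, nc_rm]
  have g1 := cl_card_pos (m := m * q) haX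
  have g2 := cl_card_pos (m := m * q) hbY
  rw [Nat.cast_mul, Real.log_mul g1.ne' g2.ne']
  ring

/-- the sum of the losses -/
theorem sum_ls (m : ℕ) (hm : 0 < m) (u : ℤ) (hu : (u : ZMod q) ≠ 0) (X Y : Finset ℤ) :
    ∑ s ∈ X ×ˢ Y, (Real.log (nc (X ×ˢ Y) (rd m (m * q) u) s) -
      Real.log (nc (X ×ˢ Y) (rm (m * q)) s)) =
      ∑ x ∈ X, ∑ y ∈ Y, ls (q := q) m u X Y x y := by
  rw [Finset.sum_product]
  obtain ⟨F, hF⟩ : ∃ F : ℤ → ℤ → ℝ, F = fun a b =>
    (Real.log (nc (X ×ˢ Y) (rd m (m * q) u) (a, b)) -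
      Real.log (nc (X ×ˢ Y) (rm (m * q)) (a, b))) := ⟨_, rfl⟩
  have h1 : ∀ x ∈ X, ∀ y ∈ Y, ls (q := q) m u X Y x y = (∑ b ∈ cl m Y y, (∑ a ∈ cl m X x,
      F a b) / (cl m X x).card) / (cl m Y y).card := by
    intro x hx y hy
    rw [ls_eq m hm u hu X Y x y hx hy, hF]
  have h2 : ∑ x ∈ X, ∑ y ∈ Y, ls (q := q) m u X Y x y =
      ∑ x ∈ X, ∑ y ∈ Y, (∑ b ∈ cl m Y y, (∑ a ∈ cl m X x, F a b) / (cl m X x).card) /
        (cl m Y y).card :=
    Finset.sum_congr rfl fun x hx => Finset.sum_congr rfl fun y hy => h1 x hx y hy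
  rw [h2]
  have h3 : ∀ x ∈ X, ∑ y ∈ Y, (∑ b ∈ cl m Y y, (∑ a ∈ cl m X x, F a b) / (cl m X x).card) /
        (cl m Y y).card = (∑ a ∈ cl m X x, ∑ y ∈ Y, F a y) / (cl m X x).card := by
    intro x _
    rw [avg_cl m Y (fun b => (∑ a ∈ cl m X x, F a b) / (cl m X x).card), ← Finset.sum_div,
      Finset.sum_comm]
  rw [Finset.sum_congr rfl h3, avg_cl m X (fun a => ∑ y ∈ Y, F a y), hF]

end Pool.Agent.Helper28.LN
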