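import Pool.Agent.Helper28.LN.Dil

set_option autoImplicit false

/-!
# Project LINES (MP_120218), L2: sets which are almost invariant under multiplication by `r` primes
-/

namespace Pool.Agent.Helper28.LN

open Finset Pool.Agent.Helper15.GL

/-- the image is large if the mean of the logarithm of the fibres is small -/
theorem image_large {α β : Type} [DecidableEq β] (S : Finset α) (hS : S.Nonempty) (σ : α → β) :
    (S.card : ℝ) * (Real.log S.card - Real.log (S.image σ).card) ≤
      ∑ s ∈ S, Real.log ((S.filter (fun t => σ t = σ s)).card) := by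
  classical
  have hSc : (0 : ℝ) < S.card := by exact_mod_cast hS.card_pos
  have hW : (0 : ℝ) < (S.image σ).card := by exact_mod_cast (hS.image σ).card_pos
  have h1 : ∀ s ∈ S, Real.log S.card - Real.log (S.image σ).card -
      Real.log ((S.filter (fun t => σ t = σ s)).card) ≤
      (S.card : ℝ) / (S.image σ).card * (1 / ((S.filter (fun t => σ t = σ s)).card : ℝ)) - 1 := by
    intro s hs
    have hr : (0 : ℝ) < (S.filter (fun t => σ t = σ s)).card := by
      have : 0 < (S.filter (fun t => σ t = σ s)).card :=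
        Finset.card_pos.2 ⟨s, Finset.mem_filter.2 ⟨hs, rfl⟩⟩
      exact_mod_cast this
    have h2 := Real.log_le_sub_one_of_pos (show 0 < (S.card : ℝ) / (S.image σ).card *
      (1 / ((S.filter (fun t => σ t = σ s)).card : ℝ)) by positivity)
    rw [Real.log_mul (by positivity) (by positivity), Real.log_div hSc.ne' hW.ne',
      Real.log_div one_ne_zero hr.ne', Real.log_one] at h2
    linarith
  have h2 : ∑ s ∈ S, (1 / ((S.filter (fun t => σ t = σ s)).card : ℝ)) = (S.image σ).card := by
    have e1 : ∑ s ∈ S, (1 / ((S.filter (fun t => σ t = σ s)).card : ℝ)) =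
        ∑ w ∈ S.image σ, ∑ s ∈ S.filter (fun s => σ s = w),
          (1 / ((S.filter (fun t => σ t = σ s)).card : ℝ)) :=
      (Finset.sum_fiberwise_of_maps_to (fun s hs => Finset.mem_image_of_mem σ hs) _).symm
    rw [e1]
    have e2 : ∀ w ∈ S.image σ, ∑ s ∈ S.filter (fun s => σ s = w),
          (1 / ((S.filter (fun t => σ t = σ s)).card : ℝ)) = 1 := by
      intro w hw
      have e3 : ∑ s ∈ S.filter (fun s => σ s = w),
          (1 / ((S.filter (fun t => σ t = σ s)).card : ℝ)) =
          ∑ s ∈ S.filter (fun s => σ s = w), (1 / ((S.filter (fun t => σ t = w)).card : ℝ)) := by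
        refine Finset.sum_congr rfl fun s hs => ?_
        rw [(Finset.mem_filter.1 hs).2]
      rw [e3, Finset.sum_const, nsmul_eq_mul, mul_one_div, div_self]
      rw [Finset.mem_image] at hw
      obtain ⟨s, hs, h3⟩ := hw
      have : 0 < (S.filter (fun t => σ t = w)).card :=
        Finset.card_pos.2 ⟨s, Finset.mem_filter.2 ⟨hs, h3⟩⟩
      exact_mod_cast this.ne'
    rw [Finset.sum_congr rfl e2]
    simp
  have h3 := Finset.sum_le_sum h1
  rw [Finset.sum_sub_distrib, Finset.sum_sub_distrib (g := fun _ => (1 : ℝ)), ← Finset.mul_sum,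
    h2, Finset.sum_const, nsmul_eq_mul, Finset.sum_const, nsmul_eq_mul, mul_one,
    div_mul_cancel₀ _ hW.ne'] at h3
  linarith

/-- from the count for a dilation to the sumset -/
theorem grow_of_count (A X : Finset ℤ) (hA : A.Nonempty) (hX : X.Nonempty) (u : ℕ) (κ : ℝ)
    (hκ : 0 ≤ κ) (hbad : 2 * ((bad (u : ℚ) A).card : ℝ) ≤ A.card)
    (hcount : ∑ s ∈ X ×ˢ A, Real.log (nc (X ×ˢ A) (rs 1 u) s) ≤
      κ * (X.card * A.card * (Real.log X.card + Real.log A.card))) :
    Real.log X.card + Real.log (good (u : ℚ) A).card -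
      2 * κ * (Real.log X.card + Real.log A.card) ≤
        Real.log ((Finset.image₂ (fun a b => a + b) X A).card) := by
  classical
  obtain ⟨G, hG⟩ : ∃ G : Finset ℤ, G = good (u : ℚ) A := ⟨_, rfl⟩
  have hAc : (0 : ℝ) < A.card := by exact_mod_cast hA.card_pos
  have hXc : (0 : ℝ) < X.card := by exact_mod_cast hX.card_pos
  have hGA : G ⊆ A := by rw [hG]; exact good_subset _ _
  have hGb := card_good_add_bad (u : ℚ) A
  rw [← hG] at hGb ⊢
  have hGb' : (G.card : ℝ) + (bad (u : ℚ) A).card = A.card := by exact_mod_cast hGb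
  have hG2 : (A.card : ℝ) ≤ 2 * G.card := by linarith
  have hGc : (0 : ℝ) < G.card := by linarith
  have hGne : G.Nonempty := by
    rw [← Finset.card_pos]
    exact_mod_cast hGc
  obtain ⟨σ, hσ⟩ : ∃ σ : ℤ × ℤ → ℤ, σ = fun s : ℤ × ℤ => s.1 + (u : ℤ) * s.2 := ⟨_, rfl⟩
  have hlarge := image_large (X ×ˢ G) (hX.product hGne) σ
  have hsub : (X ×ˢ G).image σ ⊆ Finset.image₂ (fun a b => a + b) X A := by
    intro w hw
    rw [Finset.mem_image] at hw
    obtain ⟨s, hs, rfl⟩ := hw
    rw [Finset.mem_product, hG, mem_good] at hs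
    rw [hσ]
    simp only
    have h1 : sh (u : ℚ) s.2 = u * s.2 := by
      have := hs.2.2.2
      exact_mod_cast this
    rw [← h1]
    exact Finset.mem_image₂_of_mem hs.1 hs.2.2.1
  have hWpos : (0 : ℝ) < ((X ×ˢ G).image σ).card := by
    exact_mod_cast ((hX.product hGne).image σ).card_pos
  have hmono : Real.log ((X ×ˢ G).image σ).card ≤
      Real.log ((Finset.image₂ (fun a b => a + b) X A).card) :=
    Real.log_le_log hWpos (by exact_mod_cast Finset.card_le_card hsub)
  have hfib : ∑ s ∈ X ×ˢ G, Real.log (((X ×ˢ G).filter (fun t => σ t = σ s)).card) ≤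
      ∑ s ∈ X ×ˢ A, Real.log (nc (X ×ˢ A) (rs 1 u) s) := by
    refine le_trans (Finset.sum_le_sum (g := fun s => Real.log (nc (X ×ˢ A) (rs 1 u) s))
      fun s hs => ?_) (Finset.sum_le_sum_of_subset_of_nonneg
        (Finset.product_subset_product_right hGA) fun s _ _ => Real.log_natCast_nonneg _)
    have hr : (0 : ℝ) < ((X ×ˢ G).filter (fun t => σ t = σ s)).card := by
      have : 0 < ((X ×ˢ G).filter (fun t => σ t = σ s)).card :=
        Finset.card_pos.2 ⟨s, Finset.mem_filter.2 ⟨hs, rfl⟩⟩
      exact_mod_cast this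
    refine Real.log_le_log hr ?_
    have : ((X ×ˢ G).filter (fun t => σ t = σ s)).card ≤ nc (X ×ˢ A) (rs 1 u) s := by
      unfold nc
      refine Finset.card_le_card fun t ht => ?_
      rw [Finset.mem_filter, hσ] at ht
      rw [mem_ncs]
      refine ⟨Finset.product_subset_product_right hGA ht.1, ⟨?_, ?_⟩, ht.2⟩
      · simp
      · simp
    exact_mod_cast this
  have hSc : (((X ×ˢ G).card : ℕ) : ℝ) = X.card * G.card := by
    rw [Finset.card_product, Nat.cast_mul]
  have hL0 : 0 ≤ Real.log X.card + Real.log A.card :=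
    add_nonneg (Real.log_natCast_nonneg _) (Real.log_natCast_nonneg _)
  rw [hSc, Real.log_mul hXc.ne' hGc.ne'] at hlarge
  have h1 := hlarge.trans (hfib.trans hcount)
  have h2 : κ * (X.card * A.card * (Real.log X.card + Real.log A.card)) ≤
      X.card * G.card * (2 * κ * (Real.log X.card + Real.log A.card)) := by
    have e1 : 0 ≤ κ * (X.card * (Real.log X.card + Real.log A.card)) := by positivity
    have e2 := mul_le_mul_of_nonneg_left hG2 e1
    linarith
  have h3 := le_of_mul_le_mul_left (h1.trans h2) (mul_pos hXc hGc)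
  linarith

/-- the largest element leaves the set -/
theorem bad_pos (A : Finset ℤ) (hA : 2 ≤ A.card) (p : ℕ) (hp : 2 ≤ p) :
    0 < (bad (p : ℚ) A).card := by
  classical
  have hne : A.Nonempty := Finset.card_pos.1 (by omega)
  obtain ⟨a, ha, hmax⟩ := Finset.exists_max_image A (fun x => |x|) hne
  rw [Finset.card_pos]
  refine ⟨a, ?_⟩
  have ha0 : a ≠ 0 := by
    rintro rfl
    obtain ⟨b, hb, hb0⟩ := Finset.exists_mem_ne (by omega : 1 < A.card) 0
    have := hmax b hb
    simp only [abs_zero] at this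
    exact hb0 (abs_eq_zero.1 (le_antisymm this (abs_nonneg b)))
  unfold bad
  rw [Finset.mem_filter]
  refine ⟨ha, fun b hb hba => ?_⟩
  have h1 : b = p * a := by exact_mod_cast hba
  have h2 := hmax b hb
  rw [h1, abs_mul, Nat.abs_cast] at h2
  have h3 : 0 < |a| := abs_pos.2 ha0
  have h4 : (2 : ℤ) ≤ p := by exact_mod_cast hp
  nlinarith

/-- the choice of `K` -/
theorem exists_K (M : ℕ) (hM : 1 ≤ M) (r : ℕ) (hr : 1 ≤ r) :
    ∃ K : ℕ, 1 ≤ K ∧ M * Real.log K ≤ Real.log r ∧
      Real.log r ≤ M * (Real.log K + Real.log 2) := by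
  have hex : ∃ K : ℕ, r < (K + 1) ^ M := by
    refine ⟨r, ?_⟩
    calc r < r + 1 := by omega
      _ = (r + 1) ^ 1 := (pow_one _).symm
      _ ≤ (r + 1) ^ M := Nat.pow_le_pow_right (by omega) hM
  classical
  obtain ⟨K, hK⟩ : ∃ K : ℕ, K = Nat.find hex := ⟨_, rfl⟩
  have h1 : r < (K + 1) ^ M := by rw [hK]; exact Nat.find_spec hex
  have hK1 : 1 ≤ K := by
    by_contra h
    have h0 : K = 0 := by omega
    rw [h0, zero_add, one_pow] at h1
    omega
  have h2 : K ^ M ≤ r := by
    by_contra h
    push Not at h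
    have h3 : r < (K - 1 + 1) ^ M := by
      rw [Nat.sub_add_cancel hK1]
      exact h
    have h4 := Nat.find_min hex (m := K - 1) (by omega)
    exact h4 h3
  have hKr : (1 : ℝ) ≤ K := by exact_mod_cast hK1
  have hrr : (1 : ℝ) ≤ r := by exact_mod_cast hr
  refine ⟨K, hK1, ?_, ?_⟩
  · rw [← Real.log_pow]
    exact Real.log_le_log (by positivity) (by exact_mod_cast h2)
  · rw [← Real.log_mul (by positivity) (by norm_num), ← Real.log_pow]
    refine Real.log_le_log (by linarith) ?_
    have h3 : ((r : ℕ) : ℝ) ≤ ((K + 1) ^ M : ℕ) := by exact_mod_cast h1.le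
    refine h3.trans ?_
    push_cast
    exact pow_le_pow_left₀ (by positivity) (by linarith) M

/-- the larger half of the primes as chain, the smaller half as dilations -/
theorem halves (P : Finset ℕ) (hP : ∀ p ∈ P, p.Prime) : ∃ (U : Finset ℕ) (r' : ℕ) (q : ℕ → ℕ),
    U ⊆ P ∧ 2 * U.card + 1 ≥ P.card ∧ 2 * r' ≥ P.card ∧ (∀ i < r', q i ∈ P) ∧
    (∀ i < r', ∀ l < r', i ≠ l → q i ≠ q l) ∧ (∀ i < r', ∀ u ∈ U, 0 < u ∧ u < q i) := by
  classical
  obtain ⟨r, hr⟩ : ∃ r : ℕ, r = P.card := ⟨_, rfl⟩
  obtain ⟨e, he⟩ : ∃ e : Fin r ↪o ℕ, e = P.orderEmbOfFin hr.symm := ⟨_, rfl⟩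
  have heP : ∀ i, e i ∈ P := by
    intro i
    rw [he]
    exact Finset.orderEmbOfFin_mem P hr.symm i
  obtain ⟨F, hF⟩ : ∃ F : ℕ → ℕ, F = fun i => if h : i < r then e ⟨i, h⟩ else 0 := ⟨_, rfl⟩
  refine ⟨(Finset.range (r / 2)).image F, r - r / 2,
    fun i => if h : r / 2 + i < r then e ⟨r / 2 + i, h⟩ else 0, ?_, ?_, ?_, ?_, ?_, ?_⟩
  · intro u hu
    rw [Finset.mem_image] at hu
    obtain ⟨i, hi, rfl⟩ := hu
    rw [Finset.mem_range] at hi
    rw [hF]
    simp only [show i < r by omega, dif_pos]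
    exact heP _
  · rw [Finset.card_image_of_injOn, Finset.card_range, ← hr]
    · omega
    · intro i hi l hl h
      rw [Finset.coe_range, Set.mem_Iio] at hi hl
      rw [hF] at h
      simp only [show i < r by omega, show l < r by omega, dif_pos] at h
      have := e.injective h
      rw [Fin.mk.injEq] at this
      exact this
  · omega
  · intro i hi
    simp only [show r / 2 + i < r by omega, dif_pos]
    exact heP _
  · intro i hi l hl hil
    simp only [show r / 2 + i < r by omega, show r / 2 + l < r by omega, dif_pos]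
    intro h
    have := e.injective h
    rw [Fin.mk.injEq] at this
    omega
  · intro i hi u hu
    simp only [show r / 2 + i < r by omega, dif_pos]
    rw [Finset.mem_image] at hu
    obtain ⟨a, ha, rfl⟩ := hu
    rw [Finset.mem_range] at ha
    rw [hF]
    simp only [show a < r by omega, dif_pos]
    refine ⟨(hP _ (heP _)).pos, ?_⟩
    rw [OrderEmbedding.lt_iff_lt, Fin.lt_def]
    simp only
    omega

end Pool.Agent.Helper28.LN
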