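import Pool.Agent.Helper28.LN.L2

set_option autoImplicit false

/-!
# Project LINES (MP_120218), L2Main: theorem L2
-/

namespace Pool.Agent.Helper28.LN

open Finset Pool.Agent.Helper15.GL

/-- few primes: this is L1 -/
theorem few_primes (C1 : ℝ) (hC1 : 0 < C1) (η : ℝ)
    (h1 : ∀ (A : Finset ℤ) (r : ℕ) (g : ℕ → ℚ) (q : ℕ → ℕ), A.Nonempty →
      (∀ i < r, g i ≠ 0) → (∀ i < r, (q i).Prime) → (∀ i < r, padicValRat (q i) (g i) ≠ 0) →
      (∀ i < r, ∀ l < r, i < l → padicValRat (q i) (g i) * padicValRat (q l) (g i) ≤ 0) →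
      (∀ i < r, ∀ l < r, i ≠ l → q i ≠ q l) →
      C1 * Real.log A.card ≤ ∑ i ∈ Finset.range r,
        (if C1 * (bad (g i) A).card ≤ A.card then (A.card : ℝ) / (bad (g i) A).card else 0) →
      Grows η A)
    (A : Finset ℤ) (hA : 2 ≤ A.card) (P : Finset ℕ) (hP : ∀ p ∈ P, p.Prime) (N : ℝ)
    (hN : C1 ≤ N) (hbad : ∀ p ∈ P, N * (bad (p : ℚ) A).card ≤ A.card)
    (hsum : C1 * Real.log A.card ≤ N * P.card) : Grows η A := by
  classical
  obtain ⟨r, hr⟩ : ∃ r : ℕ, r = P.card := ⟨_, rfl⟩
  obtain ⟨e, he⟩ : ∃ e : Fin r ↪o ℕ, e = P.orderEmbOfFin hr.symm := ⟨_, rfl⟩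
  have heP : ∀ i, e i ∈ P := by
    intro i
    rw [he]
    exact Finset.orderEmbOfFin_mem P hr.symm i
  obtain ⟨q, hq⟩ : ∃ q : ℕ → ℕ, q = fun i => if h : i < r then e ⟨i, h⟩ else 0 := ⟨_, rfl⟩
  have hqP : ∀ i < r, q i ∈ P := by
    intro i hi
    rw [hq]
    simp only [hi, dif_pos]
    exact heP _
  have hqinj : ∀ i < r, ∀ l < r, i ≠ l → q i ≠ q l := by
    intro i hi l hl hil h
    rw [hq] at h
    simp only [hi, hl, dif_pos] at h
    have := e.injective h
    rw [Fin.mk.injEq] at this
    exact hil this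
  have hself : ∀ i < r, padicValRat (q i) ((q i : ℕ) : ℚ) = 1 := by
    intro i hi
    have := Fact.mk (hP _ (hqP i hi))
    exact padicValRat.self (hP _ (hqP i hi)).one_lt
  have hother : ∀ i < r, ∀ l < r, i ≠ l → padicValRat (q l) ((q i : ℕ) : ℚ) = 0 := by
    intro i hi l hl hil
    have f1 := Fact.mk (hP _ (hqP i hi))
    have f2 := Fact.mk (hP _ (hqP l hl))
    rw [padicValRat.of_nat, padicValNat_primes (hqinj l hl i hi (Ne.symm hil))]
    rfl
  refine h1 A r (fun i => (q i : ℚ)) q (Finset.card_pos.1 (by omega)) ?_ ?_ ?_ ?_ hqinj ?_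
  · intro i hi
    have := (hP _ (hqP i hi)).pos
    simp only [ne_eq, Nat.cast_eq_zero]
    omega
  · exact fun i hi => hP _ (hqP i hi)
  · intro i hi
    rw [hself i hi]
    exact one_ne_zero
  · intro i hi l hl hil
    rw [hother i hi l hl (by omega), mul_zero]
  · refine hsum.trans ?_
    have h2 : (N * P.card : ℝ) = ∑ _i ∈ Finset.range r, N := by
      rw [Finset.sum_const, Finset.card_range, nsmul_eq_mul, hr, mul_comm]
    rw [h2]
    refine Finset.sum_le_sum fun i hi => ?_
    rw [Finset.mem_range] at hi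
    have hb := bad_pos A hA (q i) (hP _ (hqP i hi)).two_le
    have hbr : (0 : ℝ) < (bad ((q i : ℕ) : ℚ) A).card := by exact_mod_cast hb
    have h3 := hbad _ (hqP i hi)
    rw [if_pos ((mul_le_mul_of_nonneg_right hN hbr.le).trans h3), le_div_iff₀ hbr]
    exact h3

/-- **Theorem L2, growth form.** -/
theorem primes_grow (η : ℝ) (hη : 0 < η) (hη1 : η ≤ 1) : ∃ C : ℝ, 0 < C ∧
    ∀ (A : Finset ℤ) (P : Finset ℕ) (N : ℝ), A.Nonempty → C ≤ N → (∀ p ∈ P, p.Prime) →
      (∀ p ∈ P, N * (bad (p : ℚ) A).card ≤ A.card) →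
      C * Real.log A.card ≤ N * P.card * Real.log (P.card + 1) → Grows η A := by
  classical
  obtain ⟨κ, hκd⟩ : ∃ κ : ℝ, κ = η / 6 := ⟨_, rfl⟩
  have hκ : 0 < κ := by rw [hκd]; positivity
  have hκ1 : κ ≤ 1 := by rw [hκd]; linarith
  obtain ⟨θ, L0, hθ0, hθ1, hL0, hNode⟩ := node_avg κ hκ hκ1
  obtain ⟨C1, hC1, hL1⟩ := lines_grow η hη hη1
  obtain ⟨M, hMd⟩ : ∃ M : ℕ, M = ⌈64 / κ⌉₊ := ⟨_, rfl⟩
  have hM64 : 64 / κ ≤ M := by rw [hMd]; exact Nat.le_ceil _
  have hMr : (1 : ℝ) ≤ M := by
    have : 1 ≤ 64 / κ := by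
      rw [le_div_iff₀ hκ]
      linarith
    linarith
  have hM1 : 1 ≤ M := by exact_mod_cast hMr
  have hMκ : 64 ≤ κ * M := by
    rw [div_le_iff₀ hκ] at hM64
    linarith
  -- threshold for the number of primes
  obtain ⟨R, hR⟩ : ∃ R : ℝ, R = max (2 * M * Real.log 2) (max (16 * L0 / κ) (Real.log 9)) :=
    ⟨_, rfl⟩
  have hlog2 : 0 < Real.log 2 := Real.log_pos (by norm_num)
  have hR0 : 0 < R := by
    rw [hR]
    exact lt_max_of_lt_left (by positivity)
  obtain ⟨δ, hδ⟩ : ∃ δ : ℝ, δ = κ * θ := ⟨_, rfl⟩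
  have hδ0 : 0 < δ := by rw [hδ]; positivity
  have hδ1 : δ ≤ 1 := by
    rw [hδ]
    exact mul_le_one₀ hκ1 hθ0.le hθ1
  obtain ⟨C, hC⟩ : ∃ C : ℝ, C = C1 * (R + 1) + 52 / δ + 4 / κ + 1665 * M / δ ^ 2 := ⟨_, rfl⟩
  have hC0 : 0 < C := by rw [hC]; positivity
  have c1 : C1 * (R + 1) ≤ C := by
    rw [hC]
    have e1 : 0 < 52 / δ := by positivity
    have e2 : 0 < 4 / κ := by positivity
    have e3 : 0 < 1665 * M / δ ^ 2 := by positivity
    linarith
  have c2 : 52 / δ ≤ C := by
    rw [hC]
    have e1 : 0 < C1 * (R + 1) := by positivity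
    have e2 : 0 < 4 / κ := by positivity
    have e3 : 0 < 1665 * M / δ ^ 2 := by positivity
    linarith
  have c3 : 4 / κ ≤ C := by
    rw [hC]
    have e1 : 0 < C1 * (R + 1) := by positivity
    have e2 : 0 < 52 / δ := by positivity
    have e3 : 0 < 1665 * M / δ ^ 2 := by positivity
    linarith
  have c4 : 1665 * M / δ ^ 2 ≤ C := by
    rw [hC]
    have e1 : 0 < C1 * (R + 1) := by positivity
    have e2 : 0 < 52 / δ := by positivity
    have e3 : 0 < 4 / κ := by positivity
    linarith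
  refine ⟨C, hC0, ?_⟩
  intro A P N hA hN hP hbad hsum
  have hN0 : 0 < N := lt_of_lt_of_le hC0 hN
  rcases Nat.lt_or_ge A.card 2 with hA1 | hA2
  · -- one element
    have hA1' : A.card = 1 := by
      have := hA.card_pos
      omega
    intro X hX
    obtain ⟨a, ha⟩ := Finset.card_eq_one.1 hA1'
    have hX1 : (1 : ℝ) ≤ X.card := by exact_mod_cast hX.card_pos
    have e1 : X.card ≤ (Finset.image₂ (fun a b => a + b) X A).card := by
      refine Finset.card_le_card_of_injOn (fun x => x + a) ?_ ?_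
      · intro x hx
        exact Finset.mem_coe.2 (Finset.mem_image₂_of_mem (Finset.mem_coe.1 hx)
          (by rw [ha]; exact Finset.mem_singleton_self a))
      · intro x _ y _ h
        exact add_right_cancel h
    have e2 := Real.log_le_log (by linarith) (show (X.card : ℝ) ≤
      (Finset.image₂ (fun a b => a + b) X A).card by exact_mod_cast e1)
    rw [hA1', Nat.cast_one, Real.log_one, add_zero]
    have e3 := mul_nonneg hη.le (Real.log_nonneg hX1)
    linarith
  obtain ⟨r, hr⟩ : ∃ r : ℕ, r = P.card := ⟨_, rfl⟩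
  rw [← hr] at hsum
  have hAr : (2 : ℝ) ≤ A.card := by exact_mod_cast hA2
  have hAc : (0 : ℝ) < A.card := by linarith
  have hlogA : 0 < Real.log A.card := Real.log_pos (by linarith)
  have hr0 : (0 : ℝ) ≤ r := Nat.cast_nonneg _
  by_cases hrR : Real.log (r + 1) ≤ R + 1
  · -- few primes
    refine few_primes C1 hC1 η hL1 A hA2 P hP N ?_ hbad ?_
    · have : C1 ≤ C1 * (R + 1) := by nlinarith
      linarith
    · rw [← hr]
      have e1 : N * r * Real.log (r + 1) ≤ N * r * (R + 1) :=
        mul_le_mul_of_nonneg_left hrR (by positivity)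
      have e2 : C1 * (R + 1) * Real.log A.card ≤ C * Real.log A.card :=
        mul_le_mul_of_nonneg_right c1 hlogA.le
      have e3 : (R + 1) * (C1 * Real.log A.card) ≤ (R + 1) * (N * r) := by linarith
      exact le_of_mul_le_mul_left e3 (by linarith)
  push Not at hrR
  -- many primes
  have hr1 : 1 ≤ r := by
    by_contra h
    have : r = 0 := by omega
    rw [this] at hrR
    simp at hrR
    linarith
  have hr1' : (1 : ℝ) ≤ r := by exact_mod_cast hr1
  have hlogr : R < Real.log r := by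
    have e1 : Real.log (r + 1) ≤ Real.log r + Real.log 2 := by
      rw [← Real.log_mul (by positivity) (by norm_num)]
      exact Real.log_le_log (by positivity) (by linarith)
    have e2 : Real.log 2 ≤ 1 := by
      have := Real.log_le_sub_one_of_pos (show (0 : ℝ) < 2 by norm_num)
      linarith
    linarith
  have r1 : 2 * M * Real.log 2 ≤ Real.log r := by
    have : 2 * M * Real.log 2 ≤ R := by rw [hR]; exact le_max_left _ _
    linarith
  have r2 : 16 * L0 / κ ≤ Real.log r := by
    have : 16 * L0 / κ ≤ R := by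
      rw [hR]; exact (le_max_left _ _).trans (le_max_right _ _)
    linarith
  have r3 : Real.log 9 ≤ Real.log r := by
    have : Real.log 9 ≤ R := by
      rw [hR]; exact (le_max_right _ _).trans (le_max_right _ _)
    linarith
  have hr9 : (9 : ℝ) ≤ r := (Real.log_le_log_iff (by norm_num) (by linarith)).1 r3
  have hr9' : 9 ≤ r := by exact_mod_cast hr9
  obtain ⟨K, hK1, hKa, hKb⟩ := exists_K M hM1 r hr1
  obtain ⟨U, r', q, hUP, hUc, hr', hqP, hqinj, hUq⟩ := halves P hP
  rw [← hr] at hUc hr'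
  have hU2 : 2 ≤ U.card := by omega
  have hlogU : Real.log r ≤ 2 * Real.log U.card := by
    have e1 : (r : ℝ) ≤ (U.card : ℝ) ^ 2 := by
      have e2 : r ≤ 2 * U.card + 1 := hUc
      have e3 : 4 ≤ U.card := by omega
      have e4 : r ≤ U.card ^ 2 := by nlinarith
      exact_mod_cast e4
    have e2 := Real.log_le_log (by linarith) e1
    rw [Real.log_pow] at e2
    exact_mod_cast e2
  have hlogr0 : 0 ≤ Real.log r := Real.log_nonneg hr1'
  have hKU : Real.log K + L0 ≤ κ / 4 * Real.log U.card := by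
    have e1 : Real.log K ≤ κ / 64 * Real.log r := by
      have hlK : 0 ≤ Real.log K := Real.log_nonneg (by exact_mod_cast hK1)
      have e2 : 64 * Real.log K ≤ κ * M * Real.log K :=
        mul_le_mul_of_nonneg_right hMκ hlK
      have e3 := mul_le_mul_of_nonneg_left hKa hκ.le
      linarith
    have e2 : L0 ≤ κ / 16 * Real.log r := by
      rw [div_le_iff₀ hκ] at r2
      linarith
    have e3 := mul_le_mul_of_nonneg_left hlogU hκ.le
    have e4 := mul_nonneg hκ.le hlogr0
    linarith
  have hlogK : Real.log r ≤ 2 * M * Real.log K := by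
    have e1 : Real.log r ≤ M * Real.log K + M * Real.log 2 := by
      rw [mul_add] at hKb
      exact hKb
    linarith
  -- the exponents
  obtain ⟨v, hv⟩ : ∃ v : ℕ, v = ⌊δ * N / 26⌋₊ := ⟨_, rfl⟩
  have hδN : 52 ≤ δ * N := by
    have := c2.trans hN
    rw [div_le_iff₀ hδ0] at this
    linarith
  have hv1 : (v : ℝ) ≤ δ * N / 26 := by
    rw [hv]
    exact Nat.floor_le (by positivity)
  have hv2 : δ * N / 52 ≤ v := by
    have := Nat.sub_one_lt_floor (δ * N / 26)
    rw [← hv] at this
    linarith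
  have hqprime : ∀ i < r', (q i).Prime := fun i hi => hP _ (hqP i hi)
  have hchain := greedyP r' q hqprime A (fun m p => (nH m p K θ A : ℝ) ≤ κ * A.card) (by
    intro j
    by_contra hcon
    push Not at hcon
    obtain ⟨_, hst⟩ := hcon
    have h1 := stuckH_bound r' q hqprime hqinj A hA j (fun i => (q i : ℚ)) (by
        intro i hi
        have := (hqprime i hi).pos
        simp only [ne_eq, Nat.cast_eq_zero]
        omega) (by
        intro i hi
        have := Fact.mk (hqprime i hi)
        rw [padicValRat.self (hqprime i hi).one_lt]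
        exact one_pos) (by
        intro i hi l hl hil
        have f1 := Fact.mk (hqprime i hi)
        have f2 := Fact.mk (hqprime l hl)
        rw [padicValRat.of_nat, padicValNat_primes (hqinj l hl i hi (by omega))]
        simp) K hK1 θ κ hθ0 hθ1 hκ hst (fun _ => v) (by
        intro i hi
        have e1 := hbad _ (hqP i hi)
        have e2 := mul_le_mul_of_nonneg_right hv1
          (Nat.cast_nonneg (α := ℝ) (bad ((q i : ℕ) : ℚ) A).card)
        have e3 := mul_le_mul_of_nonneg_left e1 hδ0.le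
        rw [← hδ]
        linarith)
    rw [Finset.sum_const, Finset.card_range, nsmul_eq_mul] at h1
    have e0 : θ * κ = δ := by rw [hδ]; ring
    rw [e0] at h1
    -- lower bound of the left side
    have e1 : (r : ℝ) / 2 ≤ r' := by
      have : (r : ℝ) ≤ 2 * r' := by exact_mod_cast hr'
      linarith
    have e2 : Real.log r / (2 * M) ≤ Real.log K := by
      rw [div_le_iff₀ (by positivity)]
      linarith
    have e3 : Real.log (r + 1) ≤ 2 * Real.log r := by
      have : Real.log (r + 1) ≤ Real.log ((r : ℝ) ^ 2) :=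
        Real.log_le_log (by positivity) (by nlinarith)
      rw [Real.log_pow] at this
      exact_mod_cast this
    have e4 : δ / 4 * (Real.log r / (2 * M)) * (r / 2 * (δ * N / 52)) ≤
        δ / 4 * Real.log K * (r' * v) := by
      refine mul_le_mul ?_ ?_ (by positivity) ?_
      · exact mul_le_mul_of_nonneg_left e2 (by positivity)
      · exact mul_le_mul e1 hv2 (by positivity) (by positivity)
      · exact mul_nonneg (by positivity) (Real.log_nonneg (by exact_mod_cast hK1))
    have e5 : δ / 4 * (Real.log r / (2 * M)) * (r / 2 * (δ * N / 52)) =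
        δ ^ 2 / (832 * M) * (N * r * Real.log r) := by
      field_simp
      ring
    rw [e5] at e4
    have e6 := e4.trans h1
    -- contradiction
    have e7 : C * Real.log A.card ≤ 2 * (N * r * Real.log r) := by
      have := mul_le_mul_of_nonneg_left e3 (show 0 ≤ N * r by positivity)
      linarith
    have e8 : 1665 * M / δ ^ 2 * Real.log A.card ≤ 2 * (N * r * Real.log r) :=
      (mul_le_mul_of_nonneg_right c4 hlogA.le).trans e7
    have e9 := mul_le_mul_of_nonneg_left e8 (show 0 ≤ δ ^ 2 / (832 * M) by positivity)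
    have e10 : δ ^ 2 / (832 * M) * (1665 * M / δ ^ 2 * Real.log A.card) =
        1665 / 832 * Real.log A.card := by
      field_simp
    rw [e10] at e9
    linarith)
  obtain ⟨J, m, p, h0, h1, h2, h3, h4⟩ := hchain
  have hpp : ∀ i < J, (p i).Prime := by
    intro i hi
    obtain ⟨l, hl, hpl⟩ := h2 i hi
    rw [hpl]
    exact hqprime l hl
  have hUlt : ∀ i < J, ∀ u ∈ U, 0 < u ∧ u < p i := by
    intro i hi u hu
    obtain ⟨l, hl, hpl⟩ := h2 i hi
    rw [hpl]
    exact hUq l hl u hu
  have hUne : U.Nonempty := Finset.card_pos.1 (by omega)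
  intro X hX
  have hX1 : (1 : ℝ) ≤ X.card := by exact_mod_cast hX.card_pos
  have hXlog : 0 ≤ Real.log X.card := Real.log_nonneg hX1
  have hdc := dil_chain hκ hNode κ hκ.le X A U hU2 K hK1 hKU m p J h0 h1 hpp (by
      intro i hi u hu h
      rw [ZMod.natCast_eq_zero_iff] at h
      have := hUlt i hi u hu
      exact absurd (Nat.le_of_dvd this.1 h) (by omega)) (by
      intro i hi u hu w hw h
      have e1 := hUlt i hi u hu
      have e2 := hUlt i hi w hw
      have h' : (u : ZMod (p i)) = w := h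
      rw [ZMod.natCast_eq_natCast_iff] at h'
      have h5 : u % (p i) = w % (p i) := h'
      rw [Nat.mod_eq_of_lt e1.2, Nat.mod_eq_of_lt e2.2] at h5
      exact h5) h3 h4
  -- one good dilation
  obtain ⟨u, hu, hcu⟩ : ∃ u ∈ U, ∑ s ∈ X ×ˢ A, Real.log (nc (X ×ˢ A) (rs 1 u) s) ≤
      (κ + κ) * (X.card * A.card * (Real.log X.card + Real.log A.card)) := by
    by_contra hcon
    push Not at hcon
    have e1 := Finset.sum_lt_sum_of_nonempty hUne hcon
    rw [Finset.sum_const, nsmul_eq_mul] at e1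
    linarith
  have hb := hbad u (hUP hu)
  have hup := hP u (hUP hu)
  have hbr : (0 : ℝ) ≤ (bad (u : ℚ) A).card := Nat.cast_nonneg _
  have hN4 : 4 ≤ κ * N := by
    have := c3.trans hN
    rw [div_le_iff₀ hκ] at this
    linarith
  have hN4' : 4 ≤ N := by nlinarith
  have hbN : (bad (u : ℚ) A).card ≤ A.card / N := by
    rw [le_div_iff₀ hN0]
    linarith
  have hb2 : 2 * ((bad (u : ℚ) A).card : ℝ) ≤ A.card := by nlinarith
  have hg := grow_of_count A X hA hX u (κ + κ) (by linarith) hb2 hcu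
  -- the loss of the bad elements
  have hGb := card_good_add_bad (u : ℚ) A
  have hGb' : ((good (u : ℚ) A).card : ℝ) + (bad (u : ℚ) A).card = A.card := by
    exact_mod_cast hGb
  have hGc : (0 : ℝ) < (good (u : ℚ) A).card := by linarith
  have hlogG : Real.log A.card - 2 / N ≤ Real.log (good (u : ℚ) A).card := by
    have e1 := Real.one_sub_inv_le_log_of_pos (show (0 : ℝ) < (good (u : ℚ) A).card / A.card
      by positivity)
    rw [Real.log_div hGc.ne' hAc.ne', inv_div] at e1
    have e2 : (A.card : ℝ) / (good (u : ℚ) A).card ≤ 1 + 2 / N := by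
      rw [div_le_iff₀ hGc]
      have e3 : (A.card : ℝ) * (1 - 1 / N) ≤ (good (u : ℚ) A).card := by
        have : (A.card : ℝ) * (1 - 1 / N) = A.card - A.card / N := by ring
        linarith
      have e4 : 0 < 1 / N := by positivity
      have e5 : 1 / N ≤ 1 / 4 := one_div_le_one_div_of_le (by norm_num) hN4'
      have e6 : (1 + 2 / N) * ((A.card : ℝ) * (1 - 1 / N)) ≤
          (1 + 2 / N) * (good (u : ℚ) A).card :=
        mul_le_mul_of_nonneg_left e3 (by positivity)
      have e7 : (1 + 2 / N) * ((A.card : ℝ) * (1 - 1 / N)) =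
          A.card * (1 + 1 / N * (1 - 2 * (1 / N))) := by ring
      have e8 : (A.card : ℝ) * 1 ≤ A.card * (1 + 1 / N * (1 - 2 * (1 / N))) := by
        refine mul_le_mul_of_nonneg_left ?_ hAc.le
        nlinarith
      linarith
    linarith
  have hN2 : 2 / N ≤ κ * Real.log A.card := by
    have e1 : 2 / N ≤ κ / 2 := by
      rw [div_le_iff₀ hN0]
      linarith
    have e2 : (1 : ℝ) / 2 ≤ Real.log A.card := by
      have e3 := Real.log_le_log (by norm_num) hAr
      have e4 := Real.one_sub_inv_le_log_of_pos (show (0 : ℝ) < 2 by norm_num)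
      norm_num at e4
      linarith
    nlinarith
  have e0 : (1 - η) * (Real.log X.card + Real.log A.card) =
      Real.log X.card + Real.log A.card - 6 * κ * (Real.log X.card + Real.log A.card) := by
    rw [hκd]
    ring
  rw [e0]
  have e1 := mul_nonneg hκ.le hXlog
  have e2 := mul_nonneg hκ.le hlogA.le
  linarith

/-- **Theorem L2.** -/
theorem primes_large (k : ℕ) (ε b : ℝ) (hε : 0 < ε) : ∃ C : ℝ, 0 < C ∧
    ∀ (A X : Finset ℤ) (P : Finset ℕ) (N : ℝ), A.Nonempty → X.Nonempty →
      (X.card : ℝ) ≤ (A.card : ℝ) ^ b → C ≤ N → (∀ p ∈ P, p.Prime) →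
      (∀ p ∈ P, N * (bad (p : ℚ) A).card ≤ A.card) →
      C * Real.log A.card ≤ N * P.card * Real.log (P.card + 1) →
      (X.card : ℝ) * (A.card : ℝ) ^ ((k : ℝ) - ε) ≤ (sk k X A).card := by
  obtain ⟨η, hη, hη1, h⟩ := sk_large k ε b hε
  obtain ⟨C, hC, hL⟩ := primes_grow η hη hη1
  exact ⟨C, hC, fun A X P N hA hX hXb hN hP hbad hsum =>
    h A X hA hX hXb (hL A P N hA hN hP hbad hsum)⟩

end Pool.Agent.Helper28.LN
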