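import Pool.Agent.Helper28.LN.NodeT

set_option autoImplicit false

/-!
# Project LINES (MP_120218), Mid: dilating a law carried by few points

If the law `g` on `ZMod q` is essentially carried by `K` points then for most dilations `u` in a set
`U` of residues with `|U|` much larger than `K` the convolution of any law `f` with the dilation of
`g` loses little entropy.
-/

namespace Pool.Agent.Helper28.LN

open Finset Pool.Agent.Helper15.GL

variable {q : ℕ} [hq : Fact q.Prime]

/-- the dilated law -/
def du (u : ZMod q) (g : ZMod q → ℝ) : ZMod q → ℝ := fun b => g (u⁻¹ * b)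

theorem sum_du (u : ZMod q) (hu : u ≠ 0) (g F : ZMod q → ℝ) :
    ∑ b, du u g b * F b = ∑ b, g b * F (u * b) := by
  rw [← Equiv.sum_comp (Equiv.mulLeft₀ u hu)]
  refine Finset.sum_congr rfl fun b _ => ?_
  unfold du
  rw [Equiv.mulLeft₀_apply, inv_mul_cancel_left₀ hu]

theorem sum_du_one (u : ZMod q) (hu : u ≠ 0) (g : ZMod q → ℝ) :
    ∑ b, du u g b = ∑ b, g b := by
  have h := sum_du u hu g (fun _ => 1)
  simpa using h

theorem du_nonneg (u : ZMod q) (g : ZMod q → ℝ) (hg : ∀ b, 0 ≤ g b) : ∀ b, 0 ≤ du u g b :=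
  fun _ => hg _

theorem ent_du (u : ZMod q) (hu : u ≠ 0) (g : ZMod q → ℝ) : ent (du u g) = ent g := by
  unfold ent
  rw [← Equiv.sum_comp (Equiv.mulLeft₀ u hu)]
  refine Finset.sum_congr rfl fun b _ => ?_
  unfold du
  rw [Equiv.mulLeft₀_apply, inv_mul_cancel_left₀ hu]

theorem conv_du (u : ZMod q) (hu : u ≠ 0) (f g : ZMod q → ℝ) (z : ZMod q) :
    conv f (du u g) z = ∑ b, g b * f (z - u * b) := by
  rw [conv_comm]
  unfold conv
  exact sum_du u hu g (fun b => f (z - b))

/-- the sum over `u` of the entropies of the dilated convolutions is large if there are many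
collisions -/
theorem coll_le (f g : ZMod q → ℝ) (hf : ∀ a, 0 ≤ f a) (hg : ∀ a, 0 ≤ g a) (hf1 : ∑ a, f a = 1)
    (hg1 : ∑ a, g a = 1) (U : Finset (ZMod q)) (hU : (0 : ZMod q) ∉ U) (hU0 : U.Nonempty) :
    Real.log U.card * ∑ u ∈ U, ∑ a, ∑ b, f a * g b *
      (1 - f a * g b / conv f (du u g) (a + u * b)) ≤ ∑ u ∈ U, ent (conv f (du u g)) := by
  classical
  have hUc : (0 : ℝ) < U.card := by exact_mod_cast hU0.card_pos
  have hu0 : ∀ u ∈ U, u ≠ 0 := fun u hu h => hU (h ▸ hu)
  -- the weight of the pair is at most the weight of the value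
  have hwh : ∀ u ∈ U, ∀ a b, f a * g b ≤ conv f (du u g) (a + u * b) := by
    intro u hu a b
    rw [conv_du u (hu0 u hu)]
    have h1 := Finset.single_le_sum (f := fun b' => g b' * f (a + u * b - u * b'))
      (fun c _ => mul_nonneg (hg c) (hf _)) (Finset.mem_univ b)
    simp only [add_sub_cancel_right] at h1
    rw [mul_comm]
    exact h1
  have hpt : ∀ u ∈ U, ∀ a b, f a * g b * (Real.log (conv f (du u g) (a + u * b)) +
      Real.log U.card * (1 - f a * g b / conv f (du u g) (a + u * b))) ≤
      f a * g b * (f a * g b + U.card * (conv f (du u g) (a + u * b) - f a * g b) - 1) := by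
    intro u hu a b
    obtain ⟨w, hw⟩ : ∃ w : ℝ, w = f a * g b := ⟨_, rfl⟩
    obtain ⟨h, hh⟩ : ∃ h : ℝ, h = conv f (du u g) (a + u * b) := ⟨_, rfl⟩
    have hw0 : 0 ≤ w := by rw [hw]; exact mul_nonneg (hf a) (hg b)
    have hle : w ≤ h := by rw [hw, hh]; exact hwh u hu a b
    rw [← hw, ← hh]
    rcases eq_or_lt_of_le hw0 with h0 | h0
    · rw [← h0]
      simp
    · have hh0 : 0 < h := lt_of_lt_of_le h0 hle
      refine mul_le_mul_of_nonneg_left ?_ h0.le
      have e1 := Real.log_le_sub_one_of_pos hh0
      have e2 := Real.log_le_sub_one_of_pos (mul_pos hUc hh0)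
      rw [Real.log_mul hUc.ne' hh0.ne'] at e2
      have hp0 : 0 ≤ w / h := by positivity
      have hp1 : w / h ≤ 1 := (div_le_one hh0).2 hle
      have e3 := mul_le_mul_of_nonneg_left e1 hp0
      have e4 := mul_le_mul_of_nonneg_left e2 (show 0 ≤ 1 - w / h by linarith)
      have e5 : w / h * (h - 1) + (1 - w / h) * (U.card * h - 1) =
          w + U.card * (h - w) - 1 := by
        field_simp
        ring
      linarith
  have hsum := Finset.sum_le_sum fun u hu => Finset.sum_le_sum fun a (_ : a ∈ univ) =>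
    Finset.sum_le_sum fun b (_ : b ∈ univ) => hpt u hu a b
  -- the left side
  have hL : ∑ u ∈ U, ∑ a, ∑ b, f a * g b * (Real.log (conv f (du u g) (a + u * b)) +
      Real.log U.card * (1 - f a * g b / conv f (du u g) (a + u * b))) =
      Real.log U.card * ∑ u ∈ U, ∑ a, ∑ b, f a * g b *
        (1 - f a * g b / conv f (du u g) (a + u * b)) - ∑ u ∈ U, ent (conv f (du u g)) := by
    rw [Finset.mul_sum, ← Finset.sum_sub_distrib]
    refine Finset.sum_congr rfl fun u hu => ?_
    have e1 : ent (conv f (du u g)) =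
        -∑ a, ∑ b, f a * g b * Real.log (conv f (du u g) (a + u * b)) := by
      have e2 : ∑ z, conv f (du u g) z * Real.log (conv f (du u g) z) =
          ∑ a, ∑ b, f a * g b * Real.log (conv f (du u g) (a + u * b)) := by
        rw [sum_conv_mul f (du u g) (fun z => Real.log (conv f (du u g) z))]
        refine Finset.sum_congr rfl fun a _ => ?_
        have e3 := sum_du u (hu0 u hu) g (fun b => f a * Real.log (conv f (du u g) (a + b)))
        calc ∑ b, f a * du u g b * Real.log (conv f (du u g) (a + b)) =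
              ∑ b, du u g b * (f a * Real.log (conv f (du u g) (a + b))) :=
                Finset.sum_congr rfl fun b _ => by ring
          _ = ∑ b, g b * (f a * Real.log (conv f (du u g) (a + u * b))) := e3
          _ = _ := Finset.sum_congr rfl fun b _ => by ring
      rw [← e2, ← Finset.sum_neg_distrib]
      unfold ent Real.negMulLog
      refine Finset.sum_congr rfl fun z _ => ?_
      ring
    rw [e1, Finset.mul_sum, sub_neg_eq_add, ← Finset.sum_add_distrib]
    refine Finset.sum_congr rfl fun a _ => ?_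
    rw [Finset.mul_sum, ← Finset.sum_add_distrib]
    refine Finset.sum_congr rfl fun b _ => ?_
    ring
  -- the right side
  have hR : ∑ u ∈ U, ∑ a, ∑ b, f a * g b *
      (f a * g b + U.card * (conv f (du u g) (a + u * b) - f a * g b) - 1) ≤ 0 := by
    have hfle : ∀ a, f a ≤ 1 := by
      intro a
      rw [← hf1]
      exact Finset.single_le_sum (f := f) (fun b _ => hf b) (Finset.mem_univ a)
    have hcol : ∀ a b, ∑ u ∈ U, (conv f (du u g) (a + u * b) - f a * g b) ≤
        1 - f a * g b := by
      intro a b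
      have e1 : ∀ u ∈ U, conv f (du u g) (a + u * b) - f a * g b =
          ∑ b' ∈ univ.erase b, g b' * f (a + u * (b - b')) := by
        intro u hu
        rw [conv_du u (hu0 u hu), ← Finset.add_sum_erase univ _ (Finset.mem_univ b)]
        have e2 : g b * f (a + u * b - u * b) = f a * g b := by
          rw [add_sub_cancel_right, mul_comm]
        rw [e2, add_sub_cancel_left]
        refine Finset.sum_congr rfl fun b' _ => ?_
        rw [mul_sub, add_sub_assoc]
      rw [Finset.sum_congr rfl e1, Finset.sum_comm]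
      have e3 : ∀ b' ∈ univ.erase b, ∑ u ∈ U, g b' * f (a + u * (b - b')) ≤ g b' := by
        intro b' hb'
        rw [← Finset.mul_sum]
        refine mul_le_of_le_one_right (hg b') ?_
        have hne : b - b' ≠ 0 := sub_ne_zero.2 (Finset.ne_of_mem_erase hb').symm
        rw [← hf1]
        have hinj : Set.InjOn (fun u => a + u * (b - b')) (U : Set (ZMod q)) := by
          intro u _ v _ h
          simp only [add_right_inj] at h
          exact mul_right_cancel₀ hne h
        rw [← Finset.sum_image (f := f) hinj]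
        exact Finset.sum_le_sum_of_subset_of_nonneg (Finset.subset_univ _)
          fun c _ _ => hf c
      refine (Finset.sum_le_sum e3).trans ?_
      have e4 := Finset.add_sum_erase univ g (Finset.mem_univ b)
      have e5 : f a * g b ≤ g b := mul_le_of_le_one_left (hg b) (hfle a)
      linarith
    have e1 : ∑ u ∈ U, ∑ a, ∑ b, f a * g b *
        (f a * g b + U.card * (conv f (du u g) (a + u * b) - f a * g b) - 1) =
        ∑ a, ∑ b, f a * g b * (U.card * (∑ u ∈ U,
          (conv f (du u g) (a + u * b) - f a * g b)) + U.card * (f a * g b - 1)) := by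
      rw [Finset.sum_comm]
      refine Finset.sum_congr rfl fun a _ => ?_
      rw [Finset.sum_comm]
      refine Finset.sum_congr rfl fun b _ => ?_
      rw [← Finset.mul_sum]
      congr 1
      have e2 : ∑ u ∈ U, (f a * g b + U.card * (conv f (du u g) (a + u * b) - f a * g b) - 1) =
          ∑ u ∈ U, (U.card * (conv f (du u g) (a + u * b) - f a * g b) + (f a * g b - 1)) :=
        Finset.sum_congr rfl fun u _ => by ring
      rw [e2, Finset.sum_add_distrib, ← Finset.mul_sum, Finset.sum_const, nsmul_eq_mul]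
    rw [e1]
    refine Finset.sum_nonpos fun a _ => Finset.sum_nonpos fun b _ => ?_
    refine mul_nonpos_of_nonneg_of_nonpos (mul_nonneg (hf a) (hg b)) ?_
    have e2 := mul_le_mul_of_nonneg_left (hcol a b) hUc.le
    linarith
  rw [hL] at hsum
  linarith

/-- the loss for one dilation -/
theorem dil_loss (f g : ZMod q → ℝ) (hf : ∀ a, 0 ≤ f a) (hg : ∀ a, 0 ≤ g a) (hf1 : ∑ a, f a = 1)
    (hg1 : ∑ a, g a = 1) (u : ZMod q) (hu : u ≠ 0) (T : Finset (ZMod q)) (K : ℕ) (hK : 1 ≤ K)
    (hT : T.card ≤ K) (θ l : ℝ) (hl0 : 0 < l) (hl1 : l ≤ 1 / 4)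
    (hθ : 1 - θ ≤ ∑ b ∈ T, g b) :
    ent f + ent g - ent (conv f (du u g)) ≤ -Real.log (1 - 2 * l) +
      (Real.log K - Real.log l) * (∑ a, ∑ b, f a * g b *
        (1 - f a * g b / conv f (du u g) (a + u * b))) + θ * (-Real.log l + ent f) := by
  classical
  have hKr : (1 : ℝ) ≤ K := by exact_mod_cast hK
  have hK0 : (0 : ℝ) < K := by linarith
  have hl2 : 0 < 1 - 2 * l := by linarith
  have hg' := du_nonneg u g hg
  have hg1' : ∑ b, du u g b = 1 := by rw [sum_du_one u hu, hg1]
  have hcn := conv_nonneg f (du u g) hf hg'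
  obtain ⟨p, hp⟩ : ∃ p : ZMod q → ZMod q → ℝ,
    p = fun a b => f a * du u g b / conv f (du u g) (a + b) := ⟨_, rfl⟩
  have hp0 : ∀ a b, 0 ≤ p a b := by
    intro a b
    rw [hp]
    exact div_nonneg (mul_nonneg (hf a) (hg' b)) (hcn _)
  have hwh : ∀ a b, f a * du u g b ≤ conv f (du u g) (a + b) := by
    intro a b
    unfold conv
    have h1 := Finset.single_le_sum (f := fun c => f c * du u g (a + b - c))
      (fun c _ => mul_nonneg (hf c) (hg' _)) (Finset.mem_univ a)
    simpa only [add_sub_cancel_left] using h1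
  have hp1 : ∀ a b, p a b ≤ 1 := by
    intro a b
    rw [hp]
    exact div_le_one_of_le₀ (hwh a b) (hcn _)
  obtain ⟨W, hW⟩ : ∃ W : ZMod q → ZMod q → ℝ, W = fun a b => (1 - 2 * l) * p a b +
    (if u⁻¹ * b ∈ T then l / K else 0) + l * f a := ⟨_, rfl⟩
  have hW0 : ∀ a b, 0 ≤ W a b := by
    intro a b
    rw [hW]
    simp only
    have h1 := mul_nonneg hl2.le (hp0 a b)
    have h2 := mul_nonneg hl0.le (hf a)
    split_ifs <;> positivity
  have hcode := code_bound f (du u g) hf hg' hf1 hg1' W (by
      intro a b ha _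
      rw [hW]
      simp only
      have h1 := mul_nonneg hl2.le (hp0 a b)
      have h2 := mul_pos hl0 ha
      split_ifs <;> positivity) hW0 (by
      intro z
      rw [hW]
      simp only
      rw [Finset.sum_add_distrib, Finset.sum_add_distrib, ← Finset.mul_sum, ← Finset.mul_sum,
        hf1]
      have h1 : ∑ a, p a (z - a) ≤ 1 := by
        rw [hp]
        simp only [add_sub_cancel]
        rw [← Finset.sum_div]
        exact div_le_one_of_le₀ le_rfl (hcn z)
      have h2 : ∑ a, (if u⁻¹ * (z - a) ∈ T then l / K else 0) ≤ l := by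
        rw [← Finset.sum_filter, Finset.sum_const, nsmul_eq_mul]
        have h3 : (univ.filter (fun a => u⁻¹ * (z - a) ∈ T)).card ≤ K := by
          refine (Finset.card_le_card_of_injOn (fun a => u⁻¹ * (z - a)) ?_ ?_).trans hT
          · intro a ha
            exact (Finset.mem_filter.1 ha).2
          · intro a _ b _ h
            have h4 := mul_left_cancel₀ (inv_ne_zero hu) h
            exact sub_right_injective h4
        have h4 : ((univ.filter (fun a => u⁻¹ * (z - a) ∈ T)).card : ℝ) ≤ K := by
          exact_mod_cast h3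
        calc ((univ.filter (fun a => u⁻¹ * (z - a) ∈ T)).card : ℝ) * (l / K) ≤ K * (l / K) :=
              mul_le_mul_of_nonneg_right h4 (by positivity)
          _ = l := by field_simp
      have h3 := mul_le_mul_of_nonneg_left h1 hl2.le
      linarith)
  rw [ent_du u hu] at hcode
  refine hcode.trans ?_
  -- pointwise
  have hLK : 0 ≤ Real.log K - Real.log l := by
    have h1 := Real.log_nonneg hKr
    have h2 := Real.log_nonpos hl0.le (by linarith)
    linarith
  have hl12 : 0 ≤ -Real.log (1 - 2 * l) := by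
    have := Real.log_nonpos hl2.le (by linarith)
    linarith
  have hpt : ∀ a b, f a * du u g b * (-Real.log (W a b)) ≤
      f a * du u g b * (-Real.log (1 - 2 * l) + (Real.log K - Real.log l) * (1 - p a b)) +
      (if u⁻¹ * b ∈ T then 0 else du u g b * (Real.negMulLog (f a) + f a * (-Real.log l))) := by
    intro a b
    rcases eq_or_lt_of_le (hf a) with ha | ha
    · rw [← ha]
      simp
    rcases eq_or_lt_of_le (hg' b) with hb | hb
    · rw [← hb]
      simp
    have hab := mul_pos ha hb
    have h1p : 0 ≤ 1 - p a b := by linarith [hp1 a b]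
    have hnn : 0 ≤ -Real.log (1 - 2 * l) + (Real.log K - Real.log l) * (1 - p a b) :=
      add_nonneg hl12 (mul_nonneg hLK h1p)
    by_cases hT' : u⁻¹ * b ∈ T
    · rw [if_pos hT', add_zero]
      refine mul_le_mul_of_nonneg_left ?_ hab.le
      have h2 : p a b * (1 - 2 * l) + (1 - p a b) * (l / K) ≤ W a b := by
        rw [hW]
        simp only
        rw [if_pos hT']
        have e1 : 0 ≤ p a b * (l / K) := mul_nonneg (hp0 a b) (by positivity)
        have e2 := mul_nonneg hl0.le (hf a)
        linarith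
      have hlK : 0 < l / K := by positivity
      have h3 : 0 < p a b * (1 - 2 * l) + (1 - p a b) * (l / K) := by
        rcases eq_or_lt_of_le (hp0 a b) with e1 | e1
        · rw [← e1]
          simpa using hlK
        · have := mul_pos e1 hl2
          have := mul_nonneg h1p hlK.le
          linarith
      have h4 := Real.log_le_log h3 h2
      have h5 : p a b * Real.log (1 - 2 * l) + (1 - p a b) * Real.log (l / K) ≤
          Real.log (p a b * (1 - 2 * l) + (1 - p a b) * (l / K)) := by
        have := strictConcaveOn_log_Ioi.concaveOn.2 (Set.mem_Ioi.2 hl2) (Set.mem_Ioi.2 hlK)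
          (hp0 a b) h1p (by ring)
        simpa only [smul_eq_mul] using this
      rw [Real.log_div hl0.ne' hK0.ne'] at h5
      have h6 : p a b * (-Real.log (1 - 2 * l)) ≤ -Real.log (1 - 2 * l) :=
        mul_le_of_le_one_left hl12 (hp1 a b)
      linarith
    · rw [if_neg hT']
      have h2 : l * f a ≤ W a b := by
        rw [hW]
        simp only
        rw [if_neg hT']
        have := mul_nonneg hl2.le (hp0 a b)
        linarith
      have h3 := Real.log_le_log (mul_pos hl0 ha) h2
      rw [Real.log_mul hl0.ne' ha.ne'] at h3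
      have h4 : f a * du u g b * (-Real.log (W a b)) ≤
          f a * du u g b * (-Real.log l - Real.log (f a)) :=
        mul_le_mul_of_nonneg_left (by linarith) hab.le
      have h5 := mul_nonneg hab.le hnn
      unfold Real.negMulLog
      linarith
  refine (Finset.sum_le_sum fun a _ => Finset.sum_le_sum fun b _ => hpt a b).trans ?_
  -- evaluate
  have hE1 : ∑ a, ∑ b, f a * du u g b * (1 - p a b) =
      ∑ a, ∑ b, f a * g b * (1 - f a * g b / conv f (du u g) (a + u * b)) := by
    refine Finset.sum_congr rfl fun a _ => ?_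
    have e1 := sum_du u hu g (fun b => f a * (1 - p a b))
    calc ∑ b, f a * du u g b * (1 - p a b) = ∑ b, du u g b * (f a * (1 - p a b)) :=
          Finset.sum_congr rfl fun b _ => by ring
      _ = ∑ b, g b * (f a * (1 - p a (u * b))) := e1
      _ = _ := by
          refine Finset.sum_congr rfl fun b _ => ?_
          rw [hp]
          unfold du
          simp only
          rw [inv_mul_cancel_left₀ hu]
          ring
  have hE2 : ∑ a, ∑ b, (if u⁻¹ * b ∈ T then 0 else
      du u g b * (Real.negMulLog (f a) + f a * (-Real.log l))) ≤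
      θ * (-Real.log l + ent f) := by
    rw [Finset.sum_comm]
    have e1 : ∀ b : ZMod q, ∑ a, (if u⁻¹ * b ∈ T then 0 else
        du u g b * (Real.negMulLog (f a) + f a * (-Real.log l))) =
        du u g b * (if u⁻¹ * b ∈ T then 0 else (-Real.log l + ent f)) := by
      intro b
      by_cases hb : u⁻¹ * b ∈ T
      · simp only [if_pos hb, Finset.sum_const_zero, mul_zero]
      · simp only [if_neg hb]
        rw [← Finset.mul_sum, Finset.sum_add_distrib, ← Finset.sum_mul, hf1, one_mul]
        unfold ent
        ring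
    rw [Finset.sum_congr rfl fun b _ => e1 b, sum_du u hu g (fun b =>
      if u⁻¹ * b ∈ T then 0 else (-Real.log l + ent f))]
    simp only [inv_mul_cancel_left₀ hu]
    have e2 : ∑ b, g b * (if b ∈ T then 0 else (-Real.log l + ent f)) =
        (∑ b, (if b ∈ T then 0 else g b)) * (-Real.log l + ent f) := by
      rw [Finset.sum_mul]
      refine Finset.sum_congr rfl fun b _ => ?_
      split_ifs <;> ring
    rw [e2]
    refine mul_le_mul_of_nonneg_right ?_ ?_
    · have e3 : ∑ b, (if b ∈ T then 0 else g b) = 1 - ∑ b ∈ T, g b := by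
        have e4 : ∑ b, g b = ∑ b, (if b ∈ T then 0 else g b) + ∑ b ∈ T, g b := by
          rw [← Finset.sum_filter_add_sum_filter_not univ (fun b => b ∈ T) g]
          have e5 : univ.filter (fun b => b ∈ T) = T := by
            ext b
            simp
          rw [e5, Finset.sum_filter, add_comm]
          congr 1
          refine Finset.sum_congr rfl fun b _ => ?_
          by_cases hb : b ∈ T <;> simp [hb]
        linarith
      rw [e3]
      linarith
    · have h1 := ent_nonneg f hf hf1
      have h2 := Real.log_nonpos hl0.le (by linarith)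
      linarith
  have hE3 : ∑ a, ∑ b, f a * du u g b * (-Real.log (1 - 2 * l) +
      (Real.log K - Real.log l) * (1 - p a b)) = -Real.log (1 - 2 * l) +
      (Real.log K - Real.log l) * ∑ a, ∑ b, f a * du u g b * (1 - p a b) := by
    have e1 : ∑ a, ∑ b, f a * du u g b = 1 := by
      rw [← Finset.sum_mul_sum, hf1, hg1', one_mul]
    have e2 : -Real.log (1 - 2 * l) = (∑ a, ∑ b, f a * du u g b) * (-Real.log (1 - 2 * l)) := by
      rw [e1, one_mul]
    conv_rhs => rw [e2]
    rw [Finset.sum_mul, Finset.mul_sum, ← Finset.sum_add_distrib]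
    refine Finset.sum_congr rfl fun a _ => ?_
    rw [Finset.sum_mul, Finset.mul_sum, ← Finset.sum_add_distrib]
    refine Finset.sum_congr rfl fun b _ => ?_
    ring
  have hE4 : ∑ a, ∑ b, (f a * du u g b * (-Real.log (1 - 2 * l) +
      (Real.log K - Real.log l) * (1 - p a b)) + (if u⁻¹ * b ∈ T then 0 else
      du u g b * (Real.negMulLog (f a) + f a * (-Real.log l)))) =
      ∑ a, ∑ b, f a * du u g b * (-Real.log (1 - 2 * l) +
      (Real.log K - Real.log l) * (1 - p a b)) + ∑ a, ∑ b, (if u⁻¹ * b ∈ T then 0 else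
      du u g b * (Real.negMulLog (f a) + f a * (-Real.log l))) := by
    rw [← Finset.sum_add_distrib]
    refine Finset.sum_congr rfl fun a _ => ?_
    rw [Finset.sum_add_distrib]
  rw [hE4, hE3, hE1]
  linarith

/-- **Middle nodes.** -/
theorem mid (f g : ZMod q → ℝ) (hf : ∀ a, 0 ≤ f a) (hg : ∀ a, 0 ≤ g a) (hf1 : ∑ a, f a = 1)
    (hg1 : ∑ a, g a = 1) (U : Finset (ZMod q)) (hU : (0 : ZMod q) ∉ U) (hU2 : 2 ≤ U.card)
    (T : Finset (ZMod q)) (K : ℕ) (hK : 1 ≤ K) (hT : T.card ≤ K) (θ l : ℝ) (hl0 : 0 < l)
    (hl1 : l ≤ 1 / 4) (hθ0 : 0 ≤ θ) (hθ : 1 - θ ≤ ∑ b ∈ T, g b) (c2 : ℝ)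
    (hc2 : Real.log K - Real.log l ≤ c2 * Real.log U.card) :
    ∑ u ∈ U, (ent f + ent g - ent (conv f (du u g))) ≤
      U.card * (-Real.log (1 - 2 * l) + θ * (-Real.log l + ent f) + c2 * (ent f + ent g)) := by
  have hUc : (0 : ℝ) < U.card := by
    have : 0 < U.card := by omega
    exact_mod_cast this
  have hlogU : 0 < Real.log U.card := Real.log_pos (by exact_mod_cast hU2)
  have hu0 : ∀ u ∈ U, u ≠ 0 := fun u hu h => hU (h ▸ hu)
  have hKr : (1 : ℝ) ≤ K := by exact_mod_cast hK
  have hLK : 0 ≤ Real.log K - Real.log l := by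
    have h1 := Real.log_nonneg hKr
    have h2 := Real.log_nonpos hl0.le (by linarith)
    linarith
  have hc20 : 0 ≤ c2 := by
    by_contra h
    push Not at h
    have := mul_neg_of_neg_of_pos h hlogU
    linarith
  have hhf := ent_nonneg f hf hf1
  have hhg := ent_nonneg g hg hg1
  have hll : 0 ≤ -Real.log l := by
    have h2 := Real.log_nonpos hl0.le (by linarith)
    linarith
  have hl12 : 0 ≤ -Real.log (1 - 2 * l) := by
    have := Real.log_nonpos (show 0 ≤ 1 - 2 * l by linarith) (by linarith)
    linarith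
  obtain ⟨ρ, hρ⟩ : ∃ ρ : ZMod q → ℝ, ρ = fun u => ∑ a, ∑ b, f a * g b *
      (1 - f a * g b / conv f (du u g) (a + u * b)) := ⟨_, rfl⟩
  have h1 : ∀ u ∈ U, ent f + ent g - ent (conv f (du u g)) ≤ -Real.log (1 - 2 * l) +
      θ * (-Real.log l + ent f) + (Real.log K - Real.log l) * ρ u := by
    intro u hu
    have := dil_loss f g hf hg hf1 hg1 u (hu0 u hu) T K hK hT θ l hl0 hl1 hθ
    rw [hρ]
    linarith
  have h2 := coll_le f g hf hg hf1 hg1 U hU (Finset.card_pos.1 (by omega))
  have h2' : Real.log U.card * ∑ u ∈ U, ρ u ≤ ∑ u ∈ U, ent (conv f (du u g)) := by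
    rw [hρ]
    exact h2
  have hρ0 : 0 ≤ ∑ u ∈ U, ρ u := by
    refine Finset.sum_nonneg fun u hu => ?_
    rw [hρ]
    refine Finset.sum_nonneg fun a _ => Finset.sum_nonneg fun b _ => ?_
    refine mul_nonneg (mul_nonneg (hf a) (hg b)) ?_
    have hwh : f a * g b ≤ conv f (du u g) (a + u * b) := by
      rw [conv_du u (hu0 u hu)]
      have h1 := Finset.single_le_sum (f := fun b' => g b' * f (a + u * b - u * b'))
        (fun c _ => mul_nonneg (hg c) (hf _)) (Finset.mem_univ b)
      simp only [add_sub_cancel_right] at h1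
      rw [mul_comm]
      exact h1
    have := div_le_one_of_le₀ hwh (conv_nonneg f _ hf (du_nonneg u g hg) _)
    linarith
  have h3 := Finset.sum_le_sum h1
  rw [Finset.sum_add_distrib, Finset.sum_const, nsmul_eq_mul, ← Finset.mul_sum] at h3
  have h4 : (Real.log K - Real.log l) * ∑ u ∈ U, ρ u ≤ c2 * ∑ u ∈ U, ent (conv f (du u g)) := by
    calc (Real.log K - Real.log l) * ∑ u ∈ U, ρ u ≤ c2 * Real.log U.card * ∑ u ∈ U, ρ u :=
          mul_le_mul_of_nonneg_right hc2 hρ0
      _ = c2 * (Real.log U.card * ∑ u ∈ U, ρ u) := by ring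
      _ ≤ _ := mul_le_mul_of_nonneg_left h2' hc20
  have h5 : ∑ u ∈ U, (ent f + ent g - ent (conv f (du u g))) =
      U.card * (ent f + ent g) - ∑ u ∈ U, ent (conv f (du u g)) := by
    rw [Finset.sum_sub_distrib, Finset.sum_const, nsmul_eq_mul]
  obtain ⟨D, hD⟩ : ∃ D : ℝ, D = ∑ u ∈ U, (ent f + ent g - ent (conv f (du u g))) := ⟨_, rfl⟩
  rw [← hD] at h3 h5 ⊢
  have h6 : ∑ u ∈ U, ent (conv f (du u g)) = U.card * (ent f + ent g) - D := by linarith
  rw [h6] at h4
  have hX : 0 ≤ U.card * (-Real.log (1 - 2 * l) + θ * (-Real.log l + ent f) +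
      c2 * (ent f + ent g)) := by
    have e1 := mul_nonneg hθ0 (add_nonneg hll hhf)
    have e2 := mul_nonneg hc20 (add_nonneg hhf hhg)
    exact mul_nonneg hUc.le (by linarith)
  rcases le_or_gt D 0 with hD0 | hD0
  · exact hD0.trans hX
  · have := mul_nonneg hc20 hD0.le
    linarith

end Pool.Agent.Helper28.LN
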