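import Pool.Agent.Helper28.LN.Shift
import Pool.Agent.Helper15.GL.Opt

set_option autoImplicit false

/-!
# Project LINES (MP_120218), Sharp: optimality of theorem L2 for every `n` and `r`
-/

namespace Pool.Agent.Helper28.LN

open Finset Pool.Agent.Helper15.GL

/-- the first `r` primes are at most `4 (r + 1) ^ 2` -/
theorem nth_prime_le (r i : ℕ) (hi : i < r) : Nat.nth Nat.Prime i ≤ 4 * (r + 1) ^ 2 := by
  obtain ⟨m, hm⟩ : ∃ m : ℕ, m = 4 * (r + 1) ^ 2 := ⟨_, rfl⟩
  have h1 := Chebyshev.psi_ge m
  have h2 := Chebyshev.psi_le_primeCounting_mul_log m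
  have hr0 : (0 : ℝ) ≤ r := Nat.cast_nonneg r
  have hmr : (m : ℝ) = 4 * (r + 1) ^ 2 := by rw [hm]; push_cast; ring
  have hm4 : (4 : ℝ) ≤ m := by rw [hmr]; nlinarith
  have hlog2 : (0.69 : ℝ) ≤ Real.log 2 := by
    have := Real.log_two_gt_d9
    linarith
  have hlog2' : Real.log 2 ≤ 0.7 := by
    have := Real.log_two_lt_d9
    linarith
  have hlogr : Real.log (r + 1) ≤ r := by
    have := Real.log_le_sub_one_of_pos (show (0 : ℝ) < r + 1 by linarith)
    linarith
  have hlogm : Real.log m = 2 * Real.log 2 + 2 * Real.log (r + 1) := by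
    rw [hmr, Real.log_mul (by norm_num) (by positivity), Real.log_pow]
    have : Real.log 4 = 2 * Real.log 2 := by
      rw [show (4 : ℝ) = 2 ^ 2 by norm_num, Real.log_pow]
      norm_num
    rw [this]
    norm_num
  have hlogm1 : Real.log (m + 1) ≤ Real.log m + 1 / 4 := by
    have h3 : Real.log (m + 1) = Real.log m + Real.log ((m + 1) / m) := by
      rw [Real.log_div (by positivity) (by positivity)]
      ring
    have h4 := Real.log_le_sub_one_of_pos (show (0 : ℝ) < (m + 1) / m by positivity)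
    have h5 : ((m : ℝ) + 1) / m - 1 ≤ 1 / 4 := by
      rw [add_div, div_self (by positivity)]
      have : (1 : ℝ) / m ≤ 1 / 4 := one_div_le_one_div_of_le (by norm_num) hm4
      linarith
    linarith
  have hcount : r ≤ Nat.primeCounting m := by
    by_contra hcon
    push Not at hcon
    have h3 : (Nat.primeCounting m : ℝ) ≤ r := by exact_mod_cast hcon.le
    have hlm0 : 0 ≤ Real.log m := Real.log_nonneg (by linarith)
    have h4 : (m : ℝ) * Real.log 2 - Real.log (m + 1) ≤ r * Real.log m :=
      h1.trans (h2.trans (mul_le_mul_of_nonneg_right h3 hlm0))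
    have h5 : (m : ℝ) * 0.69 ≤ m * Real.log 2 :=
      mul_le_mul_of_nonneg_left hlog2 (by linarith)
    have h6 : (r : ℝ) * Real.log m ≤ r * (1.4 + 2 * r) :=
      mul_le_mul_of_nonneg_left (by rw [hlogm]; linarith) hr0
    have h7 : Real.log m ≤ 1.4 + 2 * r := by rw [hlogm]; linarith
    rw [hmr] at h5 h4
    nlinarith
  have h3 : i < Nat.count Nat.Prime (m + 1) := lt_of_lt_of_le hi hcount
  have h4 := Nat.nth_lt_of_lt_count h3
  omega

/-- the number of elements which leave the extremal set -/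
theorem bad_optA {r : ℕ} (p : Fin r → ℕ) (D T n : ℕ) (i : Fin r) :
    n * (bad ((p i : ℕ) : ℚ) (optA p D T n)).card ≤ T * n ^ r := by
  classical
  rcases Nat.eq_zero_or_pos n with hn | hn
  · rw [hn, zero_mul]
    exact Nat.zero_le _
  have hsub : bad ((p i : ℕ) : ℚ) (optA p D T n) ⊆
      (Finset.range T ×ˢ Fintype.piFinset (fun j : Fin r =>
        if j = i then {n - 1} else Finset.range n)).image
      (fun x : ℕ × (Fin r → ℕ) => (((1 + D * x.1) * ∏ i, p i ^ x.2 i : ℕ) : ℤ)) := by
    intro a ha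
    unfold bad at ha
    rw [Finset.mem_filter] at ha
    obtain ⟨haA, hb⟩ := ha
    unfold optA at haA
    rw [Finset.mem_image] at haA
    obtain ⟨⟨t, e⟩, hte, rfl⟩ := haA
    rw [Finset.mem_product, Finset.mem_range, Fintype.mem_piFinset] at hte
    obtain ⟨ht, he⟩ := hte
    simp only [Finset.mem_range] at ht he
    refine Finset.mem_image.2 ⟨(t, e), ?_, rfl⟩
    rw [Finset.mem_product, Fintype.mem_piFinset]
    refine ⟨Finset.mem_range.2 ht, fun j => ?_⟩
    by_cases hj : j = i
    · subst hj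
      rw [if_pos rfl, Finset.mem_singleton]
      by_contra hne
      have hlt : e j + 1 < n := by
        have h1 : e j ≠ n - 1 := hne
        have := he j
        omega
      refine hb ((((1 + D * t) * ∏ l, p l ^ (Function.update e j (e j + 1)) l : ℕ) : ℤ)) ?_ ?_
      · unfold optA
        refine Finset.mem_image.2 ⟨(t, Function.update e j (e j + 1)), ?_, rfl⟩
        rw [Finset.mem_product, Fintype.mem_piFinset]
        refine ⟨Finset.mem_range.2 ht, fun l => ?_⟩
        rw [Finset.mem_range]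
        by_cases hl : l = j
        · subst hl
          simp only [Function.update_self]
          exact hlt
        · simp only [Function.update_of_ne hl]
          exact he l
      · have h1 : ∏ l, p l ^ (Function.update e j (e j + 1)) l = p j * ∏ l, p l ^ e l := by
          rw [← Finset.mul_prod_erase univ _ (Finset.mem_univ j),
            ← Finset.mul_prod_erase univ (fun l => p l ^ e l) (Finset.mem_univ j),
            Function.update_self]
          have h2 : ∏ x ∈ univ.erase j, p x ^ Function.update e j (e j + 1) x =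
              ∏ x ∈ univ.erase j, p x ^ e x := by
            refine Finset.prod_congr rfl fun x hx => ?_
            rw [Function.update_of_ne (Finset.ne_of_mem_erase hx)]
          rw [h2, pow_succ]
          ring
        rw [h1]
        push_cast
        ring
    · rw [if_neg hj]
      exact Finset.mem_range.2 (he j)
  have h1 := (Finset.card_le_card hsub).trans Finset.card_image_le
  rw [Finset.card_product, Finset.card_range, Fintype.card_piFinset] at h1
  have h2 : ∏ j : Fin r, (if j = i then ({n - 1} : Finset ℕ) else Finset.range n).card =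
      n ^ (r - 1) := by
    rw [← Finset.mul_prod_erase univ _ (Finset.mem_univ i), if_pos rfl,
      Finset.card_singleton, one_mul]
    have h3 : ∏ x ∈ univ.erase i, (if x = i then ({n - 1} : Finset ℕ) else
        Finset.range n).card = ∏ _x ∈ univ.erase i, n := by
      refine Finset.prod_congr rfl fun x hx => ?_
      rw [if_neg (Finset.ne_of_mem_erase hx), Finset.card_range]
    rw [h3, Finset.prod_const, Finset.card_erase_of_mem (Finset.mem_univ i), Finset.card_univ,
      Fintype.card_fin]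
  rw [h2] at h1
  have hr : 0 < r := lt_of_le_of_lt (Nat.zero_le _) i.2
  calc n * (bad ((p i : ℕ) : ℚ) (optA p D T n)).card ≤ n * (T * n ^ (r - 1)) :=
        Nat.mul_le_mul_left _ h1
    _ = T * (n ^ (r - 1) * n) := by ring
    _ = T * n ^ r := by rw [← pow_succ, Nat.sub_add_cancel hr]

/-- **Optimality of L2 for all `n` and `r`.** -/
theorem sharp (η : ℝ) (hη : 0 < η) : ∃ c : ℝ, 0 < c ∧ ∀ r n : ℕ, 1 ≤ r → 1 ≤ n →
    ∃ (A : Finset ℤ) (P : Finset ℕ), A.Nonempty ∧ P.card = r ∧ (∀ p ∈ P, p.Prime) ∧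
      (∀ p ∈ P, (n : ℝ) * (bad (p : ℚ) A).card ≤ A.card) ∧
      (n : ℝ) * r * Real.log (r + 1) ≤ Real.log A.card ∧
      c * Real.log A.card ≤ (n : ℝ) * r * Real.log (r + 1) ∧
      ∀ k : ℕ, (((Fintype.piFinset (fun _ : Fin k => A)).image
        (fun f : Fin k → ℤ => ∑ i, f i)).card : ℝ) ≤ ((k : ℝ) + 1) * (A.card : ℝ) ^ (1 + η) := by
  classical
  refine ⟨1 / (16 / η + 4), by positivity, fun r n hr hn => ?_⟩
  obtain ⟨p, hpd⟩ : ∃ p : Fin r → ℕ, p = fun i : Fin r => Nat.nth Nat.Prime i := ⟨_, rfl⟩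
  have hp : ∀ i, (p i).Prime := by
    intro i
    rw [hpd]
    exact Nat.prime_nth_prime _
  have hinj : Function.Injective p := by
    intro i j h
    rw [hpd] at h
    exact Fin.ext (Nat.nth_injective Nat.infinite_setOfPred_prime h)
  have hple : ∀ i, p i ≤ 4 * (r + 1) ^ 2 := by
    intro i
    rw [hpd]
    exact nth_prime_le r i i.2
  obtain ⟨D, hD⟩ : ∃ D : ℕ, D = ∏ i, p i := ⟨_, rfl⟩
  have hDi : ∀ i, p i ∣ D := by
    intro i
    rw [hD]
    exact Finset.dvd_prod_of_mem _ (Finset.mem_univ i)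
  have hD0 : 0 < D := by
    rw [hD]
    exact Finset.prod_pos fun i _ => (hp i).pos
  have hDR : (1 : ℝ) ≤ D := by exact_mod_cast hD0
  have hr1 : (1 : ℝ) ≤ r := by exact_mod_cast hr
  have hn1 : (1 : ℝ) ≤ n := by exact_mod_cast hn
  have hlog2 : (1 / 2 : ℝ) ≤ Real.log 2 := by
    have := Real.log_two_gt_d9
    linarith
  have hlr : Real.log 2 ≤ Real.log (r + 1) :=
    Real.log_le_log (by norm_num) (by linarith)
  obtain ⟨Z, hZ⟩ : ∃ Z : ℝ, Z = (n : ℝ) * r * Real.log (r + 1) := ⟨_, rfl⟩
  have hnr : 1 ≤ (n : ℝ) * r := by nlinarith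
  have hZ1 : Real.log 2 ≤ Z := by
    rw [hZ]
    nlinarith
  have hZ0 : 0 < Z := by linarith
  have hZnr : (n : ℝ) * r ≤ 2 * Z := by
    rw [hZ]
    have h1 := mul_le_mul_of_nonneg_left (hlog2.trans hlr) (show 0 ≤ (n : ℝ) * r by linarith)
    linarith
  have hlD : Real.log D ≤ 4 * (r * Real.log (r + 1)) := by
    rw [hD, Nat.cast_prod, Real.log_prod (fun i _ => by
      have := (hp i).pos
      positivity)]
    have h1 : ∀ i ∈ (univ : Finset (Fin r)), Real.log (p i) ≤ 4 * Real.log (r + 1) := by
      intro i _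
      have h2 : (p i : ℝ) ≤ 4 * (r + 1) ^ 2 := by exact_mod_cast hple i
      have h3 : (0 : ℝ) < p i := by exact_mod_cast (hp i).pos
      have h4 := Real.log_le_log h3 h2
      rw [Real.log_mul (by norm_num) (by positivity), Real.log_pow] at h4
      have h5 : Real.log 4 = 2 * Real.log 2 := by
        rw [show (4 : ℝ) = 2 ^ 2 by norm_num, Real.log_pow]
        norm_num
      rw [h5] at h4
      push_cast at h4
      linarith
    refine (Finset.sum_le_sum h1).trans ?_
    rw [Finset.sum_const, Finset.card_univ, Fintype.card_fin, nsmul_eq_mul]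
    exact le_of_eq (by ring)
  have hlD0 : 0 ≤ Real.log D := Real.log_nonneg hDR
  have hlD2 : ((n : ℝ) + 1) * Real.log D ≤ 8 * Z := by
    have h1 := mul_le_mul_of_nonneg_left hlD (show 0 ≤ (n : ℝ) + 1 by linarith)
    have h2 : ((n : ℝ) + 1) * (4 * (r * Real.log (r + 1))) ≤
        (2 * n) * (4 * (r * Real.log (r + 1))) := by
      refine mul_le_mul_of_nonneg_right (by linarith) ?_
      have : 0 ≤ Real.log ((r : ℝ) + 1) := by linarith
      positivity
    rw [hZ]
    linarith
  obtain ⟨W, hW⟩ : ∃ W : ℝ, W = (8 / η + 1) * Z := ⟨_, rfl⟩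
  have hWZ : Z ≤ W := by
    rw [hW]
    have : 0 < 8 / η * Z := by positivity
    linarith
  have hηW : 8 * Z ≤ η * W := by
    rw [hW]
    have h1 : η * ((8 / η + 1) * Z) = 8 * Z + η * Z := by
      field_simp
    rw [h1]
    have : 0 < η * Z := by positivity
    linarith
  obtain ⟨T, hT⟩ : ∃ T : ℕ, T = ⌈Real.exp W⌉₊ := ⟨_, rfl⟩
  have hTe : Real.exp W ≤ T := by rw [hT]; exact Nat.le_ceil _
  have hT0 : (0 : ℝ) < T := lt_of_lt_of_le (Real.exp_pos W) hTe
  have hTlog : W ≤ Real.log T := by
    rw [Real.le_log_iff_exp_le hT0]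
    exact hTe
  have hT1 : (1 : ℝ) ≤ T := by
    have : 1 ≤ T := by
      have : 0 < T := by exact_mod_cast hT0
      omega
    exact_mod_cast this
  have hTup : Real.log T ≤ 2 * W := by
    have h1 : (T : ℝ) ≤ 2 * Real.exp W := by
      have h2 : (T : ℝ) < Real.exp W + 1 := by
        rw [hT]
        exact Nat.ceil_lt_add_one (Real.exp_pos W).le
      have h3 : 1 ≤ Real.exp W := Real.one_le_exp (by linarith)
      linarith
    have h2 := Real.log_le_log hT0 h1
    rw [Real.log_mul (by norm_num) (Real.exp_pos W).ne', Real.log_exp] at h2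
    linarith
  have hA : (optA p D T n).card = T * n ^ r := card_optA p hp hinj D T n hDi hD0
  have hAR : ((optA p D T n).card : ℝ) = T * (n : ℝ) ^ r := by rw [hA]; push_cast; ring
  have hnrp : (1 : ℝ) ≤ (n : ℝ) ^ r := one_le_pow₀ hn1
  have hAT : (T : ℝ) ≤ (optA p D T n).card := by
    rw [hAR]
    nlinarith
  have hA1 : (1 : ℝ) ≤ (optA p D T n).card := hT1.trans hAT
  have hlogA : Real.log (optA p D T n).card ≤ (16 / η + 4) * Z := by
    rw [hAR, Real.log_mul (by linarith) (by positivity), Real.log_pow]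
    have h1 : Real.log n ≤ n - 1 := Real.log_le_sub_one_of_pos (by linarith)
    have h2 : (r : ℝ) * Real.log n ≤ r * n :=
      mul_le_mul_of_nonneg_left (by linarith) (by linarith)
    have h3 : 2 * W = (16 / η + 2) * Z := by rw [hW]; ring
    linarith
  refine ⟨optA p D T n, univ.image p, ?_, ?_, ?_, ?_, ?_, ?_, ?_⟩
  · rw [← Finset.card_pos]
    have : (0 : ℝ) < (optA p D T n).card := by linarith
    exact_mod_cast this
  · rw [Finset.card_image_of_injective _ hinj, Finset.card_univ, Fintype.card_fin]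
  · intro q hq
    obtain ⟨i, _, rfl⟩ := Finset.mem_image.1 hq
    exact hp i
  · intro q hq
    obtain ⟨i, _, rfl⟩ := Finset.mem_image.1 hq
    rw [hA]
    exact_mod_cast bad_optA p D T n i
  · rw [← hZ]
    exact hWZ.trans (hTlog.trans (Real.log_le_log hT0 hAT))
  · rw [← hZ, one_div, inv_mul_le_iff₀ (by positivity)]
    exact hlogA
  · intro k
    have h1 := sum_optA p hp D T n hD hD0 k
    have h2 : (((Fintype.piFinset (fun _ : Fin k => optA p D T n)).image
        (fun f : Fin k → ℤ => ∑ i, f i)).card : ℝ) ≤ k * (T * (D : ℝ) ^ (n + 1)) + 1 := by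
      exact_mod_cast h1
    refine h2.trans ?_
    have h3 : (T : ℝ) * (D : ℝ) ^ (n + 1) ≤ ((optA p D T n).card : ℝ) ^ (1 + η) := by
      have h4 : (D : ℝ) ^ (n + 1) ≤ (T : ℝ) ^ η := by
        rw [← Real.log_le_log_iff (by positivity) (by positivity), Real.log_pow,
          Real.log_rpow hT0]
        push_cast
        have h5 := mul_le_mul_of_nonneg_left hTlog hη.le
        linarith
      calc (T : ℝ) * (D : ℝ) ^ (n + 1) ≤ T * (T : ℝ) ^ η :=
            mul_le_mul_of_nonneg_left h4 (by linarith)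
        _ = (T : ℝ) ^ (1 + η) := by rw [Real.rpow_add hT0, Real.rpow_one]
        _ ≤ _ := Real.rpow_le_rpow hT0.le hAT (by linarith)
    have hk : (0 : ℝ) ≤ k := Nat.cast_nonneg k
    have h5 : (1 : ℝ) ≤ ((optA p D T n).card : ℝ) ^ (1 + η) :=
      Real.one_le_rpow hA1 (by linarith)
    calc (k : ℝ) * (T * (D : ℝ) ^ (n + 1)) + 1 ≤
          k * ((optA p D T n).card : ℝ) ^ (1 + η) + ((optA p D T n).card : ℝ) ^ (1 + η) :=
            add_le_add (mul_le_mul_of_nonneg_left h3 hk) h5
      _ = _ := by ring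

end Pool.Agent.Helper28.LN
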