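import Pool.Agent.Helper28.LN.Cls

set_option autoImplicit false

/-!
# Project LINES (MP_120218), Submod: submodularity of the entropy of residues and the moduli
`MM r q j = ∏ i < r, q i ^ j i`
-/

namespace Pool.Agent.Helper28.LN

open Finset

theorem submod_aux (m m' w L : ℕ) (hmm' : m ∣ m') (hmw : m ∣ w)
    (hL : ∀ d : ℤ, (L : ℤ) ∣ d ↔ (m' : ℤ) ∣ d ∧ (w : ℤ) ∣ d) (Y : Finset ℤ) :
    ∑ y ∈ Y, ((cl w Y y).card * (cl m' Y y).card : ℝ) /
      ((cl m Y y).card * (cl L Y y).card) ≤ Y.card := by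
  classical
  have h1 : ∀ y ∈ Y, ((cl w Y y).card * (cl m' Y y).card : ℝ) /
      ((cl m Y y).card * (cl L Y y).card) =
      ∑ z ∈ Y, ∑ z' ∈ Y, if ((w : ℤ) ∣ z - y ∧ (m' : ℤ) ∣ z' - y) then
        1 / (((cl m Y y).card : ℝ) * (cl L Y y).card) else 0 := by
    intro y _
    have e1 : ∀ z ∈ Y, ∑ z' ∈ Y, (if ((w : ℤ) ∣ z - y ∧ (m' : ℤ) ∣ z' - y) then
        1 / (((cl m Y y).card : ℝ) * (cl L Y y).card) else 0) =
        if (w : ℤ) ∣ z - y then ((cl m' Y y).card : ℝ) *
          (1 / (((cl m Y y).card : ℝ) * (cl L Y y).card)) else 0 := by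
      intro z _
      by_cases hz : (w : ℤ) ∣ z - y
      · simp only [hz, true_and, if_true]
        rw [← Finset.sum_filter, Finset.sum_const, nsmul_eq_mul]
        rfl
      · simp only [hz, false_and, if_false, Finset.sum_const_zero]
    rw [Finset.sum_congr rfl e1, ← Finset.sum_filter, Finset.sum_const, nsmul_eq_mul]
    unfold cl
    ring
  rw [Finset.sum_congr rfl h1, Finset.sum_comm]
  have h2 : ∀ z ∈ Y, ∑ y ∈ Y, ∑ z' ∈ Y, (if ((w : ℤ) ∣ z - y ∧ (m' : ℤ) ∣ z' - y) then
        1 / (((cl m Y y).card : ℝ) * (cl L Y y).card) else 0) ≤ 1 := by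
    intro z hz
    rw [Finset.sum_comm]
    have h3 : ∀ z' ∈ Y, ∑ y ∈ Y, (if ((w : ℤ) ∣ z - y ∧ (m' : ℤ) ∣ z' - y) then
        1 / (((cl m Y y).card : ℝ) * (cl L Y y).card) else 0) ≤
        if (m : ℤ) ∣ z' - z then 1 / ((cl m Y z).card : ℝ) else 0 := by
      intro z' _
      by_cases hex : ∃ y0 ∈ Y, (w : ℤ) ∣ z - y0 ∧ (m' : ℤ) ∣ z' - y0
      · obtain ⟨y0, hy0, hw, hm'⟩ := hex
        have hmz : (m : ℤ) ∣ z' - z := by
          have a1 := (Int.natCast_dvd_natCast.2 hmm').trans hm'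
          have a2 := (Int.natCast_dvd_natCast.2 hmw).trans hw
          have := dvd_sub a1 a2
          simpa using this
        rw [if_pos hmz]
        have h4 : ∀ y ∈ Y, (if ((w : ℤ) ∣ z - y ∧ (m' : ℤ) ∣ z' - y) then
            1 / (((cl m Y y).card : ℝ) * (cl L Y y).card) else 0) ≤
            if (L : ℤ) ∣ y - y0 then 1 / (((cl m Y z).card : ℝ) * (cl L Y y0).card) else 0 := by
          intro y hy
          by_cases hc : (w : ℤ) ∣ z - y ∧ (m' : ℤ) ∣ z' - y
          · have b1 : (L : ℤ) ∣ y - y0 := by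
              rw [hL]
              constructor
              · have := dvd_sub hm' hc.2
                simpa using this
              · have := dvd_sub hw hc.1
                simpa using this
            rw [if_pos hc, if_pos b1, cl_eq b1]
            have b2 : cl m Y y = cl m Y z := by
              refine cl_eq ?_
              have := (Int.natCast_dvd_natCast.2 hmw).trans hc.1
              rw [dvd_sub_comm]
              exact this
            rw [b2]
          · rw [if_neg hc]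
            split_ifs
            · positivity
            · exact le_rfl
        refine (Finset.sum_le_sum h4).trans ?_
        rw [← Finset.sum_filter, Finset.sum_const, nsmul_eq_mul]
        have h5 : (cl L Y y0) = Y.filter (fun y => (L : ℤ) ∣ y - y0) := rfl
        rw [← h5]
        have h6 := cl_card_pos (m := L) hy0
        have h7 := cl_card_pos (m := m) hz
        rw [mul_one_div, div_mul_eq_div_div_swap, div_self h6.ne']
      · have h4 : ∑ y ∈ Y, (if ((w : ℤ) ∣ z - y ∧ (m' : ℤ) ∣ z' - y) then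
            1 / (((cl m Y y).card : ℝ) * (cl L Y y).card) else 0) = 0 := by
          refine Finset.sum_eq_zero fun y hy => ?_
          rw [if_neg]
          intro hc
          exact hex ⟨y, hy, hc⟩
        rw [h4]
        split_ifs
        · positivity
        · exact le_rfl
    refine (Finset.sum_le_sum h3).trans ?_
    rw [← Finset.sum_filter, Finset.sum_const, nsmul_eq_mul]
    have h5 : (cl m Y z) = Y.filter (fun y => (m : ℤ) ∣ y - z) := rfl
    rw [← h5, mul_one_div, div_self (cl_card_pos (m := m) hz).ne']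
  have h8 : ∑ y ∈ Y, ∑ z ∈ Y, ∑ z' ∈ Y, (if ((w : ℤ) ∣ z - y ∧ (m' : ℤ) ∣ z' - y) then
        1 / (((cl m Y y).card : ℝ) * (cl L Y y).card) else 0) ≤ Y.card := by
    rw [Finset.sum_comm]
    refine (Finset.sum_le_sum h2).trans ?_
    simp
  rw [Finset.sum_comm] at h8
  exact h8

/-- submodularity of the entropy of residues -/
theorem submod (m m' w L : ℕ) (hmm' : m ∣ m') (hmw : m ∣ w)
    (hL : ∀ d : ℤ, (L : ℤ) ∣ d ↔ (m' : ℤ) ∣ d ∧ (w : ℤ) ∣ d) (Y : Finset ℤ) :
    FF m' L Y ≤ FF m w Y := by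
  have h := submod_aux m m' w L hmm' hmw hL Y
  have h1 : ∀ y ∈ Y, el m' L Y y - el m w Y y ≤
      ((cl w Y y).card * (cl m' Y y).card : ℝ) / ((cl m Y y).card * (cl L Y y).card) - 1 := by
    intro y hy
    have a1 := cl_card_pos (m := m) hy
    have a2 := cl_card_pos (m := m') hy
    have a3 := cl_card_pos (m := w) hy
    have a4 := cl_card_pos (m := L) hy
    have a5 := Real.log_le_sub_one_of_pos (show 0 <
      ((cl w Y y).card * (cl m' Y y).card : ℝ) / ((cl m Y y).card * (cl L Y y).card) by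
      positivity)
    rw [Real.log_div (by positivity) (by positivity), Real.log_mul a3.ne' a2.ne',
      Real.log_mul a1.ne' a4.ne'] at a5
    unfold el
    linarith
  have h2 := Finset.sum_le_sum h1
  rw [Finset.sum_sub_distrib, Finset.sum_sub_distrib] at h2
  simp only [Finset.sum_const, nsmul_eq_mul, mul_one] at h2
  unfold FF
  linarith

/-- the moduli -/
def MM (r : ℕ) (q : ℕ → ℕ) (j : ℕ → ℕ) : ℕ := ∏ i ∈ Finset.range r, q i ^ j i

theorem MM_pos (r : ℕ) (q : ℕ → ℕ) (j : ℕ → ℕ) (hq : ∀ i < r, (q i).Prime) :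
    0 < MM r q j :=
  Finset.prod_pos fun i hi => pow_pos (hq i (Finset.mem_range.1 hi)).pos _

theorem MM_dvd_iff (r : ℕ) (q : ℕ → ℕ) (j : ℕ → ℕ) (hq : ∀ i < r, (q i).Prime)
    (hinj : ∀ i < r, ∀ l < r, i ≠ l → q i ≠ q l) (d : ℤ) :
    (MM r q j : ℤ) ∣ d ↔ ∀ i < r, ((q i ^ j i : ℕ) : ℤ) ∣ d := by
  unfold MM
  rw [Nat.cast_prod]
  constructor
  · intro h i hi
    exact (Finset.dvd_prod_of_mem (fun i => ((q i ^ j i : ℕ) : ℤ))
      (Finset.mem_range.2 hi)).trans h
  · intro h
    refine Finset.prod_dvd_of_coprime ?_ fun i hi => h i (Finset.mem_range.1 hi)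
    intro i hi l hl hil
    rw [Finset.coe_range, Set.mem_Iio] at hi hl
    simp only [Function.onFun]
    rw [Nat.isCoprime_iff_coprime]
    exact Nat.Coprime.pow _ _ ((Nat.coprime_primes (hq i hi) (hq l hl)).2 (hinj i hi l hl hil))

/-- raising coordinate `i` -/
def up (j : ℕ → ℕ) (i : ℕ) : ℕ → ℕ := Function.update j i (j i + 1)

theorem MM_up (r : ℕ) (q : ℕ → ℕ) (j : ℕ → ℕ) (i : ℕ) (hi : i < r) :
    MM r q (up j i) = MM r q j * q i := by
  unfold MM up
  rw [← Finset.mul_prod_erase _ _ (Finset.mem_range.2 hi),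
    ← Finset.mul_prod_erase (Finset.range r) (fun i => q i ^ j i) (Finset.mem_range.2 hi)]
  have h1 : ∏ x ∈ (Finset.range r).erase i, q x ^ Function.update j i (j i + 1) x =
      ∏ x ∈ (Finset.range r).erase i, q x ^ j x := by
    refine Finset.prod_congr rfl fun x hx => ?_
    rw [Finset.mem_erase] at hx
    rw [Function.update_of_ne hx.1]
  rw [h1, Function.update_self, pow_succ]
  ring

theorem MM_dvd_MM (r : ℕ) (q : ℕ → ℕ) (j j' : ℕ → ℕ) (h : ∀ i < r, j i ≤ j' i) :
    MM r q j ∣ MM r q j' :=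
  Finset.prod_dvd_prod_of_dvd _ _ fun i hi => pow_dvd_pow _ (h i (Finset.mem_range.1 hi))

/-- submodularity for the moduli `MM` -/
theorem submod_MM (r : ℕ) (q : ℕ → ℕ) (hq : ∀ i < r, (q i).Prime)
    (hinj : ∀ i < r, ∀ l < r, i ≠ l → q i ≠ q l) (j j' : ℕ → ℕ) (h : ∀ i < r, j i ≤ j' i)
    (i : ℕ) (hi : i < r) (hji : j i = j' i) (Y : Finset ℤ) :
    FF (MM r q j') (MM r q j' * q i) Y ≤ FF (MM r q j) (MM r q j * q i) Y := by
  have hd := MM_dvd_MM r q j j' h
  refine submod _ _ _ _ hd (Dvd.intro _ rfl) ?_ Y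
  intro d
  constructor
  · intro h1
    have h2 : ((MM r q j' : ℕ) : ℤ) ∣ ((MM r q j' * q i : ℕ) : ℤ) :=
      Int.natCast_dvd_natCast.2 (Dvd.intro _ rfl)
    have h3 : ((MM r q j * q i : ℕ) : ℤ) ∣ ((MM r q j' * q i : ℕ) : ℤ) :=
      Int.natCast_dvd_natCast.2 (Nat.mul_dvd_mul_right hd _)
    exact ⟨h2.trans h1, h3.trans h1⟩
  · rintro ⟨h1, h2⟩
    rw [← MM_up r q j' i hi]
    rw [← MM_up r q j i hi] at h2
    rw [MM_dvd_iff r q _ hq hinj] at h1 h2 ⊢
    intro l hl
    by_cases hli : l = i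
    · have := h2 l hl
      subst hli
      unfold up at this ⊢
      rw [Function.update_self] at this ⊢
      rw [← hji]
      exact this
    · have := h1 l hl
      unfold up
      rw [Function.update_of_ne hli]
      exact this

end Pool.Agent.Helper28.LN
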